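import Pool.Agent.H961R2.Lev.Stubs

set_option autoImplicit false

open MeasureTheory Set Filter Topology InnerProductSpace Complex

namespace H961Lev

namespace M2

theorem kp_pos {δ : ℝ} (h0 : 0 < δ) (h1 : δ < 1) : 0 < kp δ := by
  unfold kp
  apply Real.sin_pos_of_pos_of_lt_pi
  · positivity
  · nlinarith [Real.pi_pos]

theorem kp_lt {δ : ℝ} (h0 : 0 < δ) (h1 : δ < 1) : kp δ < 1 := by
  unfold kp
  have h2 : Real.sin (Real.pi * δ / 2) < Real.sin (Real.pi / 2) := by
    apply Real.sin_lt_sin_of_lt_of_le_pi_div_two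
    · nlinarith [Real.pi_pos]
    · exact le_refl _
    · nlinarith [Real.pi_pos]
  rwa [Real.sin_pi_div_two] at h2

/-- the argument of arcosh -/
noncomputable def q (δ : ℝ) (z : ℂ) : ℝ :=
  (‖Complex.cos (Real.pi * z) - (kp δ : ℂ)‖ + ‖Complex.cos (Real.pi * z) + (kp δ : ℂ)‖) /
    (2 * kp δ)

theorem Ut_eq (δ : ℝ) (z : ℂ) : Ut δ z = Real.arcosh (q δ z) / Real.pi := rfl

theorem one_le_q {δ : ℝ} (h0 : 0 < δ) (h1 : δ < 1) (z : ℂ) : 1 ≤ q δ z := by
  have hk := kp_pos h0 h1
  unfold q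
  rw [le_div_iff₀ (by positivity)]
  have h2 : (2 * kp δ : ℝ) = ‖(Complex.cos (Real.pi * z) + (kp δ : ℂ)) -
      (Complex.cos (Real.pi * z) - (kp δ : ℂ))‖ := by
    have : (Complex.cos (Real.pi * z) + (kp δ : ℂ)) - (Complex.cos (Real.pi * z) - (kp δ : ℂ)) =
        ((2 * kp δ : ℝ) : ℂ) := by push_cast; ring
    rw [this, Complex.norm_real, Real.norm_of_nonneg (by positivity)]
  have h3 := norm_sub_le (Complex.cos (Real.pi * z) + (kp δ : ℂ))
    (Complex.cos (Real.pi * z) - (kp δ : ℂ))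
  rw [← h2] at h3
  linarith

theorem continuous_q (δ : ℝ) : Continuous (q δ) := by
  unfold q
  fun_prop

theorem continuous_Ut {δ : ℝ} (h0 : 0 < δ) (h1 : δ < 1) : Continuous (Ut δ) := by
  have : Continuous (fun z => Real.arcosh (q δ z)) :=
    Real.continuousOn_arcosh.comp_continuous (continuous_q δ) (fun z => one_le_q h0 h1 z)
  exact this.div_const _

theorem abs_cos_le {δ : ℝ} (h0 : 0 < δ) (h1 : δ < 1) {x : ℝ} (hx : x ∈ Eh δ) :
    |Real.cos (Real.pi * x)| ≤ kp δ := by
  obtain ⟨n, hn⟩ := hx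
  have hpi := Real.pi_pos
  set t : ℝ := x - (n + 1 / 2) with ht
  have h2 : Real.cos (Real.pi * x) = (-1) ^ n * -Real.sin (Real.pi * t) := by
    rw [← Real.cos_add_pi_div_two, ← Real.cos_add_int_mul_pi]
    congr 1
    rw [ht]; ring
  rw [h2, abs_mul, abs_neg_one_zpow, one_mul, abs_neg]
  obtain ⟨h3, h4⟩ := abs_le.1 hn
  unfold kp
  rw [abs_le]
  constructor
  · rw [← Real.sin_neg]
    apply Real.sin_le_sin_of_le_of_le_pi_div_two
    · nlinarith
    · nlinarith
    · nlinarith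
  · apply Real.sin_le_sin_of_le_of_le_pi_div_two
    · nlinarith
    · nlinarith
    · nlinarith

theorem zero_Ut {δ : ℝ} (h0 : 0 < δ) (h1 : δ < 1) {x : ℝ} (hx : x ∈ Eh δ) :
    Ut δ (x : ℂ) = 0 := by
  have hk := kp_pos h0 h1
  have hc := abs_cos_le h0 h1 hx
  obtain ⟨h3, h4⟩ := abs_le.1 hc
  rw [Ut_eq]
  have hq : q δ (x : ℂ) = 1 := by
    unfold q
    have e : Complex.cos (Real.pi * (x : ℂ)) = ((Real.cos (Real.pi * x) : ℝ) : ℂ) := by
      push_cast; rfl
    rw [e, ← Complex.ofReal_sub, ← Complex.ofReal_add, Complex.norm_real, Complex.norm_real,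
      Real.norm_of_nonpos (by linarith), Real.norm_of_nonneg (by linarith),
      div_eq_one_iff_eq (by positivity)]
    ring
  rw [hq, Real.arcosh_zero, zero_div]

theorem symm_Ut (δ : ℝ) (z : ℂ) : Ut δ ((starRingEnd ℂ) z) = Ut δ z := by
  have e1 : Complex.cos (Real.pi * (starRingEnd ℂ) z) =
      (starRingEnd ℂ) (Complex.cos (Real.pi * z)) := by
    rw [← Complex.cos_conj, map_mul, Complex.conj_ofReal]
  have e2 : ∀ w : ℂ, ‖(starRingEnd ℂ) w - (kp δ : ℂ)‖ = ‖w - (kp δ : ℂ)‖ := by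
    intro w
    rw [← Complex.norm_conj (w - (kp δ : ℂ)), map_sub, Complex.conj_ofReal]
  have e3 : ∀ w : ℂ, ‖(starRingEnd ℂ) w + (kp δ : ℂ)‖ = ‖w + (kp δ : ℂ)‖ := by
    intro w
    rw [← Complex.norm_conj (w + (kp δ : ℂ)), map_add, Complex.conj_ofReal]
  unfold Ut
  rw [e1, e2, e3]

theorem Ut_I {δ : ℝ} (h0 : 0 < δ) (h1 : δ < 1) (y : ℝ) :
    Ut δ (y * I) = Real.arcosh (Real.cosh (Real.pi * y) / kp δ) / Real.pi := by
  have hk := kp_pos h0 h1
  have hk1 := kp_lt h0 h1
  rw [Ut_eq]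
  congr 2
  unfold q
  have e : Complex.cos (Real.pi * (y * I)) = ((Real.cosh (Real.pi * y) : ℝ) : ℂ) := by
    rw [← mul_assoc, Complex.cos_mul_I]; push_cast; rfl
  have h2 := Real.one_le_cosh (Real.pi * y)
  rw [e, ← Complex.ofReal_sub, ← Complex.ofReal_add, Complex.norm_real, Complex.norm_real,
    Real.norm_of_nonneg (by linarith), Real.norm_of_nonneg (by linarith)]
  field_simp
  ring

theorem arcosh_bounds {v : ℝ} (hv : 1 ≤ v) :
    Real.log v ≤ Real.arcosh v ∧ Real.arcosh v ≤ Real.log 2 + Real.log v := by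
  unfold Real.arcosh
  constructor
  · apply Real.log_le_log (by linarith)
    linarith [Real.sqrt_nonneg (v ^ 2 - 1)]
  · rw [← Real.log_mul (by norm_num) (by linarith)]
    apply Real.log_le_log
    · linarith [Real.sqrt_nonneg (v ^ 2 - 1)]
    · have : √(v ^ 2 - 1) ≤ v := by
        rw [Real.sqrt_le_left (by linarith)]
        linarith
      linarith

theorem norm_Ut {δ : ℝ} (h0 : 0 < δ) (h1 : δ < 1) :
    Tendsto (fun y : ℝ => Ut δ (y * I) / y) atTop (𝓝 1) := by
  have hk := kp_pos h0 h1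
  have hk1 := kp_lt h0 h1
  have hpi := Real.pi_pos
  have hlk : Real.log (kp δ) ≤ 0 := Real.log_nonpos hk.le hk1.le
  have hl2 : 0 < Real.log 2 := Real.log_pos (by norm_num)
  set C : ℝ := (Real.log 2 - Real.log (kp δ)) / Real.pi with hC
  have hlow : Tendsto (fun y : ℝ => 1 - C * y⁻¹) atTop (𝓝 1) := by
    have := (tendsto_inv_atTop_zero (𝕜 := ℝ)).const_mul C
    simpa using this.const_sub 1
  have hup : Tendsto (fun y : ℝ => 1 + C * y⁻¹) atTop (𝓝 1) := by
    have := (tendsto_inv_atTop_zero (𝕜 := ℝ)).const_mul C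
    simpa using this.const_add 1
  have key : ∀ y : ℝ, 0 < y → Real.pi * y - (Real.log 2 - Real.log (kp δ)) ≤
      Real.arcosh (Real.cosh (Real.pi * y) / kp δ) ∧
      Real.arcosh (Real.cosh (Real.pi * y) / kp δ) ≤
        Real.pi * y + (Real.log 2 - Real.log (kp δ)) := by
    intro y hy
    have hc := Real.one_le_cosh (Real.pi * y)
    have hv : 1 ≤ Real.cosh (Real.pi * y) / kp δ := by
      rw [le_div_iff₀ hk]; linarith
    obtain ⟨h3, h4⟩ := arcosh_bounds hv
    have h5 : Real.log (Real.cosh (Real.pi * y) / kp δ) =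
        Real.log (Real.cosh (Real.pi * y)) - Real.log (kp δ) :=
      Real.log_div (by linarith) hk.ne'
    have h6 : Real.pi * y - Real.log 2 ≤ Real.log (Real.cosh (Real.pi * y)) := by
      rw [Real.le_log_iff_exp_le (by linarith), Real.exp_sub, Real.exp_log (by norm_num),
        Real.cosh_eq]
      have := Real.exp_pos (-(Real.pi * y))
      linarith
    have h7 : Real.log (Real.cosh (Real.pi * y)) ≤ Real.pi * y := by
      rw [Real.log_le_iff_le_exp (by linarith), Real.cosh_eq]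
      have : Real.exp (-(Real.pi * y)) ≤ Real.exp (Real.pi * y) := by
        apply Real.exp_le_exp.2
        nlinarith
      linarith
    constructor
    · linarith
    · linarith
  refine tendsto_of_tendsto_of_tendsto_of_le_of_le' hlow hup ?_ ?_
  · filter_upwards [eventually_gt_atTop 0] with y hy
    rw [Ut_I h0 h1, le_div_iff₀ hy, le_div_iff₀ hpi]
    have e : (1 - C * y⁻¹) * y * Real.pi = Real.pi * y - (Real.log 2 - Real.log (kp δ)) := by
      rw [hC]; field_simp
    rw [e]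
    exact (key y hy).1
  · filter_upwards [eventually_gt_atTop 0] with y hy
    rw [Ut_I h0 h1, div_le_iff₀ hy, div_le_iff₀ hpi]
    have e : (1 + C * y⁻¹) * y * Real.pi = Real.pi * y + (Real.log 2 - Real.log (kp δ)) := by
      rw [hC]; field_simp
    rw [e]
    exact (key y hy).2

end M2

theorem T_M2 : S_M1 → S_M2 := by
  intro hM1 δ h0 h1
  exact
    { cont := M2.continuous_Ut h0 h1
      zero := fun x hx => M2.zero_Ut h0 h1 hx
      pos := fun z hz => (hM1 δ z h0 h1 hz).1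
      harm := fun z hz => (hM1 δ z h0 h1 hz).2
      symm := fun z => M2.symm_Ut δ z
      norm := M2.norm_Ut h0 h1 }

end H961Lev
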