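import Pool.Agent.H588R2.BankRam

/-!
Frames and small lemmas for verifying programs of the word RAM with arrays.
-/

namespace Pool.Agent.H588R2.Bank

/-- `s'` agrees with `s` on all registers outside the list `L`. -/
def Fx (L : List ℕ) (s s' : St) : Prop := ∀ r, r ∉ L → s'.reg r = s.reg r

theorem Fx.refl (L : List ℕ) (s : St) : Fx L s s := fun _ _ => rfl

theorem Fx.trans {L : List ℕ} {s s' s'' : St} (h : Fx L s s') (h' : Fx L s' s'') :
    Fx L s s'' := fun r hr => (h' r hr).trans (h r hr)

theorem Fx.mono {L L' : List ℕ} {s s' : St} (h : Fx L s s') (hL : ∀ r ∈ L, r ∈ L') :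
    Fx L' s s' := fun r hr => h r (fun h' => hr (hL r h'))

theorem Fx.setR {L : List ℕ} {s s' : St} (h : Fx L s s') {d : ℕ} (hd : d ∈ L) (v : ℕ) :
    Fx L s (s'.setR d v) := by
  intro r hr
  have hne : r ≠ d := by rintro rfl; exact hr hd
  rw [St.setR_reg, if_neg hne, h r hr]

theorem Fx.setM {L : List ℕ} {s s' : St} (h : Fx L s s') (b i v : ℕ) :
    Fx L s (s'.setM b i v) := fun r hr => by
  rw [St.setM_reg]; exact h r hr

/-- `s'` agrees with `s` on all arrays outside the list `L`. -/
def Fm (L : List ℕ) (s s' : St) : Prop := ∀ b, b ∉ L → s'.mem b = s.mem b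

theorem Fm.refl (L : List ℕ) (s : St) : Fm L s s := fun _ _ => rfl

theorem Fm.trans {L : List ℕ} {s s' s'' : St} (h : Fm L s s') (h' : Fm L s' s'') :
    Fm L s s'' := fun r hr => (h' r hr).trans (h r hr)

theorem Fm.mono {L L' : List ℕ} {s s' : St} (h : Fm L s s') (hL : ∀ r ∈ L, r ∈ L') :
    Fm L' s s' := fun r hr => h r (fun h' => hr (hL r h'))

theorem Fm.setR {L : List ℕ} {s s' : St} (h : Fm L s s') (d v : ℕ) :
    Fm L s (s'.setR d v) := fun b hb => h b hb

theorem setM_other (s : St) {b b' : ℕ} (i v : ℕ) (h : b' ≠ b) : (s.setM b i v).mem b' = s.mem b' := by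
  funext i'
  rw [St.setM_mem, if_neg (fun e => h e.1)]

theorem Fm.setM {L : List ℕ} {s s' : St} (h : Fm L s s') {b : ℕ} (hb : b ∈ L) (i v : ℕ) :
    Fm L s (s'.setM b i v) := by
  intro b' hb'
  have hne : b' ≠ b := by rintro rfl; exact hb' hb
  rw [setM_other _ _ _ hne, h b' hb']

theorem setR_self (s : St) (d : ℕ) : s.setR d (s.reg d) = s := by
  cases s with
  | mk r m =>
    unfold St.setR
    congr 1
    funext x
    by_cases h : x = d
    · simp [h]
    · simp [h]

open Classical in
/-- Conditional assignment of a constant. -/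
theorem Tr.condConst {w t d c s} {Q : St → Prop} (hlt : c < 2 ^ w)
    (h : Q (s.setR d (if t.Holds s then c else s.reg d))) :
    Tr w (.ite t (.op (.const d c)) .skip) s 3 Q := by
  refine Tr.le (Tr.ite (T₁ := 1) (T₂ := 0) ?_ ?_) (by norm_num)
  · intro ht
    apply Tr.const hlt
    rwa [if_pos ht] at h
  · intro ht
    apply Tr.skip
    rw [if_neg ht, setR_self] at h
    exact h

open Classical in
/-- Conditional assignment of a sum. -/
theorem Tr.condAddc {w t d a c s} {Q : St → Prop} (hlt : t.Holds s → s.reg a + c < 2 ^ w)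
    (h : Q (s.setR d (if t.Holds s then s.reg a + c else s.reg d))) :
    Tr w (.ite t (.op (.addc d a c)) .skip) s 3 Q := by
  refine Tr.le (Tr.ite (T₁ := 1) (T₂ := 0) ?_ ?_) (by norm_num)
  · intro ht
    apply Tr.addc (hlt ht)
    rwa [if_pos ht] at h
  · intro ht
    apply Tr.skip
    rw [if_neg ht, setR_self] at h
    exact h

end Pool.Agent.H588R2.Bank
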