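import Mathlib

/-!
# A word RAM with arrays

A random-access machine with words of `w` bits, registers `r_0, r_1, …` and arrays
`A_0, A_1, …`, and unit-cost operations.
-/

namespace Pool.Agent.H588R2.Bank

/-- State of the machine: registers and arrays, each entry holding a word. -/
structure St where
  reg : ℕ → ℕ
  mem : ℕ → ℕ → ℕ

/-- Elementary operations. `const d c`: `r_d := c`; `addc d a c`: `r_d := r_a + c`;
`add d a b`: `r_d := r_a + r_b`; `sub d a b`: `r_d := r_a - r_b` (zero if negative);
`mul d a b`: `r_d := r_a * r_b`; `load d b a`: `r_d := A_b[r_a]`;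
`store b a s`: `A_b[r_a] := r_s`. -/
inductive Op where
  | const (d c : ℕ)
  | addc (d a c : ℕ)
  | add (d a b : ℕ)
  | sub (d a b : ℕ)
  | mul (d a b : ℕ)
  | load (d b a : ℕ)
  | store (b a s : ℕ)

/-- Set a register. -/
def St.setR (s : St) (d v : ℕ) : St := ⟨fun x => if x = d then v else s.reg x, s.mem⟩

/-- Set an array entry. -/
def St.setM (s : St) (b i v : ℕ) : St :=
  ⟨s.reg, fun b' i' => if b' = b ∧ i' = i then v else s.mem b' i'⟩

/-- Effect of an elementary operation with words of `w` bits (arithmetic modulo `2 ^ w`). -/
def Op.exec (w : ℕ) : Op → St → St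
  | .const d c, s => s.setR d (c % 2 ^ w)
  | .addc d a c, s => s.setR d ((s.reg a + c) % 2 ^ w)
  | .add d a b, s => s.setR d ((s.reg a + s.reg b) % 2 ^ w)
  | .sub d a b, s => s.setR d ((s.reg a - s.reg b) % 2 ^ w)
  | .mul d a b, s => s.setR d ((s.reg a * s.reg b) % 2 ^ w)
  | .load d b a, s => s.setR d (s.mem b (s.reg a) % 2 ^ w)
  | .store b a r, s => s.setM b (s.reg a) (s.reg r)

/-- Tests: `lt a b` is `r_a < r_b`, `eq a b` is `r_a = r_b`. -/
inductive Test where
  | lt (a b : ℕ)
  | eq (a b : ℕ)

/-- The test holds in the state `s`. -/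
def Test.Holds : Test → St → Prop
  | .lt a b, s => s.reg a < s.reg b
  | .eq a b, s => s.reg a = s.reg b

instance (t : Test) (s : St) : Decidable (t.Holds s) := by
  cases t <;> (unfold Test.Holds; infer_instance)

/-- Instructions: an elementary operation, an unconditional jump, a conditional jump, or halt. -/
inductive Instr where
  | op (o : Op)
  | jmp (l : ℕ)
  | jif (t : Test) (l : ℕ)
  | halt

/-- A configuration: program counter and state. -/
structure Config where
  pc : ℕ
  st : St

/-- One step of the machine with word length `w` running the program `P`.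
A halted machine does not move. -/
def step (w : ℕ) (P : List Instr) (c : Config) : Config :=
  match P[c.pc]? with
  | some (.op o) => ⟨c.pc + 1, o.exec w c.st⟩
  | some (.jmp l) => ⟨l, c.st⟩
  | some (.jif t l) => if t.Holds c.st then ⟨l, c.st⟩ else ⟨c.pc + 1, c.st⟩
  | some .halt => c
  | none => c

/-- The machine has halted: it is at a `halt` instruction or outside the program. -/
def Halted (P : List Instr) (c : Config) : Prop :=
  P[c.pc]? = some Instr.halt ∨ P[c.pc]? = none

/-- The configuration after `t` steps, started at the first instruction in the state `s`. -/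
def run (w : ℕ) (P : List Instr) (s : St) (t : ℕ) : Config := (step w P)^[t] ⟨0, s⟩

/-- Started in the state `s` with word length `w`, the program `P` halts after at most
`T` steps with output `out` in register `0`. -/
def HaltsWithin (w : ℕ) (P : List Instr) (s : St) (T : ℝ) (out : ℕ) : Prop :=
  ∃ t : ℕ, (t : ℝ) ≤ T ∧ Halted P (run w P s t) ∧ (run w P s t).st.reg 0 = out

end Pool.Agent.H588R2.Bank
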