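import Pool.Agent.H588R2.BankModel

/-!
A small structured language compiled to the word RAM with arrays, and rules for partial
correctness with running time.
-/

namespace Pool.Agent.H588R2.Bank

/-- Structured commands. -/
inductive Cmd where
  | skip
  | op (o : Op)
  | seq (c₁ c₂ : Cmd)
  | ite (t : Test) (c₁ c₂ : Cmd)
  | loop (t : Test) (c : Cmd)

/-- Number of instructions of the compiled command. -/
def Cmd.size : Cmd → ℕ
  | .skip => 0
  | .op _ => 1
  | .seq c₁ c₂ => c₁.size + c₂.size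
  | .ite _ c₁ c₂ => c₁.size + c₂.size + 2
  | .loop _ c => c.size + 3

/-- Compilation of a command placed at address `o`. -/
def Cmd.compile : Cmd → ℕ → List Instr
  | .skip, _ => []
  | .op i, _ => [.op i]
  | .seq c₁ c₂, o => c₁.compile o ++ c₂.compile (o + c₁.size)
  | .ite t c₁ c₂, o =>
      [.jif t (o + 2 + c₂.size)] ++ c₂.compile (o + 1) ++
        [.jmp (o + 2 + c₂.size + c₁.size)] ++ c₁.compile (o + 2 + c₂.size)
  | .loop t c, o =>
      [.jif t (o + 2), .jmp (o + 3 + c.size)] ++ c.compile (o + 2) ++ [.jmp o]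

theorem Cmd.length_compile (c : Cmd) : ∀ o, (c.compile o).length = c.size := by
  induction c with
  | skip => intro o; rfl
  | op i => intro o; rfl
  | seq c₁ c₂ h₁ h₂ => intro o; simp [Cmd.compile, Cmd.size, h₁, h₂]
  | ite t c₁ c₂ h₁ h₂ => intro o; simp [Cmd.compile, Cmd.size, h₁, h₂]; omega
  | loop t c h => intro o; simp [Cmd.compile, Cmd.size, h]

/-- Big-step execution with running time. -/
inductive Exec (w : ℕ) : Cmd → St → St → ℕ → Prop
  | skip (s) : Exec w .skip s s 0
  | op (o s) : Exec w (.op o) s (o.exec w s) 1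
  | seq {c₁ c₂ s s' s'' t t'} : Exec w c₁ s s' t → Exec w c₂ s' s'' t' →
      Exec w (.seq c₁ c₂) s s'' (t + t')
  | iteTrue {b c₁ c₂ s s' t} : b.Holds s → Exec w c₁ s s' t →
      Exec w (.ite b c₁ c₂) s s' (1 + t)
  | iteFalse {b c₁ c₂ s s' t} : ¬ b.Holds s → Exec w c₂ s s' t →
      Exec w (.ite b c₁ c₂) s s' (1 + (t + 1))
  | loopTrue {b c s s' s'' t t'} : b.Holds s → Exec w c s s' t →
      Exec w (.loop b c) s' s'' t' → Exec w (.loop b c) s s'' (1 + (t + (1 + t')))
  | loopFalse {b c s} : ¬ b.Holds s → Exec w (.loop b c) s s 2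

theorem step_iter_add (w : ℕ) (P : List Instr) (t t' : ℕ) (c c' c'' : Config)
    (h : (step w P)^[t] c = c') (h' : (step w P)^[t'] c' = c'') :
    (step w P)^[t + t'] c = c'' := by
  rw [Nat.add_comm, Function.iterate_add_apply, h, h']

/-- The block `B` sits in the program `P` at address `o`. -/
def At (P : List Instr) (o : ℕ) (B : List Instr) : Prop :=
  ∀ i, i < B.length → P[o + i]? = B[i]?

theorem At.left {P o B C} (h : At P o (B ++ C)) : At P o B := by
  intro i hi
  rw [h i (by simp; omega), List.getElem?_append_left hi]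

theorem At.right {P o B C} (h : At P o (B ++ C)) : At P (o + B.length) C := by
  intro i hi
  have := h (B.length + i) (by simp; omega)
  rw [← Nat.add_assoc] at this
  rw [this, List.getElem?_append_right (by omega)]
  congr 1; omega

theorem At.head {P o I B} (h : At P o (I :: B)) : P[o]? = some I := by
  have := h 0 (by simp)
  simpa using this

theorem At.self (P : List Instr) : At P 0 P := by
  intro i _; simp

theorem compile_correct (w : ℕ) (P : List Instr) {c : Cmd} {s s' : St} {t : ℕ}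
    (h : Exec w c s s' t) : ∀ o, At P o (c.compile o) →
      (step w P)^[t] ⟨o, s⟩ = ⟨o + c.size, s'⟩ := by
  induction h with
  | skip s => intro o _; rfl
  | op i s =>
    intro o h
    have := h.head
    simp [step, this, Cmd.size]
  | @seq c₁ c₂ s s' s'' t t' _ _ ih₁ ih₂ =>
    intro o h
    have h1 := h.left
    have h2 := h.right
    rw [Cmd.length_compile] at h2
    have e1 := ih₁ o h1
    have e2 := ih₂ _ h2
    have := step_iter_add w P _ _ _ _ _ e1 e2
    rw [this]; simp [Cmd.size, Nat.add_assoc]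
  | @iteTrue b c₁ c₂ s s' t hlt _ ih =>
    intro o h
    have h0 : P[o]? = some (.jif b (o + 2 + c₂.size)) := by
      have := h.left.left.left.head
      exact this
    have h2 : At P (o + 2 + c₂.size) (c₁.compile (o + 2 + c₂.size)) := by
      have := h.right
      simp only [List.length_append, Cmd.length_compile, List.length_cons, List.length_nil] at this
      convert this using 1
      omega
    have e1 : (step w P)^[1] ⟨o, s⟩ = ⟨o + 2 + c₂.size, s⟩ := by
      simp [step, h0, hlt]
    have := step_iter_add w P _ _ _ _ _ e1 (ih _ h2)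
    rw [this]; simp only [Cmd.size]; congr 1; omega
  | @iteFalse b c₁ c₂ s s' t hlt _ ih =>
    intro o h
    have h0 : P[o]? = some (.jif b (o + 2 + c₂.size)) := by
      have := h.left.left.left.head
      exact this
    have h1 : At P (o + 1) (c₂.compile (o + 1)) := by
      have := h.left.left.right
      simpa using this
    have h2 : P[o + 1 + c₂.size]? = some (.jmp (o + 2 + c₂.size + c₁.size)) := by
      have := h.left.right
      simp only [List.length_append, Cmd.length_compile, List.length_cons, List.length_nil] at this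
      have := this.head
      rw [← this]; congr 1; omega
    have e1 : (step w P)^[1] ⟨o, s⟩ = ⟨o + 1, s⟩ := by
      simp [step, h0, hlt]
    have e3 : (step w P)^[1] ⟨o + 1 + c₂.size, s'⟩ = ⟨o + 2 + c₂.size + c₁.size, s'⟩ := by
      simp [step, h2]
    have := step_iter_add w P _ _ _ _ _ e1 (step_iter_add w P _ _ _ _ _ (ih _ h1) e3)
    rw [this]; simp only [Cmd.size]; congr 1; omega
  | @loopTrue b c s s' s'' t t' hlt _ _ ih₁ ih₂ =>
    intro o h
    have h0 : P[o]? = some (.jif b (o + 2)) := by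
      have := h.left.left.head
      exact this
    have h1 : At P (o + 2) (c.compile (o + 2)) := by
      have := h.left.right
      simpa using this
    have h2 : P[o + 2 + c.size]? = some (.jmp o) := by
      have := h.right
      simp only [List.length_append, Cmd.length_compile, List.length_cons, List.length_nil] at this
      have := this.head
      rw [← this]; congr 1; omega
    have e1 : (step w P)^[1] ⟨o, s⟩ = ⟨o + 2, s⟩ := by
      simp [step, h0, hlt]
    have e3 : (step w P)^[1] ⟨o + 2 + c.size, s'⟩ = ⟨o, s'⟩ := by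
      simp [step, h2]
    exact step_iter_add w P _ _ _ _ _ e1 (step_iter_add w P _ _ _ _ _ (ih₁ _ h1)
      (step_iter_add w P _ _ _ _ _ e3 (ih₂ _ h)))
  | @loopFalse b c s hlt =>
    intro o h
    have h0 : P[o]? = some (.jif b (o + 2)) := by
      have := h.left.left.head
      exact this
    have h1 : P[o + 1]? = some (.jmp (o + 3 + c.size)) := by
      have h' := h 1 (by simp [Cmd.compile])
      rw [h']; simp [Cmd.compile]
    have e1 : (step w P)^[1] ⟨o, s⟩ = ⟨o + 1, s⟩ := by
      simp [step, h0, hlt]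
    have e2 : (step w P)^[1] ⟨o + 1, s⟩ = ⟨o + 3 + c.size, s⟩ := by
      simp [step, h1]
    have := step_iter_add w P _ _ _ _ _ e1 e2
    rw [this]; simp only [Cmd.size]; congr 1; omega

/-- `Tr w c s T Q`: the command `c` terminates from `s` within time `T` in a state
satisfying `Q`. -/
def Tr (w : ℕ) (c : Cmd) (s : St) (T : ℕ) (Q : St → Prop) : Prop :=
  ∃ s' t, Exec w c s s' t ∧ t ≤ T ∧ Q s'

theorem Tr.le {w c s} {T T' : ℕ} {Q : St → Prop} (h : Tr w c s T Q) (hT : T ≤ T') :
    Tr w c s T' Q := by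
  obtain ⟨s', t, he, ht, hq⟩ := h
  exact ⟨s', t, he, ht.trans hT, hq⟩

theorem Tr.mono {w c s} {T : ℕ} {Q Q' : St → Prop} (h : Tr w c s T Q)
    (hQ : ∀ s', Q s' → Q' s') : Tr w c s T Q' := by
  obtain ⟨s', t, he, ht, hq⟩ := h
  exact ⟨s', t, he, ht, hQ _ hq⟩

theorem Tr.skip {w s} {Q : St → Prop} (h : Q s) : Tr w .skip s 0 Q :=
  ⟨s, 0, .skip s, le_rfl, h⟩

theorem Tr.seq {w c₁ c₂ s} {T₁ T₂ : ℕ} {Q : St → Prop}
    (h : Tr w c₁ s T₁ (fun s' => Tr w c₂ s' T₂ Q)) : Tr w (.seq c₁ c₂) s (T₁ + T₂) Q := by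
  obtain ⟨s', t, he, ht, s'', t', he', ht', hq⟩ := h
  exact ⟨s'', t + t', .seq he he', by omega, hq⟩

theorem Tr.ite {w b c₁ c₂ s} {T₁ T₂ : ℕ} {Q : St → Prop}
    (h1 : b.Holds s → Tr w c₁ s T₁ Q) (h2 : ¬ b.Holds s → Tr w c₂ s T₂ Q) :
    Tr w (.ite b c₁ c₂) s (T₁ + T₂ + 2) Q := by
  by_cases hlt : b.Holds s
  · obtain ⟨s', t, he, ht, hq⟩ := h1 hlt
    exact ⟨s', _, .iteTrue hlt he, by omega, hq⟩
  · obtain ⟨s', t, he, ht, hq⟩ := h2 hlt
    exact ⟨s', _, .iteFalse hlt he, by omega, hq⟩

/-- Loop rule: `I q s` holds after `q` iterations. -/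
theorem Tr.loop {w b c} (N T : ℕ) (I : ℕ → St → Prop)
    (hstep : ∀ q s, q < N → I q s → b.Holds s ∧ Tr w c s T (I (q + 1)))
    (hend : ∀ s, I N s → ¬ b.Holds s)
    {s : St} (h0 : I 0 s) : Tr w (.loop b c) s (N * (T + 2) + 2) (I N) := by
  have key : ∀ m q s, q + m = N → I q s →
      ∃ s' t, Exec w (.loop b c) s s' t ∧ t ≤ m * (T + 2) + 2 ∧ I N s' := by
    intro m
    induction m with
    | zero =>
      intro q s hq hI
      have : q = N := by omega
      subst this
      exact ⟨s, 2, .loopFalse (hend _ hI), by omega, hI⟩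
    | succ m ih =>
      intro q s hq hI
      obtain ⟨hlt, s', t, he, ht, hI'⟩ := hstep q s (by omega) hI
      obtain ⟨s'', t', he', ht', hI''⟩ := ih (q + 1) s' (by omega) hI'
      refine ⟨s'', _, .loopTrue hlt he he', ?_, hI''⟩
      rw [Nat.succ_mul]; omega
  exact key N 0 s (by omega) h0

theorem St.setR_reg (s : St) (d v x : ℕ) : (s.setR d v).reg x = if x = d then v else s.reg x :=
  rfl

theorem St.setR_mem (s : St) (d v : ℕ) : (s.setR d v).mem = s.mem := rfl

theorem St.setM_reg (s : St) (b i v : ℕ) : (s.setM b i v).reg = s.reg := rfl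

theorem St.setM_mem (s : St) (b i v b' i' : ℕ) :
    (s.setM b i v).mem b' i' = if b' = b ∧ i' = i then v else s.mem b' i' := rfl

theorem Tr.const {w d c s} {Q : St → Prop} (hlt : c < 2 ^ w) (h : Q (s.setR d c)) :
    Tr w (.op (.const d c)) s 1 Q :=
  ⟨_, 1, .op _ s, le_rfl, by simpa [Op.exec, Nat.mod_eq_of_lt hlt] using h⟩

theorem Tr.addc {w d a c s} {Q : St → Prop} (hlt : s.reg a + c < 2 ^ w)
    (h : Q (s.setR d (s.reg a + c))) : Tr w (.op (.addc d a c)) s 1 Q :=
  ⟨_, 1, .op _ s, le_rfl, by simpa [Op.exec, Nat.mod_eq_of_lt hlt] using h⟩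

theorem Tr.add {w d a b s} {Q : St → Prop} (hlt : s.reg a + s.reg b < 2 ^ w)
    (h : Q (s.setR d (s.reg a + s.reg b))) : Tr w (.op (.add d a b)) s 1 Q :=
  ⟨_, 1, .op _ s, le_rfl, by simpa [Op.exec, Nat.mod_eq_of_lt hlt] using h⟩

theorem Tr.sub {w d a b s} {Q : St → Prop} (hlt : s.reg a - s.reg b < 2 ^ w)
    (h : Q (s.setR d (s.reg a - s.reg b))) : Tr w (.op (.sub d a b)) s 1 Q :=
  ⟨_, 1, .op _ s, le_rfl, by simpa [Op.exec, Nat.mod_eq_of_lt hlt] using h⟩

theorem Tr.mul {w d a b s} {Q : St → Prop} (hlt : s.reg a * s.reg b < 2 ^ w)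
    (h : Q (s.setR d (s.reg a * s.reg b))) : Tr w (.op (.mul d a b)) s 1 Q :=
  ⟨_, 1, .op _ s, le_rfl, by simpa [Op.exec, Nat.mod_eq_of_lt hlt] using h⟩

theorem Tr.load {w d b a s} {Q : St → Prop} (hlt : s.mem b (s.reg a) < 2 ^ w)
    (h : Q (s.setR d (s.mem b (s.reg a)))) : Tr w (.op (.load d b a)) s 1 Q :=
  ⟨_, 1, .op _ s, le_rfl, by simpa [Op.exec, Nat.mod_eq_of_lt hlt] using h⟩

theorem Tr.store {w b a r s} {Q : St → Prop} (h : Q (s.setM b (s.reg a) (s.reg r))) :
    Tr w (.op (.store b a r)) s 1 Q :=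
  ⟨_, 1, .op _ s, le_rfl, h⟩

/-- Counting loop: `r_i := 0; while r_i < r_n do (body; r_i := r_i + 1)`. -/
def forC (i n : ℕ) (body : Cmd) : Cmd :=
  .seq (.op (.const i 0)) (.loop (.lt i n) (.seq body (.op (.addc i i 1))))

/-- Rule for counting loops. -/
theorem Tr.forC {w i n body} (N T : ℕ) (I : ℕ → St → Prop) (hN : N < 2 ^ w)
    (hreg : ∀ q s, I q s → s.reg i = q ∧ s.reg n = N)
    (hbody : ∀ q s, q < N → I q s →
      Tr w body s T (fun s' => s'.reg i = q ∧ I (q + 1) (s'.setR i (q + 1))))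
    {s : St} (h0 : I 0 (s.setR i 0)) :
    Tr w (forC i n body) s (N * (T + 3) + 3) (I N) := by
  have h1 : 0 < 2 ^ w := by positivity
  have key : Tr w (.seq (.op (.const i 0)) (.loop (.lt i n) (.seq body (.op (.addc i i 1)))))
      s (1 + (N * ((T + 1) + 2) + 2)) (I N) := by
    apply Tr.seq
    apply Tr.const h1
    apply Tr.loop N (T + 1) I
    · intro q s hq hI
      have hr := hreg q s hI
      refine ⟨?_, ?_⟩
      · show s.reg i < s.reg n
        rw [hr.1, hr.2]; exact hq
      · apply Tr.seq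
        refine (hbody q s hq hI).mono ?_
        intro s' hs'
        apply Tr.addc
        · rw [hs'.1]; omega
        · rw [hs'.1]; exact hs'.2
    · intro s hI
      have hr := hreg N s hI
      show ¬ s.reg i < s.reg n
      rw [hr.1, hr.2]; omega
    · exact h0
  refine key.le ?_
  ring_nf
  omega

/-- Sequence of commands. -/
def seqs : List Cmd → Cmd
  | [] => .skip
  | c :: l => .seq c (seqs l)

end Pool.Agent.H588R2.Bank
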