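import Pool.Agent.H588R2.BankRam

/-!
Running a given program as a subroutine, on its own registers and arrays.
-/

namespace Pool.Agent.H588R2.Bank

/-- Relocated operation: registers shifted by `r0`, arrays shifted by `b0`. -/
def relOp (r0 b0 : ℕ) : Op → Op
  | .const d c => .const (d + r0) c
  | .addc d a c => .addc (d + r0) (a + r0) c
  | .add d a b => .add (d + r0) (a + r0) (b + r0)
  | .sub d a b => .sub (d + r0) (a + r0) (b + r0)
  | .mul d a b => .mul (d + r0) (a + r0) (b + r0)
  | .load d b a => .load (d + r0) (b + b0) (a + r0)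
  | .store b a s => .store (b + b0) (a + r0) (s + r0)

def relTest (r0 : ℕ) : Test → Test
  | .lt a b => .lt (a + r0) (b + r0)
  | .eq a b => .eq (a + r0) (b + r0)

/-- Relocated instruction: the program starts at `o` and has length `len`. -/
def relInstr (r0 b0 o len : ℕ) : Instr → Instr
  | .op i => .op (relOp r0 b0 i)
  | .jmp l => .jmp (o + min l len)
  | .jif t l => .jif (relTest r0 t) (o + min l len)
  | .halt => .jmp (o + len)

def reloc (r0 b0 o : ℕ) (P : List Instr) : List Instr :=
  P.map (relInstr r0 b0 o P.length)

/-- State of the calling program `s` and of the subroutine `p`, combined. -/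
def comb (r0 b0 : ℕ) (s p : St) : St :=
  ⟨fun r => if r < r0 then s.reg r else p.reg (r - r0),
   fun b => if b < b0 then s.mem b else p.mem (b - b0)⟩

def embC (r0 b0 o len : ℕ) (s : St) (c : Config) : Config :=
  ⟨o + min c.pc len, comb r0 b0 s c.st⟩

theorem comb_setR (r0 b0 : ℕ) (s p : St) (d v : ℕ) :
    (comb r0 b0 s p).setR (d + r0) v = comb r0 b0 s (p.setR d v) := by
  unfold comb St.setR
  congr 1
  funext r
  by_cases h : r < r0
  · simp [h]; omega
  · simp only [h, if_false]
    by_cases h2 : r = d + r0
    · subst h2; simp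
    · rw [if_neg h2, if_neg (by omega)]

theorem comb_setM (r0 b0 : ℕ) (s p : St) (b i v : ℕ) :
    (comb r0 b0 s p).setM (b + b0) i v = comb r0 b0 s (p.setM b i v) := by
  unfold comb St.setM
  congr 1
  funext b' i'
  by_cases h : b' < b0
  · simp only [h, if_true]
    rw [if_neg (by omega)]
  · simp only [h, if_false]
    by_cases h2 : b' = b + b0 ∧ i' = i
    · obtain ⟨h2, h3⟩ := h2
      subst h2; subst h3; simp
    · rw [if_neg h2, if_neg]
      rintro ⟨h3, h4⟩
      exact h2 ⟨by omega, h4⟩

theorem comb_reg (r0 b0 : ℕ) (s p : St) (r : ℕ) : (comb r0 b0 s p).reg (r + r0) = p.reg r := by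
  simp [comb]

theorem comb_mem (r0 b0 : ℕ) (s p : St) (b : ℕ) : (comb r0 b0 s p).mem (b + b0) = p.mem b := by
  simp [comb]

theorem relOp_exec (w r0 b0 : ℕ) (s p : St) (i : Op) :
    (relOp r0 b0 i).exec w (comb r0 b0 s p) = comb r0 b0 s (i.exec w p) := by
  cases i <;>
    simp only [relOp, Op.exec, comb_reg, comb_mem, comb_setR, comb_setM]

theorem relTest_holds (r0 b0 : ℕ) (s p : St) (t : Test) :
    (relTest r0 t).Holds (comb r0 b0 s p) ↔ t.Holds p := by
  cases t <;> simp only [relTest, Test.Holds, comb_reg]

theorem sim_step {w r0 b0 o : ℕ} {P Q : List Instr} (hQ : At Q o (reloc r0 b0 o P)) (s : St)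
    (c : Config) (hc : ¬ Halted P c) :
    step w Q (embC r0 b0 o P.length s c) = embC r0 b0 o P.length s (step w P c) := by
  unfold Halted at hc
  push Not at hc
  obtain ⟨h1, h2⟩ := hc
  have hlt : c.pc < P.length := by
    by_contra hcon
    exact h2 (List.getElem?_eq_none (by omega))
  have hP : P[c.pc]? = some P[c.pc] := List.getElem?_eq_getElem hlt
  have hq : Q[o + c.pc]? = some (relInstr r0 b0 o P.length P[c.pc]) := by
    rw [hQ c.pc (by simp [reloc, hlt])]
    simp [reloc, hP]
  have hmin : min c.pc P.length = c.pc := by omega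
  unfold step embC
  simp only [hmin, hq, hP]
  cases hI : P[c.pc] with
  | op i =>
    simp only [relInstr, relOp_exec]
    congr 1
    omega
  | jmp l => simp only [relInstr]
  | jif t l =>
    simp only [relInstr, relTest_holds]
    by_cases ht : t.Holds c.st
    · simp [ht]
    · simp only [ht, if_false]
      congr 1; omega
  | halt => rw [hP, hI] at h1; exact absurd rfl h1

theorem sim_run {w r0 b0 o : ℕ} {P Q : List Instr} (hQ : At Q o (reloc r0 b0 o P)) (s : St) :
    ∀ (t : ℕ) (c : Config), Halted P ((step w P)^[t] c) →
      ∃ t' ≤ t + 1, (step w Q)^[t'] (embC r0 b0 o P.length s c)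
        = ⟨o + P.length, comb r0 b0 s ((step w P)^[t] c).st⟩ := by
  have halted_case : ∀ c : Config, Halted P c →
      ∃ t' ≤ 1, (step w Q)^[t'] (embC r0 b0 o P.length s c)
        = ⟨o + P.length, comb r0 b0 s c.st⟩ := by
    intro c hc
    rcases hc with hc | hc
    · have hlt : c.pc < P.length := by
        by_contra hcon
        rw [List.getElem?_eq_none (by omega)] at hc
        exact absurd hc (by simp)
      have hq : Q[o + c.pc]? = some (Instr.jmp (o + P.length)) := by
        rw [hQ c.pc (by simp [reloc, hlt])]
        simp only [reloc, List.getElem?_map, hc]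
        rfl
      refine ⟨1, le_rfl, ?_⟩
      have hmin : min c.pc P.length = c.pc := by omega
      simp [step, embC, hmin, hq]
    · have hge : P.length ≤ c.pc := by
        by_contra hcon
        rw [List.getElem?_eq_getElem (by omega)] at hc
        exact absurd hc (by simp)
      refine ⟨0, by omega, ?_⟩
      have hmin : min c.pc P.length = P.length := by omega
      simp [embC, hmin]
  have stay : ∀ c : Config, Halted P c → step w P c = c := by
    intro c hc
    rcases hc with hc | hc <;> simp [step, hc]
  intro t
  induction t with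
  | zero =>
    intro c hc
    obtain ⟨t', ht', h⟩ := halted_case c hc
    exact ⟨t', by omega, h⟩
  | succ t ih =>
    intro c hc
    by_cases hh : Halted P c
    · obtain ⟨t', ht', h⟩ := halted_case c hh
      refine ⟨t', by omega, ?_⟩
      rw [h]
      have : (step w P)^[t + 1] c = c := by
        have h2 : ∀ n, (step w P)^[n] c = c := by
          intro n
          induction n with
          | zero => rfl
          | succ n ihn => rw [Function.iterate_succ_apply, stay c hh, ihn]
        exact h2 _
      rw [this]
    · rw [Function.iterate_succ_apply] at hc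
      obtain ⟨t', ht', h⟩ := ih (step w P c) hc
      refine ⟨t' + 1, by omega, ?_⟩
      rw [Function.iterate_succ_apply, sim_step hQ s c hh, h, Function.iterate_succ_apply]

end Pool.Agent.H588R2.Bank
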