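import Pool.Agent.H588R2.BicMath

/-!
The complete program for One-Sided k-Biclique.
-/

namespace Pool.Agent.H588R2.Bic

open Pool.Agent.H588R2

theorem runs_main {w a b k Ck Dk K : ℕ} {E : ℕ → ℕ → Bool}
    (hM : 5 * (Ck + 1) * (a + b + 1) ^ (k + 6) ≤ 2 ^ w) (s : St)
    (h0 : s.reg 0 = a) (h1 : s.reg 1 = b)
    (hmem : ∀ l < a, ∀ r < b, s.mem (l * b + r) = if E l r = true then 1 else 0)
    (hDk : ∀ A, (a + b) ^ 6 ≤ cgE b E A ^ (k + 6) → Dk ≤ cgE b E A ^ k)
    (hK : 5 * k + 40 ≤ K) :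
    Runs w (mainCode k Ck) s (fun s' t => ∃ e t',
      F a k ((a + b) ^ 6) (Ck * (a + b) ^ k) (cgE b E) k [] 0 0 = e ∧
      s'.reg 0 = (if Ck * (a + b) ^ k < e then 1 else 0) ∧
      t ≤ t' + (k + 20) ∧ t' * Dk ≤ K * (a + b + 1) ^ 2 * (Dk + e)) := by
  set n := a + b with hn
  have hX : ∀ j ≤ k + 6, (n + 1) ^ j ≤ (n + 1) ^ (k + 6) := fun j hj =>
    Nat.pow_le_pow_right (by omega) hj
  have hn1 : ∀ j, n ^ j ≤ (n + 1) ^ j := fun j => Nat.pow_le_pow_left (by omega) _
  have hbn : ∀ j, (b + 1) ^ j ≤ (n + 1) ^ j := fun j => Nat.pow_le_pow_left (by omega) _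
  have hY : 1 ≤ (n + 1) ^ (k + 6) := Nat.one_le_pow _ _ (by omega)
  have hW : (5 * Ck) * (n + 1) ^ (k + 6) + 5 * (n + 1) ^ (k + 6) ≤ 2 ^ w := by
    calc _ = 5 * (Ck + 1) * (n + 1) ^ (k + 6) := by ring
      _ ≤ 2 ^ w := hM
  have hW' : 5 * (Ck * (n + 1) ^ (k + 6)) + 5 * (n + 1) ^ (k + 6) ≤ 2 ^ w := by
    rw [← mul_assoc]; exact hW
  have hCk : Ck ≤ Ck * (n + 1) ^ (k + 6) := Nat.le_mul_of_pos_right _ (by omega)
  have hCn : ∀ j ≤ k, Ck * n ^ j ≤ Ck * (n + 1) ^ (k + 6) := fun j hj =>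
    Nat.mul_le_mul_left _ ((hn1 j).trans (hX j (by omega)))
  have hn' : n + 1 ≤ (n + 1) ^ (k + 6) := by
    calc n + 1 = (n + 1) ^ 1 := (pow_one _).symm
      _ ≤ _ := hX 1 (by omega)
  unfold mainCode
  apply Runs.seq
  apply Runs.const (by omega)
  apply Runs.seq
  apply Runs.add
  · rw [St.set_reg_ne _ _ (by norm_num), St.set_reg_ne _ _ (by norm_num), h0, h1]; omega
  rw [St.set_reg_ne _ _ (by norm_num), St.set_reg_ne _ _ (by norm_num), h0, h1, ← hn]
  apply Runs.seq
  apply Runs.const (by omega)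
  apply Runs.seq
  have e43 : (((s.set 2 1).set 3 n).set 4 1).reg 3 = n := by
    rw [St.set_reg_ne _ _ (by norm_num), St.set_reg_self]
  apply runs_mulRep (by norm_num)
  · intro j hj
    rw [St.set_reg_self, e43, one_mul]
    have := (hn1 j).trans (hX j (by omega))
    omega
  rw [St.set_reg_self, e43, one_mul]
  apply Runs.seq
  apply Runs.const (by omega)
  apply Runs.seq
  set s5 := ((((s.set 2 1).set 3 n).set 4 1).set 4 (n ^ 6)).set 5 Ck with hs5
  have e53 : s5.reg 3 = n := by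
    rw [hs5, St.set_reg_ne _ _ (by norm_num), St.set_reg_ne _ _ (by norm_num), e43]
  have e55 : s5.reg 5 = Ck := by rw [hs5, St.set_reg_self]
  apply runs_mulRep (by norm_num)
  · intro j hj
    rw [e55, e53]
    have := hCn j hj
    omega
  rw [e55, e53]
  apply Runs.seq
  apply Runs.add
  · rw [St.set_reg_self, St.set_reg_ne _ _ (by norm_num)]
    have : s5.reg 2 = 1 := by simp [hs5, St.set, Function.update]
    rw [this]
    have := hCn k le_rfl
    omega
  have e62 : (s5.set 5 (Ck * n ^ k)).reg 2 = 1 := by simp [hs5, St.set, Function.update]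
  rw [St.set_reg_self, e62]
  apply Runs.seq
  apply Runs.const (by omega)
  apply Runs.seq
  set s8 := ((s5.set 5 (Ck * n ^ k)).set 6 (Ck * n ^ k + 1)).set 7 0 with hs8
  have hE : Env w a b k (n ^ 6) (Ck * n ^ k) E s8 := by
    constructor
    · simp [hs8, hs5, St.set, Function.update, h0]
    · simp [hs8, hs5, St.set, Function.update, h1]
    · simp [hs8, hs5, St.set, Function.update]
    · simp [hs8, hs5, St.set, Function.update]
    · simp [hs8, hs5, St.set, Function.update]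
    · simp [hs8, hs5, St.set, Function.update]
    · intro l hl r hr
      simp only [hs8, hs5, St.set_mem]
      exact hmem l hl r hr
  have hab : a * b < 2 ^ w := by
    have h1 : a * b ≤ (n + 1) ^ 2 := by
      rw [pow_two]; exact Nat.mul_le_mul (by omega) (by omega)
    have := hX 2 (by omega)
    omega
  have hpow : (b + 1) ^ (k + 6) < 2 ^ w := by
    have := hbn (k + 6)
    omega
  have hbd : 2 * (Ck * n ^ k + 1) + (b + 1) ^ k < 2 ^ w := by
    have h1 := hCn k le_rfl
    have h2 := (hbn k).trans (hX k (by omega))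
    omega
  apply runs_lvl (E := E) (Dk := Dk) (K := K) hab (by omega) (by omega) hpow hbd hDk hK k 0 s8 0 0
    (by omega) hE (by intro i hi; omega) (by simp) (by simp [hs8])
  intro s9 t9 e hS hc hF ht
  simp only [preOf, Nat.zero_add] at hF hc
  have hE9 := hE.same (hS.mono (Md_sub_Fr 0))
  apply Runs.seq
  apply Runs.const (by omega)
  have e5 : (s9.set 0 0).reg 5 = Ck * n ^ k := by
    rw [St.set_reg_ne _ _ (by norm_num), hE9.hBd]
  have e7 : (s9.set 0 0).reg 7 = e := by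
    rw [St.set_reg_ne _ _ (by norm_num), hc]
  apply Runs.ite
  · intro hlt
    rw [e5, e7] at hlt
    apply Runs.const (by omega)
    refine ⟨e, t9, hF, ?_, by omega, ht⟩
    rw [St.set_reg_self, if_pos hlt]
  · intro hlt
    rw [e5, e7] at hlt
    apply Runs.skip
    refine ⟨e, t9, hF, ?_, by omega, ht⟩
    rw [St.set_reg_self, if_neg hlt]

end Pool.Agent.H588R2.Bic
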