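import Pool.Agent.H588R2.BicProg

/-!
Analysis of the pruned search: correctness and the counting bound.
-/

namespace Pool.Agent.H588R2.Bic

open Pool.Agent.H588R2 Finset

/-- Number of common neighbours of a set of left vertices. -/
def cgS (b : ℕ) (E : ℕ → ℕ → Bool) (S : Finset ℕ) : ℕ :=
  ((range b).filter (fun r => ∀ l ∈ S, E l r = true)).card

theorem cgE_eq (b : ℕ) (E : ℕ → ℕ → Bool) (A : List ℕ) : cgE b E A = cgS b E A.toFinset := by
  simp [cgE, cgS]

theorem cgS_anti (b : ℕ) (E : ℕ → ℕ → Bool) {S T : Finset ℕ} (h : S ⊆ T) :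
    cgS b E T ≤ cgS b E S := by
  unfold cgS
  apply card_le_card
  intro r
  simp only [mem_filter]
  rintro ⟨h1, h2⟩
  exact ⟨h1, fun l hl => h2 l (h hl)⟩

theorem loopF_gt {g : ℕ → ℕ → ℕ} {lo bd : ℕ} (hg : ∀ l c, bd < c → bd < g l c) (q0 c : ℕ)
    (h : bd < g (lo + q0) (loopF g lo q0 c)) : ∀ q, q0 < q → bd < loopF g lo q c := by
  intro q hq
  induction q with
  | zero => omega
  | succ q ih =>
    simp only [loopF]
    by_cases hqq : q0 = q
    · subst hqq; exact h
    · exact hg _ _ (ih (by omega))

theorem F_complete {a k n6 bd b : ℕ} {E : ℕ → ℕ → Bool} : ∀ (m : ℕ) (pre : List ℕ) (lo c : ℕ)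
    (S : Finset ℕ), S ⊆ Ico lo a → S.card = m + 1 →
    n6 ≤ cgS b E (S ∪ pre.toFinset) ^ (k + 6) →
    bd < F a k n6 bd (cgE b E) (m + 1) pre lo c := by
  intro m
  induction m with
  | zero =>
    intro pre lo c S hS hc hn
    obtain ⟨l, rfl⟩ := card_eq_one.mp hc
    have hl : l ∈ Ico lo a := hS (by simp)
    rw [mem_Ico] at hl
    simp only [F]
    apply loopF_gt (q0 := l - lo)
    · intro l c h; rw [if_pos h]; exact h
    · have e : lo + (l - lo) = l := by omega
      rw [e]
      generalize loopF _ lo (l - lo) c = x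
      rw [if_pos trivial]
      split_ifs with h1 h2
      · exact h1
      · exfalso
        rw [cgE_eq] at h2
        have : ({l} ∪ pre.toFinset) = (l :: pre).toFinset := by
          ext x; simp
        rw [this] at hn
        omega
      · omega
    · omega
  | succ m ih =>
    intro pre lo c S hS hc hn
    have hne : S.Nonempty := card_pos.mp (by omega)
    set l := S.min' hne with hl
    have hlS : l ∈ S := S.min'_mem hne
    have hlI := hS hlS
    rw [mem_Ico] at hlI
    have hS' : S.erase l ⊆ Ico (l + 1) a := by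
      intro x hx
      rw [mem_erase] at hx
      have h1 := hS hx.2
      rw [mem_Ico] at h1 ⊢
      have h2 : l ≤ x := S.min'_le x hx.2
      omega
    have hc' : (S.erase l).card = m + 1 := by
      rw [card_erase_of_mem hlS]; omega
    have hun : S.erase l ∪ (l :: pre).toFinset = S ∪ pre.toFinset := by
      ext x
      simp only [mem_union, mem_erase, List.toFinset_cons, mem_insert]
      constructor
      · rintro (⟨_, h⟩ | h | h)
        · exact Or.inl h
        · exact Or.inl (h ▸ hlS)
        · exact Or.inr h
      · rintro (h | h)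
        · by_cases hx : x = l
          · exact Or.inr (Or.inl hx)
          · exact Or.inl ⟨hx, h⟩
        · exact Or.inr (Or.inr h)
    rw [F]
    apply loopF_gt (q0 := l - lo)
    · intro l c h; rw [if_pos h]; exact h
    · have e : lo + (l - lo) = l := by omega
      rw [e]
      generalize loopF _ lo (l - lo) c = x
      rw [if_neg (by omega : ¬ m + 1 = 0)]
      split_ifs with h1 h2
      · exact h1
      · exfalso
        rw [cgE_eq] at h2
        have : cgS b E (S ∪ pre.toFinset) ≤ cgS b E (l :: pre).toFinset := by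
          rw [← hun]; exact cgS_anti _ _ subset_union_right
        have := Nat.pow_le_pow_left this (k + 6)
        omega
      · apply ih (l :: pre) (l + 1) _ (S.erase l) hS' hc'
        rw [hun]; exact hn
    · omega

/-- Sum of the weights of all nodes of the search tree. -/
def Wt (a k : ℕ) (cg : List ℕ → ℕ) : ℕ → List ℕ → ℕ → ℕ
  | 0, _, _ => 0
  | m + 1, pre, lo => ∑ l ∈ Ico lo a, (cg (l :: pre) ^ k + Wt a k cg m (l :: pre) (l + 1))

theorem loopF_le {g : ℕ → ℕ → ℕ} {u : ℕ → ℕ} {lo a : ℕ}
    (hg : ∀ l c, lo ≤ l → l < a → g l c ≤ c + u l) (c : ℕ) :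
    ∀ q, lo + q ≤ a → loopF g lo q c ≤ c + ∑ l ∈ Ico lo (lo + q), u l := by
  intro q
  induction q with
  | zero => intro _; simp [loopF]
  | succ q ih =>
    intro hq
    have h1 := ih (by omega)
    simp only [loopF]
    have h2 := hg (lo + q) (loopF g lo q c) (by omega) (by omega)
    rw [← Nat.add_assoc, sum_Ico_succ_top (by omega)]
    omega

theorem F_sound {a k n6 bd b : ℕ} {E : ℕ → ℕ → Bool}
    (hno : ∀ S : Finset ℕ, S ⊆ range a → S.card = k → cgS b E S ^ (k + 6) < n6) :
    ∀ (m : ℕ) (pre : List ℕ) (lo c : ℕ), m + pre.length = k → lo ≤ a →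
    pre.toFinset ⊆ range lo → pre.toFinset.card = pre.length →
    F a k n6 bd (cgE b E) m pre lo c ≤ c + Wt a k (cgE b E) m pre lo := by
  intro m
  induction m with
  | zero => intro pre lo c _ _ _ _; simp [F]
  | succ m ih =>
    intro pre lo c hk hlo hpre hcard
    simp only [F, Wt]
    have key := loopF_le (g := fun l c =>
      if bd < c then c
      else if cgE b E (l :: pre) ^ (k + 6) < n6 then c
      else if m = 0 then c + (bd + 1)
      else F a k n6 bd (cgE b E) m (l :: pre) (l + 1) (c + cgE b E (l :: pre) ^ k))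
      (u := fun l => cgE b E (l :: pre) ^ k + Wt a k (cgE b E) m (l :: pre) (l + 1))
      (lo := lo) (a := a) ?_ c (a - lo) (by omega)
    · have e : lo + (a - lo) = a := by omega
      rw [e] at key
      exact key
    · intro l c hl hla
      have hlpre : l ∉ pre.toFinset := fun h => by
        have := hpre h
        rw [mem_range] at this; omega
      have hcard' : (l :: pre).toFinset.card = (l :: pre).length := by
        rw [List.toFinset_cons, card_insert_of_notMem hlpre, hcard]; rfl
      have hpre' : (l :: pre).toFinset ⊆ range (l + 1) := by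
        intro x hx
        rw [List.toFinset_cons, mem_insert] at hx
        rw [mem_range]
        rcases hx with h | h
        · omega
        · have := hpre h; rw [mem_range] at this; omega
      split_ifs with h1 h2 h3
      · omega
      · omega
      · exfalso
        subst h3
        have := hno (l :: pre).toFinset (hpre'.trans (by
          intro x hx; rw [mem_range] at *; omega)) (by
            rw [hcard', List.length_cons]; omega)
        rw [cgE_eq] at h2
        omega
      · have := ih (l :: pre) (l + 1) (c + cgE b E (l :: pre) ^ k) (by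
          rw [List.length_cons]; omega) (by omega) hpre' hcard'
        omega

theorem F_cap {a k n6 bd b : ℕ} {E : ℕ → ℕ → Bool} {X : ℕ} (hX : b ^ k ≤ X) :
    ∀ (m : ℕ) (pre : List ℕ) (lo c : ℕ),
    F a k n6 bd (cgE b E) m pre lo c ≤ max c (2 * bd + 1 + X) := by
  intro m
  induction m with
  | zero => intro pre lo c; simp [F]
  | succ m ih =>
    intro pre lo c
    simp only [F]
    generalize a - lo = q
    induction q with
    | zero => simp [loopF]
    | succ q ihq =>
      simp only [loopF]
      have hle : cgE b E ((lo + q) :: pre) ^ k ≤ X :=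
        (Nat.pow_le_pow_left (cgE_le _ _ _) _).trans hX
      generalize loopF _ lo q c = x at ihq ⊢
      split_ifs with h1 h2 h3
      · exact ihq
      · exact ihq
      · rw [le_max_iff]; right; omega
      · refine (ih _ _ _).trans ?_
        rw [max_le_iff]
        constructor
        · rw [le_max_iff]; right; omega
        · exact le_max_right _ _

theorem sum_powersetCard_min {a i : ℕ} (f : Finset ℕ → ℕ) : ∀ (n lo : ℕ), lo + n = a →
    ∑ S ∈ powersetCard (i + 1) (Ico lo a), f S =
      ∑ l ∈ Ico lo a, ∑ S ∈ powersetCard i (Ico (l + 1) a), f (insert l S) := by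
  intro n
  induction n with
  | zero =>
    intro lo h
    have : Ico lo a = ∅ := by rw [Ico_eq_empty_iff]; omega
    rw [this, powersetCard_eq_empty.mpr (by simp)]
    simp
  | succ n ih =>
    intro lo h
    have hI : Ico lo a = insert lo (Ico (lo + 1) a) := by
      ext x; rw [mem_insert, mem_Ico, mem_Ico]; omega
    have hlo : lo ∉ Ico (lo + 1) a := by simp
    rw [hI, sum_insert hlo, ← ih (lo + 1) (by omega), powersetCard_succ_insert hlo]
    rw [sum_union, sum_image]
    · rw [add_comm]
    · intro S hS T hT hST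
      rw [mem_coe, mem_powersetCard] at hS hT
      have h1 : lo ∉ S := fun h => hlo (hS.1 h)
      have h2 : lo ∉ T := fun h => hlo (hT.1 h)
      rw [← erase_insert h1, ← erase_insert h2, hST]
    · rw [disjoint_left]
      intro S hS hS'
      rw [mem_image] at hS'
      obtain ⟨T, _, rfl⟩ := hS'
      rw [mem_powersetCard] at hS
      exact hlo (hS.1 (mem_insert_self _ _))

theorem Wt_eq {a k b : ℕ} {E : ℕ → ℕ → Bool} : ∀ (m : ℕ) (pre : List ℕ) (lo : ℕ), lo ≤ a →
    Wt a k (cgE b E) m pre lo = ∑ i ∈ range m, ∑ S ∈ powersetCard (i + 1) (Ico lo a),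
      cgS b E (S ∪ pre.toFinset) ^ k := by
  intro m
  induction m with
  | zero => intro pre lo _; simp [Wt]
  | succ m ih =>
    intro pre lo hlo
    simp only [Wt]
    rw [sum_range_succ']
    have h0 : ∑ S ∈ powersetCard (0 + 1) (Ico lo a), cgS b E (S ∪ pre.toFinset) ^ k =
        ∑ l ∈ Ico lo a, cgE b E (l :: pre) ^ k := by
      rw [sum_powersetCard_min _ (a - lo) lo (by omega)]
      apply sum_congr rfl
      intro l _
      simp only [powersetCard_zero, sum_singleton]
      rw [cgE_eq]
      congr 2
      ext x; simp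
    rw [h0, sum_add_distrib, add_comm]
    congr 1
    have h1 : ∀ i, ∑ S ∈ powersetCard (i + 1 + 1) (Ico lo a), cgS b E (S ∪ pre.toFinset) ^ k =
        ∑ l ∈ Ico lo a, ∑ S ∈ powersetCard (i + 1) (Ico (l + 1) a),
          cgS b E (S ∪ (l :: pre).toFinset) ^ k := by
      intro i
      rw [sum_powersetCard_min _ (a - lo) lo (by omega)]
      apply sum_congr rfl
      intro l _
      apply sum_congr rfl
      intro S _
      congr 2
      ext x; simp
    simp only [h1]
    rw [sum_comm]
    apply sum_congr rfl
    intro l hl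
    rw [mem_Ico] at hl
    exact ih _ _ (by omega)

theorem pow_le_choose' (k d : ℕ) : d ^ k ≤ (2 * k) ^ k * (1 + d.choose k) := by
  by_cases hd : d < 2 * k
  · calc d ^ k ≤ (2 * k) ^ k := Nat.pow_le_pow_left hd.le _
      _ ≤ (2 * k) ^ k * (1 + d.choose k) := Nat.le_mul_of_pos_right _ (by omega)
  · have h1 : d ≤ 2 * (d + 1 - k) := by omega
    have h2 := Nat.pow_sub_le_descFactorial d k
    have h3 : k.factorial ≤ k ^ k := Nat.factorial_le_pow k
    calc d ^ k ≤ (2 * (d + 1 - k)) ^ k := Nat.pow_le_pow_left h1 _
      _ = 2 ^ k * (d + 1 - k) ^ k := by rw [mul_pow]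
      _ ≤ 2 ^ k * d.descFactorial k := Nat.mul_le_mul_left _ h2
      _ = 2 ^ k * (k.factorial * d.choose k) := by rw [Nat.descFactorial_eq_factorial_mul_choose]
      _ ≤ 2 ^ k * (k ^ k * d.choose k) :=
          Nat.mul_le_mul_left _ (Nat.mul_le_mul_right _ h3)
      _ = (2 * k) ^ k * d.choose k := by rw [mul_pow]; ring
      _ ≤ (2 * k) ^ k * (1 + d.choose k) := Nat.mul_le_mul_left _ (by omega)

theorem choose_le_add (k i x : ℕ) (hi : i ≤ k) : x.choose i ≤ 4 ^ k + x.choose k := by
  by_cases hx : x ≤ 2 * k
  · have h1 : x.choose i ≤ 2 ^ x := Nat.choose_le_two_pow x i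
    have h2 : 2 ^ x ≤ 2 ^ (2 * k) := Nat.pow_le_pow_right (by omega) hx
    have h3 : (2 : ℕ) ^ (2 * k) = 4 ^ k := by rw [pow_mul]; norm_num
    omega
  · have key : ∀ j, i ≤ j → j ≤ k → x.choose i ≤ x.choose j := by
      intro j hij
      induction j, hij using Nat.le_induction with
      | base => intro _; exact le_rfl
      | succ j hij ih =>
        intro hj
        exact (ih (by omega)).trans (Nat.choose_le_succ_of_lt_half_left (by omega))
    have := key k hi le_rfl
    exact this.trans (Nat.le_add_left _ _)

/-- Number of common neighbours of a set of right vertices. -/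
def cgR (a : ℕ) (E : ℕ → ℕ → Bool) (T : Finset ℕ) : ℕ :=
  ((range a).filter (fun l => ∀ r ∈ T, E l r = true)).card

theorem double_count (a b i k : ℕ) (E : ℕ → ℕ → Bool) :
    ∑ S ∈ powersetCard i (range a), (cgS b E S).choose k =
      ∑ T ∈ powersetCard k (range b), (cgR a E T).choose i := by
  have h1 : ∀ S : Finset ℕ, (cgS b E S).choose k =
      ∑ T ∈ powersetCard k (range b), if ∀ l ∈ S, ∀ r ∈ T, E l r = true then 1 else 0 := by
    intro S
    unfold cgS
    rw [← card_powersetCard, ← sum_filter, ← card_eq_sum_ones]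
    congr 1
    ext T
    simp only [mem_powersetCard, mem_filter, subset_iff, mem_range]
    constructor
    · rintro ⟨h, hc⟩
      exact ⟨⟨fun x hx => (h hx).1, hc⟩, fun l hl r hr => (h hr).2 l hl⟩
    · rintro ⟨⟨h, hc⟩, h'⟩
      exact ⟨fun x hx => ⟨h hx, fun l hl => h' l hl x hx⟩, hc⟩
  have h2 : ∀ T : Finset ℕ, (cgR a E T).choose i =
      ∑ S ∈ powersetCard i (range a), if ∀ l ∈ S, ∀ r ∈ T, E l r = true then 1 else 0 := by
    intro T
    unfold cgR
    rw [← card_powersetCard, ← sum_filter, ← card_eq_sum_ones]
    congr 1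
    ext S
    simp only [mem_powersetCard, mem_filter, subset_iff, mem_range]
    constructor
    · rintro ⟨h, hc⟩
      exact ⟨⟨fun x hx => (h hx).1, hc⟩, fun l hl r hr => (h hl).2 r hr⟩
    · rintro ⟨⟨h, hc⟩, h'⟩
      exact ⟨fun x hx => ⟨h hx, fun r hr => h' x hx r hr⟩, hc⟩
  simp only [h1, h2]
  rw [sum_comm]

/-- The counting bound behind the running time. -/
theorem Wt_bound {a b k h : ℕ} {E : ℕ → ℕ → Bool} (hn : 1 ≤ a + b)
    (hno : ∀ S : Finset ℕ, S ⊆ range a → S.card = k → cgS b E S ≤ h) :
    Wt a k (cgE b E) k [] 0 ≤ (k * ((2 * k) ^ k * (1 + 4 ^ k + h ^ k))) * (a + b) ^ k := by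
  rw [Wt_eq k [] 0 (by omega)]
  have hterm : ∀ i ∈ range k, ∑ S ∈ powersetCard (i + 1) (Ico 0 a),
      cgS b E (S ∪ ([] : List ℕ).toFinset) ^ k ≤
      (2 * k) ^ k * (1 + 4 ^ k + h ^ k) * (a + b) ^ k := by
    intro i hi
    rw [mem_range] at hi
    simp only [List.toFinset_nil, union_empty, ← range_eq_Ico]
    calc ∑ S ∈ powersetCard (i + 1) (range a), cgS b E S ^ k
        ≤ ∑ S ∈ powersetCard (i + 1) (range a), (2 * k) ^ k * (1 + (cgS b E S).choose k) :=
          sum_le_sum (fun S _ => pow_le_choose' _ _)
      _ = (2 * k) ^ k * ((powersetCard (i + 1) (range a)).card +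
            ∑ S ∈ powersetCard (i + 1) (range a), (cgS b E S).choose k) := by
          rw [← mul_sum, sum_add_distrib, card_eq_sum_ones]
      _ ≤ (2 * k) ^ k * ((a + b) ^ k + (4 ^ k * (a + b) ^ k + h ^ k * (a + b) ^ k)) := by
          apply Nat.mul_le_mul_left
          apply Nat.add_le_add
          · rw [card_powersetCard, card_range]
            calc a.choose (i + 1) ≤ a ^ (i + 1) := Nat.choose_le_pow a (i + 1)
              _ ≤ (a + b) ^ (i + 1) := Nat.pow_le_pow_left (by omega) _
              _ ≤ (a + b) ^ k := Nat.pow_le_pow_right (by omega) (by omega)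
          · rw [double_count]
            calc ∑ T ∈ powersetCard k (range b), (cgR a E T).choose (i + 1)
                ≤ ∑ T ∈ powersetCard k (range b), (4 ^ k + (cgR a E T).choose k) :=
                  sum_le_sum (fun T _ => choose_le_add _ _ _ (by omega))
              _ = b.choose k * 4 ^ k + ∑ S ∈ powersetCard k (range a), (cgS b E S).choose k := by
                  rw [sum_add_distrib, sum_const, card_powersetCard, card_range, smul_eq_mul,
                    double_count]
              _ ≤ (a + b) ^ k * 4 ^ k + ∑ S ∈ powersetCard k (range a), h ^ k := by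
                  apply Nat.add_le_add
                  · apply Nat.mul_le_mul_right
                    exact (Nat.choose_le_pow b k).trans (Nat.pow_le_pow_left (by omega) _)
                  · apply sum_le_sum
                    intro S hS
                    rw [mem_powersetCard] at hS
                    exact (Nat.choose_le_pow _ _).trans
                      (Nat.pow_le_pow_left (hno S hS.1 hS.2) _)
              _ ≤ (a + b) ^ k * 4 ^ k + (a + b) ^ k * h ^ k := by
                  apply Nat.add_le_add_left
                  rw [sum_const, card_powersetCard, card_range, smul_eq_mul]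
                  apply Nat.mul_le_mul_right
                  exact (Nat.choose_le_pow a k).trans (Nat.pow_le_pow_left (by omega) _)
              _ = 4 ^ k * (a + b) ^ k + h ^ k * (a + b) ^ k := by ring
      _ = (2 * k) ^ k * (1 + 4 ^ k + h ^ k) * (a + b) ^ k := by ring
  calc _ ≤ ∑ i ∈ range k, (2 * k) ^ k * (1 + 4 ^ k + h ^ k) * (a + b) ^ k := sum_le_sum hterm
    _ = (k * ((2 * k) ^ k * (1 + 4 ^ k + h ^ k))) * (a + b) ^ k := by
        rw [sum_const, card_range, smul_eq_mul]; ring

end Pool.Agent.H588R2.Bic
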