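import Pool.Agent.H588R2.Ram

/-!
The pruned search for one-sided bicliques: the program and its running time.
-/

namespace Pool.Agent.H588R2.Bic

open Pool.Agent.H588R2

/-- Iterate `g` over the values `lo, lo + 1, …, lo + q - 1`. -/
def loopF (g : ℕ → ℕ → ℕ) (lo : ℕ) : ℕ → ℕ → ℕ
  | 0, c => c
  | q + 1, c => g (lo + q) (loopF g lo q c)

/-- Value of the counter after the search below the node `pre`. -/
def F (a k n6 bd : ℕ) (cg : List ℕ → ℕ) : ℕ → List ℕ → ℕ → ℕ → ℕ
  | 0, _, _, c => c
  | m + 1, pre, lo, c => loopF (fun l c =>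
      if bd < c then c
      else if cg (l :: pre) ^ (k + 6) < n6 then c
      else if m = 0 then c + (bd + 1)
      else F a k n6 bd cg m (l :: pre) (l + 1) (c + cg (l :: pre) ^ k)) lo (a - lo) c

/-- Number of common neighbours of the vertices in the list. -/
def cgE (b : ℕ) (E : ℕ → ℕ → Bool) (A : List ℕ) : ℕ :=
  ((Finset.range b).filter (fun r => ∀ l ∈ A, E l r = true)).card

/-- Test whether the current right vertex (register 9) is adjacent to the `j` chosen vertices. -/
def checks : ℕ → Cmd
  | 0 => .skip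
  | i + 1 => .seq (checks i) (.seq (.op (.mul 11 (16 + i) 1)) (.seq (.op (.add 11 11 9))
      (.seq (.op (.load 11 11)) (.op (.mul 10 10 11)))))

def countCode (j : ℕ) : Cmd :=
  .seq (.op (.const 8 0)) (.seq (.op (.const 9 0)) (.loop 9 1
    (.seq (.op (.const 10 1)) (.seq (checks j) (.seq (.op (.add 8 8 10)) (.op (.add 9 9 2)))))))

def powCode (k : ℕ) : Cmd :=
  .seq (.op (.const 12 1)) (.seq (mulRep 12 8 k) (.seq (.op (.const 13 1))
    (.seq (.op (.mul 13 13 12)) (mulRep 13 8 6))))

def initL (j : ℕ) : Cmd := if j = 0 then .op (.const 16 0) else .op (.add (16 + j) (15 + j) 2)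

def lvl (k : ℕ) : ℕ → ℕ → Cmd
  | 0, _ => .skip
  | m + 1, j => .seq (initL j) (.loop (16 + j) 0 (.seq
      (.ite 5 7 .skip (.seq (countCode (j + 1)) (.seq (powCode k) (.ite 13 4 .skip
        (if m = 0 then .op (.add 7 7 6) else .seq (.op (.add 7 7 12)) (lvl k m (j + 1)))))))
      (.op (.add (16 + j) (16 + j) 2))))

def mainCode (k Ck : ℕ) : Cmd :=
  .seq (.op (.const 2 1)) (.seq (.op (.add 3 0 1)) (.seq (.op (.const 4 1)) (.seq (mulRep 4 3 6)
    (.seq (.op (.const 5 Ck)) (.seq (mulRep 5 3 k) (.seq (.op (.add 6 5 2))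
      (.seq (.op (.const 7 0)) (.seq (lvl k k 0) (.seq (.op (.const 0 0))
        (.ite 5 7 (.op (.const 0 1)) .skip))))))))))

/-- The list of chosen vertices, the latest first. -/
def preOf (s : St) : ℕ → List ℕ
  | 0 => []
  | j + 1 => s.reg (16 + j) :: preOf s j

theorem preOf_congr {s s' : St} : ∀ {j : ℕ}, (∀ i < j, s'.reg (16 + i) = s.reg (16 + i)) →
    preOf s' j = preOf s j := by
  intro j
  induction j with
  | zero => intro _; rfl
  | succ j ih =>
    intro h
    simp only [preOf]
    rw [h j (by omega), ih (fun i hi => h i (by omega))]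

structure Env (w a b k n6 bd : ℕ) (E : ℕ → ℕ → Bool) (s : St) : Prop where
  hA : s.reg 0 = a
  hB : s.reg 1 = b
  h1 : s.reg 2 = 1
  hN6 : s.reg 4 = n6
  hBd : s.reg 5 = bd
  hBig : s.reg 6 = bd + 1
  hmem : ∀ l < a, ∀ r < b, s.mem (l * b + r) = if E l r = true then 1 else 0

/-- Registers that the environment does not use. -/
def Fr : Set ℕ := {x | 7 ≤ x}

theorem Env.same {w a b k n6 bd E s s'} (h : Env w a b k n6 bd E s) (hs : Same Fr s s') :
    Env w a b k n6 bd E s' := by
  obtain ⟨hm, hr⟩ := hs
  constructor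
  · rw [hr 0 (by simp [Fr]), h.hA]
  · rw [hr 1 (by simp [Fr]), h.hB]
  · rw [hr 2 (by simp [Fr]), h.h1]
  · rw [hr 4 (by simp [Fr]), h.hN6]
  · rw [hr 5 (by simp [Fr]), h.hBd]
  · rw [hr 6 (by simp [Fr]), h.hBig]
  · rw [hm]; exact h.hmem

theorem runs_checks {w a b k n6 bd : ℕ} {E : ℕ → ℕ → Bool} (hab : a * b < 2 ^ w) (hw : 1 < 2 ^ w) :
    ∀ (j : ℕ) (s : St), Env w a b k n6 bd E s → s.reg 10 = 1 → s.reg 9 < b →
    (∀ i < j, s.reg (16 + i) < a) → ∀ {Q : St → ℕ → Prop},
    (∀ s', Same {10, 11} s s' →
      s'.reg 10 = (if ∀ l ∈ preOf s j, E l (s.reg 9) = true then 1 else 0) → Q s' (4 * j)) →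
    Runs w (checks j) s Q := by
  intro j
  induction j with
  | zero =>
    intro s _ h10 _ _ Q hQ
    apply Runs.skip
    apply hQ s (Same.refl _ _)
    simp [preOf, h10]
  | succ j ih =>
    intro s hE h10 h9 hl Q hQ
    apply Runs.seq
    apply ih s hE h10 h9 (fun i hi => hl i (by omega))
    intro s' hs' h10'
    have hE' : Env w a b k n6 bd E s' := hE.same (hs'.mono (by
      intro x hx; simp at hx; simp [Fr]; omega))
    have hr1 : s'.reg 1 = b := hE'.hB
    have hr9 : s'.reg 9 = s.reg 9 := hs'.2 9 (by simp)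
    have hrj : s'.reg (16 + j) = s.reg (16 + j) := hs'.2 _ (by simp; omega)
    have hlj : s.reg (16 + j) < a := hl j (by omega)
    have haddr : s.reg (16 + j) * b + s.reg 9 < a * b := by
      calc s.reg (16 + j) * b + s.reg 9 < s.reg (16 + j) * b + b := by omega
        _ = (s.reg (16 + j) + 1) * b := by ring
        _ ≤ a * b := Nat.mul_le_mul_right _ hlj
    apply Runs.seq
    apply Runs.mul
    · rw [hrj, hr1]; omega
    rw [hrj, hr1]
    apply Runs.seq
    apply Runs.add
    · rw [St.set_reg_self, St.set_reg_ne _ _ (by norm_num), hr9]; omega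
    rw [St.set_reg_self, St.set_reg_ne _ _ (by norm_num), hr9]
    apply Runs.seq
    have hmem := hE'.hmem _ hlj _ h9
    apply Runs.load
    · rw [St.set_reg_self]
      simp only [St.set_mem]
      rw [hmem]; split_ifs <;> omega
    rw [St.set_reg_self]
    simp only [St.set_mem]
    rw [hmem]
    apply Runs.mul
    · rw [St.set_reg_self]
      rw [St.set_reg_ne _ _ (by norm_num), St.set_reg_ne _ _ (by norm_num),
        St.set_reg_ne _ _ (by norm_num), h10']
      split_ifs <;> omega
    rw [St.set_reg_self]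
    rw [St.set_reg_ne _ _ (by norm_num), St.set_reg_ne _ _ (by norm_num),
        St.set_reg_ne _ _ (by norm_num), h10']
    have : 4 * j + (1 + (1 + (1 + 1))) = 4 * (j + 1) := by ring
    rw [this]
    apply hQ
    · exact (((hs'.set (by simp) _).set (by simp) _).set (by simp) _).set (by simp) _
    · rw [St.set_reg_self]
      simp only [preOf, List.mem_cons, forall_eq_or_imp]
      by_cases h1 : ∀ l ∈ preOf s j, E l (s.reg 9) = true
      · by_cases h2 : E (s.reg (16 + j)) (s.reg 9) = true
        · rw [if_pos h1, if_pos h2, if_pos ⟨h2, h1⟩]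
        · rw [if_neg h2, if_neg (fun h : _ ∧ _ => h2 h.1), mul_zero]
      · rw [if_neg h1, if_neg (fun h : _ ∧ _ => h1 h.2), zero_mul]

theorem cgE_le (b : ℕ) (E : ℕ → ℕ → Bool) (A : List ℕ) : cgE b E A ≤ b := by
  unfold cgE
  exact (Finset.card_filter_le _ _).trans (by simp)

theorem runs_countCode {w a b k n6 bd : ℕ} {E : ℕ → ℕ → Bool} (hab : a * b < 2 ^ w)
    (hw : b + 1 < 2 ^ w) (j : ℕ) (s : St) (hE : Env w a b k n6 bd E s)
    (hl : ∀ i < j, s.reg (16 + i) < a) {Q : St → ℕ → Prop}
    (hQ : ∀ s', Same {8, 9, 10, 11} s s' → s'.reg 8 = cgE b E (preOf s j) →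
      Q s' (b * (4 * j + 5) + 4)) :
    Runs w (countCode j) s Q := by
  unfold countCode
  apply Runs.seq
  apply Runs.const (by omega)
  apply Runs.seq
  apply Runs.const (by omega)
  refine Runs.loop b (fun q s' τ => Same {8, 9, 10, 11} s s' ∧ s'.reg 9 = q ∧
    s'.reg 8 = ((Finset.range q).filter (fun r => ∀ l ∈ preOf s j, E l r = true)).card ∧
    τ = q * (4 * j + 5)) ?_ ?_ ?_ ?_
  · rintro q s' τ hq ⟨hs', h9, h8, hτ⟩
    have hE' : Env w a b k n6 bd E s' := hE.same (hs'.mono (by
      intro x hx; simp at hx; simp [Fr]; omega))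
    refine ⟨by rw [h9, hE'.hB]; exact hq, ?_⟩
    apply Runs.seq
    apply Runs.const (by omega)
    apply Runs.seq
    have hS : Same {8, 9, 10, 11} s (s'.set 10 1) := hs'.set (by simp) _
    have hE1 : Env w a b k n6 bd E (s'.set 10 1) := hE.same (hS.mono (by
      intro x hx; simp at hx; simp [Fr]; omega))
    apply runs_checks hab (by omega) j _ hE1
    · simp
    · rw [St.set_reg_ne _ _ (by norm_num), h9]; exact hq
    · intro i hi
      rw [hS.2 _ (by simp; omega)]; exact hl i hi
    intro s2 hs2 h10
    have hS2 : Same {8, 9, 10, 11} s s2 := hS.trans (hs2.mono (by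
      intro x hx; simp at hx; simp; omega))
    have hp : preOf (s'.set 10 1) j = preOf s j := preOf_congr (fun i hi => hS.2 _ (by simp; omega))
    have h9' : s2.reg 9 = q := by rw [hs2.2 9 (by simp), St.set_reg_ne _ _ (by norm_num), h9]
    have h8' : s2.reg 8 = ((Finset.range q).filter
        (fun r => ∀ l ∈ preOf s j, E l r = true)).card := by
      rw [hs2.2 8 (by simp), St.set_reg_ne _ _ (by norm_num), h8]
    rw [hp, St.set_reg_ne _ _ (by norm_num), h9] at h10
    have hc : ((Finset.range q).filter (fun r => ∀ l ∈ preOf s j, E l r = true)).card ≤ q :=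
      (Finset.card_filter_le _ _).trans (by simp)
    apply Runs.seq
    apply Runs.add
    · rw [h8', h10]; split_ifs <;> omega
    apply Runs.add
    · rw [St.set_reg_ne _ _ (by norm_num), St.set_reg_ne _ _ (by norm_num), h9',
        hS2.2 2 (by simp), hE.h1]; omega
    rw [St.set_reg_ne _ _ (by norm_num), St.set_reg_ne _ _ (by norm_num), h9',
        hS2.2 2 (by simp), hE.h1]
    refine ⟨(hS2.set (by simp) _).set (by simp) _, by simp, ?_, ?_⟩
    · rw [St.set_reg_ne _ _ (by norm_num), St.set_reg_self, h8', h10]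
      rw [Finset.range_add_one, Finset.filter_insert]
      split_ifs with h
      · rw [Finset.card_insert_of_notMem (by simp)]
      · simp
    · rw [hτ]; ring
  · rintro s' τ ⟨hs', h9, -⟩
    rw [h9, hs'.2 1 (by simp), hE.hB]; omega
  · refine ⟨((Same.refl _ s).set (by simp) _).set (by simp) _, by simp, ?_, by simp⟩
    rw [St.set_reg_ne _ _ (by norm_num)]; simp
  · rintro s' τ ⟨hs', h9, h8, hτ⟩
    have : 1 + (1 + (τ + 2)) = b * (4 * j + 5) + 4 := by rw [hτ]; ring
    rw [this]
    exact hQ s' hs' (by rw [h8]; rfl)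

theorem runs_powCode {w k : ℕ} (s : St) {x : ℕ} (hx : s.reg 8 = x)
    (hw : (x + 1) ^ (k + 6) < 2 ^ w) {Q : St → ℕ → Prop}
    (hQ : ∀ s', Same {12, 13} s s' → s'.reg 12 = x ^ k → s'.reg 13 = x ^ (k + 6) →
      Q s' (k + 9)) :
    Runs w (powCode k) s Q := by
  have hw1 : 1 < 2 ^ w := lt_of_le_of_lt (Nat.one_le_pow _ _ (by omega)) hw
  have hle : ∀ j, j ≤ k + 6 → x ^ j < 2 ^ w := fun j hj =>
    lt_of_le_of_lt ((Nat.pow_le_pow_left (by omega) _).trans
      (Nat.pow_le_pow_right (by omega) hj)) hw
  unfold powCode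
  apply Runs.seq
  apply Runs.const hw1
  apply Runs.seq
  have e8 : (s.set 12 1).reg 8 = x := by rw [St.set_reg_ne _ _ (by norm_num), hx]
  apply runs_mulRep (by norm_num)
  · intro j hj
    rw [St.set_reg_self, e8, one_mul]
    exact hle j (by omega)
  rw [St.set_reg_self, e8, one_mul]
  apply Runs.seq
  apply Runs.const hw1
  apply Runs.seq
  set s2 := ((s.set 12 1).set 12 (x ^ k)).set 13 1 with hs2
  have h13 : s2.reg 13 = 1 := by simp [hs2]
  have h12 : s2.reg 12 = x ^ k := by
    rw [hs2, St.set_reg_ne _ _ (by norm_num), St.set_reg_self]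
  have h8 : s2.reg 8 = x := by
    rw [hs2, St.set_reg_ne _ _ (by norm_num), St.set_reg_ne _ _ (by norm_num), e8]
  have hS2 : Same {12, 13} s s2 :=
    (((Same.refl _ s).set (by simp) _).set (by simp) _).set (by simp) _
  apply Runs.mul
  · rw [h13, h12, one_mul]; exact hle k (by omega)
  rw [h13, h12, one_mul]
  apply runs_mulRep (by norm_num)
  · intro j hj
    rw [St.set_reg_self, St.set_reg_ne _ _ (by norm_num), h8, ← pow_add]
    exact hle _ (by omega)
  rw [St.set_reg_self, St.set_reg_ne _ _ (by norm_num), h8, ← pow_add]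
  have : 1 + (k + (1 + (1 + 6))) = k + 9 := by ring
  rw [this]
  apply hQ
  · exact (hS2.set (by simp) _).set (by simp) _
  · rw [St.set_reg_ne _ _ (by norm_num), St.set_reg_ne _ _ (by norm_num), h12]
  · simp

/-- Registers changed by the search at level `j`. -/
def Md (j : ℕ) : Set ℕ := {x | (7 ≤ x ∧ x ≤ 13) ∨ 16 + j ≤ x}

theorem Md_sub_Fr (j : ℕ) : Md j ⊆ Fr := by
  intro x hx
  simp only [Md, Fr, Set.mem_ofPred_eq] at *
  omega

theorem runs_lvl {w a b k n6 bd Dk K : ℕ} {E : ℕ → ℕ → Bool} (hab : a * b < 2 ^ w)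
    (haw : a + 1 < 2 ^ w) (hbw : b + 1 < 2 ^ w) (hpow : (b + 1) ^ (k + 6) < 2 ^ w)
    (hbd : 2 * (bd + 1) + (b + 1) ^ k < 2 ^ w)
    (hDk : ∀ A, n6 ≤ cgE b E A ^ (k + 6) → Dk ≤ cgE b E A ^ k)
    (hK : 5 * k + 40 ≤ K) :
    ∀ (m j : ℕ) (s : St) (lo c : ℕ), m + j = k → Env w a b k n6 bd E s →
    (∀ i < j, s.reg (16 + i) < a) → lo = (if j = 0 then 0 else s.reg (15 + j) + 1) →
    s.reg 7 = c → ∀ {Q : St → ℕ → Prop},
    (∀ s' t e, Same (Md j) s s' → s'.reg 7 = c + e →
      F a k n6 bd (cgE b E) m (preOf s j) lo c = c + e →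
      t * Dk ≤ K * (a + b + 1) ^ 2 * (Dk + e) → Q s' t) →
    Runs w (lvl k m j) s Q := by
  intro m
  induction m with
  | zero =>
    intro j s lo c _ _ _ _ h7 Q hQ
    apply Runs.skip
    exact hQ s 0 0 (Same.refl _ _) (by omega) rfl (by simp)
  | succ m ih =>
    intro j s lo c hmj hE hl hlo h7 Q hQ
    have hloa : lo ≤ a := by
      rw [hlo]; split_ifs with hj
      · omega
      · have := hl (j - 1) (by omega)
        have e : 16 + (j - 1) = 15 + j := by omega
        rw [e] at this; omega
    unfold lvl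
    apply Runs.seq
    -- initialisation
    have hinit : ∀ {Q' : St → ℕ → Prop}, (Q' (s.set (16 + j) lo) 1) → Runs w (initL j) s Q' := by
      intro Q' hQ'
      unfold initL
      by_cases hj : j = 0
      · subst hj
        simp only [if_true]
        rw [hlo] at hQ'
        exact Runs.const (by positivity) (by simpa using hQ')
      · rw [if_neg hj]
        rw [hlo, if_neg hj] at hQ'
        apply Runs.add
        · rw [hE.h1]; rw [hlo, if_neg hj] at hloa; omega
        · rw [hE.h1]; exact hQ'
    apply hinit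
    set g : ℕ → ℕ → ℕ := fun l c =>
      if bd < c then c
      else if cgE b E (l :: preOf s j) ^ (k + 6) < n6 then c
      else if m = 0 then c + (bd + 1)
      else F a k n6 bd (cgE b E) m (l :: preOf s j) (l + 1) (c + cgE b E (l :: preOf s j) ^ k)
      with hg
    refine Runs.loop (a - lo) (fun q s' τ => Same (Md j) s s' ∧ s'.reg (16 + j) = lo + q ∧
      ∃ e, s'.reg 7 = c + e ∧ loopF g lo q c = c + e ∧
        τ * Dk ≤ K * (a + b + 1) * q * Dk + K * (a + b + 1) ^ 2 * e) ?_ ?_ ?_ ?_
    · rintro q s' τ hq ⟨hS, hlq, e, he, hFe, hτ⟩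
      have hE' : Env w a b k n6 bd E s' := hE.same (hS.mono (Md_sub_Fr j))
      refine ⟨by rw [hlq, hE'.hA]; omega, ?_⟩
      have hgval : loopF g lo (q + 1) c = g (lo + q) (c + e) := by
        simp only [loopF]; rw [hFe]
      -- it suffices to run the conditional and account for the final increment
      have hfin : ∀ {s2 : St} {t : ℕ} (e' : ℕ), Same (Md j) s s2 → s2.reg (16 + j) = lo + q →
          s2.reg 7 = c + e' → g (lo + q) (c + e) = c + e' → e ≤ e' →
          (t + 3) * Dk ≤ K * (a + b + 1) * Dk + K * (a + b + 1) ^ 2 * (e' - e) →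
          Runs w (.op (.add (16 + j) (16 + j) 2)) s2 (fun s'' t' =>
            Same (Md j) s s'' ∧ s''.reg (16 + j) = lo + (q + 1) ∧
            ∃ e, s''.reg 7 = c + e ∧ loopF g lo (q + 1) c = c + e ∧
            (τ + (t + t' + 2)) * Dk ≤ K * (a + b + 1) * (q + 1) * Dk
              + K * (a + b + 1) ^ 2 * e) := by
        intro s2 t e' hS2 hl2 h72 hg2 hee ht
        have h21 : s2.reg 2 = 1 := (hE.same (hS2.mono (Md_sub_Fr j))).h1
        apply Runs.add
        · rw [hl2, h21]; omega
        rw [hl2, h21]
        refine ⟨hS2.set (by simp [Md]) _, by simp; omega, e', ?_, by rw [hgval, hg2], ?_⟩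
        · rw [St.set_reg_ne _ _ (by omega), h72]
        · obtain ⟨f, rfl⟩ : ∃ f, e' = e + f := ⟨e' - e, by omega⟩
          have h3 : e + f - e = f := by omega
          rw [h3] at ht
          calc (τ + (t + 1 + 2)) * Dk = τ * Dk + (t + 3) * Dk := by ring
            _ ≤ (K * (a + b + 1) * q * Dk + K * (a + b + 1) ^ 2 * e) +
                (K * (a + b + 1) * Dk + K * (a + b + 1) ^ 2 * f) := Nat.add_le_add hτ ht
            _ = K * (a + b + 1) * (q + 1) * Dk + K * (a + b + 1) ^ 2 * (e + f) := by ring
      apply Runs.seq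
      apply Runs.ite
      · intro hlt
        rw [hE'.hBd, he] at hlt
        apply Runs.skip
        refine hfin e hS hlq he ?_ le_rfl ?_
        · rw [hg]; simp only [if_pos hlt]
        · simp only [Nat.sub_self, mul_zero, add_zero]
          have : 1 + 0 + 3 ≤ K * (a + b + 1) := by
            calc 1 + 0 + 3 ≤ K * 1 := by omega
              _ ≤ K * (a + b + 1) := Nat.mul_le_mul_left _ (by omega)
          exact Nat.mul_le_mul_right _ this
      · intro hlt
        rw [hE'.hBd, he] at hlt
        apply Runs.seq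
        have hl' : ∀ i < j + 1, s'.reg (16 + i) < a := by
          intro i hi
          by_cases hij : i = j
          · subst hij; rw [hlq]; omega
          · rw [hS.2 _ (by simp [Md]; omega)]; exact hl i (by omega)
        apply runs_countCode hab hbw (j + 1) s' hE' hl'
        intro s2 hS2 h8
        have hpre' : preOf s' (j + 1) = (lo + q) :: preOf s j := by
          simp only [preOf]
          rw [hlq, preOf_congr (fun i hi => hS.2 _ (by simp [Md]; omega))]
        rw [hpre'] at h8
        apply Runs.seq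
        have hdb : cgE b E ((lo + q) :: preOf s j) ≤ b := cgE_le _ _ _
        apply runs_powCode s2 h8 (lt_of_le_of_lt (Nat.pow_le_pow_left (by omega) _) hpow)
        intro s3 hS3 h12 h13
        have hS13 : Same (Md j) s' s3 := (hS2.mono (by
            intro x hx; simp at hx; simp [Md]; omega)).trans (hS3.mono (by
            intro x hx; simp at hx; simp [Md]; omega))
        have hSs3 : Same (Md j) s s3 := hS.trans hS13
        have hl3 : s3.reg (16 + j) = lo + q := by
          rw [hS3.2 _ (by simp; omega), hS2.2 _ (by simp; omega), hlq]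
        have h73 : s3.reg 7 = c + e := by
          rw [hS3.2 _ (by simp), hS2.2 _ (by simp), he]
        have hE3 : Env w a b k n6 bd E s3 := hE.same (hSs3.mono (Md_sub_Fr j))
        have htime : b * (4 * (j + 1) + 5) + 4 + (k + 9) + 10 ≤ K * (a + b + 1) := by
          calc b * (4 * (j + 1) + 5) + 4 + (k + 9) + 10
              ≤ (a + b + 1) * (4 * k + 5) + (a + b + 1) * (k + 23) := by
                have h1 : b * (4 * (j + 1) + 5) ≤ (a + b + 1) * (4 * k + 5) :=
                  Nat.mul_le_mul (by omega) (by omega)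
                have h2 : 1 * (k + 23) ≤ (a + b + 1) * (k + 23) :=
                  Nat.mul_le_mul_right _ (by omega)
                omega
            _ = (5 * k + 28) * (a + b + 1) := by ring
            _ ≤ K * (a + b + 1) := Nat.mul_le_mul_right _ (by omega)
        set T0 := b * (4 * (j + 1) + 5) + 4 with hT0
        apply Runs.ite
        · intro hlt2
          rw [h13, hE3.hN6] at hlt2
          apply Runs.skip
          refine hfin e hSs3 hl3 h73 ?_ le_rfl ?_
          · rw [hg]; simp only [if_neg hlt, if_pos hlt2]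
          · simp only [Nat.sub_self, mul_zero, add_zero]
            exact Nat.mul_le_mul_right _ (by omega)
        · intro hlt2
          rw [h13, hE3.hN6] at hlt2
          have hDkd := hDk _ (not_lt.mp hlt2)
          by_cases hm : m = 0
          · rw [if_pos hm]
            apply Runs.add
            · rw [h73, hE3.hBig]; omega
            rw [h73, hE3.hBig]
            refine hfin (e + (bd + 1)) (hSs3.set (by simp [Md]) _) ?_ ?_ ?_ (by omega) ?_
            · rw [St.set_reg_ne _ _ (by omega), hl3]
            · rw [St.set_reg_self]; ring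
            · rw [hg]; simp only [if_neg hlt, if_neg hlt2, if_pos hm]; ring
            · refine le_trans ?_ (Nat.le_add_right _ _)
              exact Nat.mul_le_mul_right _ (by omega)
          · rw [if_neg hm]
            apply Runs.seq
            have hdk : cgE b E ((lo + q) :: preOf s j) ^ k ≤ (b + 1) ^ k :=
              Nat.pow_le_pow_left (by omega) _
            apply Runs.add
            · rw [h73, h12]; omega
            rw [h73, h12]
            set d := cgE b E ((lo + q) :: preOf s j) with hd
            have hSs4 : Same (Md j) s (s3.set 7 (c + e + d ^ k)) := hSs3.set (by simp [Md]) _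
            have hl4 : (s3.set 7 (c + e + d ^ k)).reg (16 + j) = lo + q := by
              rw [St.set_reg_ne _ _ (by omega), hl3]
            have hpre4 : preOf (s3.set 7 (c + e + d ^ k)) (j + 1) = (lo + q) :: preOf s j := by
              simp only [preOf]
              rw [hl4, preOf_congr (fun i hi => hSs4.2 _ (by simp [Md]; omega))]
            apply ih (j + 1) (s3.set 7 (c + e + d ^ k)) (lo + q + 1) (c + e + d ^ k) (by omega)
              (hE.same (hSs4.mono (Md_sub_Fr j)))
            · intro i hi
              by_cases hij : i = j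
              · subst hij; rw [hl4]; omega
              · rw [hSs4.2 _ (by simp [Md]; omega)]; exact hl i (by omega)
            · have e15 : 15 + (j + 1) = 16 + j := by omega
              rw [if_neg (by omega), e15, hl4]
            · simp
            intro s5 t5 f hS5 h75 hF5 ht5
            rw [hpre4] at hF5
            have hS5' : Same (Md j) s s5 := hSs4.trans (hS5.mono (by
              intro x hx; simp only [Md, Set.mem_ofPred_eq] at *; omega))
            refine hfin (e + d ^ k + f) hS5' ?_ ?_ ?_ (by omega) ?_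
            · rw [hS5.2 _ (by simp [Md]; omega), hl4]
            · rw [h75]; ring
            · rw [hg]; simp only [if_neg hlt, if_neg hm]
              rw [← hd, if_neg hlt2, hF5]; ring
            · have h3 : e + d ^ k + f - e = d ^ k + f := by omega
              rw [h3]
              calc (1 + (T0 + (k + 9 + (1 + (1 + t5 + 1)))) + 1 + 3) * Dk
                  = (T0 + (k + 9) + 8) * Dk + t5 * Dk := by ring
                _ ≤ K * (a + b + 1) * Dk + K * (a + b + 1) ^ 2 * (Dk + f) :=
                    Nat.add_le_add (Nat.mul_le_mul_right _ (by omega)) ht5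
                _ ≤ K * (a + b + 1) * Dk + K * (a + b + 1) ^ 2 * (d ^ k + f) := by
                    apply Nat.add_le_add_left
                    apply Nat.mul_le_mul_left
                    omega
    · rintro s' τ ⟨hS, hlq, -⟩
      rw [hlq, (hE.same (hS.mono (Md_sub_Fr j))).hA]; omega
    · refine ⟨(Same.refl _ s).set (by simp [Md]) _, by simp, 0, ?_, rfl, by simp⟩
      rw [St.set_reg_ne _ _ (by omega), h7]; rfl
    · rintro s' τ ⟨hS, hlq, e, he, hFe, hτ⟩
      apply hQ s' _ e hS he
      · simp only [F]; exact hFe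
      · calc (1 + (τ + 2)) * Dk = τ * Dk + 3 * Dk := by ring
          _ ≤ (K * (a + b + 1) * (a - lo) * Dk + K * (a + b + 1) ^ 2 * e) + K * (a + b + 1) * Dk := by
              apply Nat.add_le_add hτ
              apply Nat.mul_le_mul_right
              calc 3 ≤ K * 1 := by omega
                _ ≤ K * (a + b + 1) := Nat.mul_le_mul_left _ (by omega)
          _ = K * (a + b + 1) * ((a - lo) + 1) * Dk + K * (a + b + 1) ^ 2 * e := by ring
          _ ≤ K * (a + b + 1) * (a + b + 1) * Dk + K * (a + b + 1) ^ 2 * e := by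
              apply Nat.add_le_add_right
              apply Nat.mul_le_mul_right
              apply Nat.mul_le_mul_left
              omega
          _ = K * (a + b + 1) ^ 2 * (Dk + e) := by ring

end Pool.Agent.H588R2.Bic
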