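import Pool.Agent.H588R2.DksTab

/-!
Predictive codes for tuples of random partial assignments and the first-moment (chain) bound.
-/

set_option linter.unusedSectionVars false

namespace Pool.Agent.H588R2.Dks

open Finset

noncomputable section

/-- Value `b` has been seen at coordinate `x` among the vertices `i < m` with `S i`. -/
def Seen {X : Type} (S : ℕ → Prop) (α : ℕ → X → ℕ) (m b : ℕ) (x : X) : Prop :=
  ∃ i, i < m ∧ S i ∧ α i x = b

/-- Data of the reduction on the coordinate set `X`: number of raw outcomes `M` per coordinate,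
heavy coordinates, and for every assignment `A` a family of sets of coordinates. -/
structure Data (X : Type) where
  M : ℝ
  hv : X → Prop
  Fam : (X → ℕ) → Finset (Finset X)

variable {X : Type} [Fintype X] [DecidableEq X]

open Classical in
/-- The assignment extending the values seen. -/
def asg (S : ℕ → Prop) (α : ℕ → X → ℕ) (m : ℕ) (x : X) : ℕ :=
  if Seen S α m 1 x then 1 else 0

/-- Exactly one value has been seen. -/
def Agr (S : ℕ → Prop) (α : ℕ → X → ℕ) (m : ℕ) (x : X) : Prop :=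
  Seen S α m 0 x ↔ ¬ Seen S α m 1 x

open Classical in
/-- The sets of the family inside the agreement region. -/
def fam (D : Data X) (S : ℕ → Prop) (α : ℕ → X → ℕ) (m : ℕ) : Finset (Finset X) :=
  (D.Fam (asg S α m)).filter (fun T => ∀ x ∈ T, Agr S α m x)

open Classical in
/-- Own code of vertex `m`, with back-neighbourhood `S`. -/
def Kown (D : Data X) (S : ℕ → Prop) (α : ℕ → X → ℕ) (m : ℕ) : ℝ :=
  (∏ x, Lown D.M (D.hv x) (Seen S α m 0 x) (Seen S α m 1 x) (α m x)) *
    (∏ T ∈ fam D S α m, (1 - ∏ x ∈ T, if α m x = asg S α m x then (1 : ℝ) else 0)) *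
    ((1 - (1 / (D.M - 1)) ^ 3)⁻¹) ^ (fam D S α m).card

/-- Neighbourhood code at vertex `m`, for the neighbourhood `S`. -/
def Knb (D : Data X) (τ β : ℝ) (S : ℕ → Prop) (α : ℕ → X → ℕ) (m : ℕ) : ℝ :=
  ∏ x, Lnb D.M τ β (D.hv x) (Seen S α m 0 x) (Seen S α m 1 x) (α m x)

/-- Back-neighbours of `u` (as a predicate). -/
def Bk (ad : ℕ → ℕ → Prop) (u : ℕ) : ℕ → Prop := fun i => i < u ∧ ad i u

open Classical in
/-- The mixture code of vertex `m` for the graph `ad` on `0, …, h - 1`. -/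
def Lmix (D : Data X) (τ β : ℝ) (h : ℕ) (ad : ℕ → ℕ → Prop) (α : ℕ → X → ℕ) (m : ℕ) : ℝ :=
  (Kown D (Bk ad m) α m + ∑ u ∈ (range h).filter (fun u => m < u ∧ ad m u),
    Knb D τ β (Bk ad u) α m) / (h + 1)

theorem Seen_congr {S : ℕ → Prop} {α α' : ℕ → X → ℕ} {m b : ℕ} {x : X}
    (h : ∀ i < m, α i = α' i) : Seen S α m b x ↔ Seen S α' m b x := by
  unfold Seen
  constructor
  · rintro ⟨i, hi, hS, hb⟩; exact ⟨i, hi, hS, by rw [← h i hi]; exact hb⟩
  · rintro ⟨i, hi, hS, hb⟩; exact ⟨i, hi, hS, by rw [h i hi]; exact hb⟩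

theorem Seen_congr' {S : ℕ → Prop} {α α' : ℕ → X → ℕ} {m : ℕ}
    (h : ∀ i < m, α i = α' i) : Seen S α m = Seen S α' m := by
  funext b x; exact propext (Seen_congr h)

theorem asg_congr {S : ℕ → Prop} {α α' : ℕ → X → ℕ} {m : ℕ}
    (h : ∀ i < m, α i = α' i) : asg S α m = asg S α' m := by
  funext x; unfold asg; rw [Seen_congr' h]

theorem fam_congr {D : Data X} {S : ℕ → Prop} {α α' : ℕ → X → ℕ} {m : ℕ}
    (h : ∀ i < m, α i = α' i) : fam D S α m = fam D S α' m := by
  unfold fam Agr; rw [asg_congr h, Seen_congr' h]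

theorem Kown_congr {D : Data X} {S : ℕ → Prop} {α α' : ℕ → X → ℕ} {m : ℕ}
    (h : ∀ i ≤ m, α i = α' i) : Kown D S α m = Kown D S α' m := by
  have h' : ∀ i < m, α i = α' i := fun i hi => h i hi.le
  simp only [Kown, fam_congr h', asg_congr h', Seen_congr' h', h m le_rfl]

theorem Knb_congr {D : Data X} {τ β : ℝ} {S : ℕ → Prop} {α α' : ℕ → X → ℕ} {m : ℕ}
    (h : ∀ i ≤ m, α i = α' i) : Knb D τ β S α m = Knb D τ β S α' m := by
  have h' : ∀ i < m, α i = α' i := fun i hi => h i hi.le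
  simp only [Knb, Seen_congr' h', h m le_rfl]

theorem Lmix_congr {D : Data X} {τ β : ℝ} {h : ℕ} {ad : ℕ → ℕ → Prop} {α α' : ℕ → X → ℕ}
    {m : ℕ} (hh : ∀ i ≤ m, α i = α' i) : Lmix D τ β h ad α m = Lmix D τ β h ad α' m := by
  simp only [Lmix, Kown_congr hh, Knb_congr hh]

/-- The random model: `Ω` raw outcomes at each coordinate with values `val`. -/
structure Model (D : Data X) (Ω : Type) [Fintype Ω] (val : X → Ω → ℕ) : Prop where
  hM : 2 < D.M
  dist : ∀ x, ValDist Ω D.M (D.hv x) (val x)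
  disj : ∀ A, ((D.Fam A : Set (Finset X))).PairwiseDisjoint id
  light : ∀ A, ∀ T ∈ D.Fam A, ∀ x ∈ T, ¬ D.hv x
  card3 : ∀ A, ∀ T ∈ D.Fam A, T.card ≤ 3

variable {Ω : Type} [Fintype Ω] {val : X → Ω → ℕ} {D : Data X}

theorem sum_Kown_le (hm : Model D Ω val) (S : ℕ → Prop) (α : ℕ → X → ℕ) (m : ℕ) :
    ∑ r : X → Ω, Kown D S (Function.update α m (fun x => val x (r x))) m
      ≤ ∏ x, (D.M * pr D.M (D.hv x)) := by
  classical
  have hM := hm.hM
  have hp0 : 0 < 1 / (D.M - 1) := by apply div_pos one_pos; linarith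
  have hp1 : 1 / (D.M - 1) < 1 := by rw [div_lt_one] <;> linarith
  set p := 1 / (D.M - 1) with hp
  have hlt : ∀ i < m, ∀ a, Function.update α m a i = α i := by
    intro i hi a; rw [Function.update_of_ne (by omega)]
  have e1 : ∀ a, Seen S (Function.update α m a) m = Seen S α m :=
    fun a => Seen_congr' (fun i hi => hlt i hi a)
  have e2 : ∀ a, asg S (Function.update α m a) m = asg S α m :=
    fun a => asg_congr (fun i hi => hlt i hi a)
  have e3 : ∀ a, fam D S (Function.update α m a) m = fam D S α m :=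
    fun a => fam_congr (fun i hi => hlt i hi a)
  simp only [Kown, e1, e2, e3, Function.update_self]
  rw [← Finset.sum_mul]
  set F := fam D S α m with hF
  have hFsub : ∀ T ∈ F, T ∈ D.Fam (asg S α m) ∧ ∀ x ∈ T, Agr S α m x := by
    intro T hT; rw [hF, fam, mem_filter] at hT; exact hT
  have hdis : (F : Set (Finset X)).PairwiseDisjoint id :=
    (hm.disj (asg S α m)).subset (fun T hT => (hFsub T hT).1)
  have key := sum_prod_blocks
    (e := fun x ω => if val x ω = asg S α m x then (1 : ℝ) else 0) (p := p) (F := F)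
    (fun x ω => Lown D.M (D.hv x) (Seen S α m 0 x) (Seen S α m 1 x) (val x ω)) hdis (by
      intro T hT x hx
      obtain ⟨hT1, hT2⟩ := hFsub T hT
      refine sum_Lown_ind hM (hm.dist x) (hm.light _ T hT1 x hx) (hT2 x hx) _ ?_ ?_
      · intro h0
        have := (hT2 x hx).1 h0
        simp [asg, this]
      · intro h1; simp [asg, h1])
  rw [key]
  have hq0 : 0 < 1 - p ^ 3 := by
    have : p ^ 3 < 1 := pow_lt_one₀ hp0.le hp1 (by norm_num)
    linarith
  have hprod : ∏ T ∈ F, (1 - p ^ T.card) ≤ (1 - p ^ 3) ^ F.card := by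
    rw [← Finset.prod_const]
    apply Finset.prod_le_prod
    · intro T _
      have : p ^ T.card ≤ 1 := pow_le_one₀ hp0.le hp1.le
      linarith
    · intro T hT
      have := hm.card3 _ T (hFsub T hT).1
      have h2 : p ^ 3 ≤ p ^ T.card := pow_le_pow_of_le_one hp0.le hp1.le this
      linarith
  have hsum : ∏ x, ∑ ω, Lown D.M (D.hv x) (Seen S α m 0 x) (Seen S α m 1 x) (val x ω)
      ≤ ∏ x, (D.M * pr D.M (D.hv x)) := by
    apply Finset.prod_le_prod
    · intro x _; exact Finset.sum_nonneg (fun ω _ => Lown_nonneg hM _)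
    · intro x _; exact sum_Lown_le hM (hm.dist x)
  have hsum0 : 0 ≤ ∏ x, ∑ ω, Lown D.M (D.hv x) (Seen S α m 0 x) (Seen S α m 1 x) (val x ω) :=
    Finset.prod_nonneg (fun x _ => Finset.sum_nonneg (fun ω _ => Lown_nonneg hM _))
  calc _ ≤ (∏ x, ∑ ω, Lown D.M (D.hv x) (Seen S α m 0 x) (Seen S α m 1 x) (val x ω)) *
        (1 - p ^ 3) ^ F.card * ((1 - p ^ 3)⁻¹) ^ F.card := by
        apply mul_le_mul_of_nonneg_right
        · exact mul_le_mul_of_nonneg_left hprod hsum0
        · positivity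
    _ = ∏ x, ∑ ω, Lown D.M (D.hv x) (Seen S α m 0 x) (Seen S α m 1 x) (val x ω) := by
        rw [mul_assoc, ← mul_pow, mul_inv_cancel₀ hq0.ne', one_pow, mul_one]
    _ ≤ _ := hsum

theorem Kown_nonneg (hM : 2 < D.M) (S : ℕ → Prop) (α : ℕ → X → ℕ) (m : ℕ) :
    0 ≤ Kown D S α m := by
  classical
  have hp0 : 0 < 1 / (D.M - 1) := by apply div_pos one_pos; linarith
  have hp1 : 1 / (D.M - 1) < 1 := by rw [div_lt_one] <;> linarith
  have hq0 : 0 < 1 - (1 / (D.M - 1)) ^ 3 := by
    have : (1 / (D.M - 1)) ^ 3 < 1 := pow_lt_one₀ hp0.le hp1 (by norm_num)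
    linarith
  unfold Kown
  apply mul_nonneg (mul_nonneg _ _) (pow_nonneg (inv_nonneg.2 hq0.le) _)
  · exact Finset.prod_nonneg (fun x _ => Lown_nonneg hM _)
  · apply Finset.prod_nonneg
    intro T _
    have : ∏ x ∈ T, (if α m x = asg S α m x then (1 : ℝ) else 0) ≤ 1 := by
      apply Finset.prod_le_one
      · intro x _; split_ifs <;> norm_num
      · intro x _; split_ifs <;> norm_num
    linarith

theorem Knb_nonneg {τ β : ℝ} (hM : 2 < D.M) (hτ0 : 0 ≤ τ) (hτ : τ ≤ 1) (hβ0 : 0 ≤ β)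
    (hβ : β ≤ 1) (S : ℕ → Prop) (α : ℕ → X → ℕ) (m : ℕ) : 0 ≤ Knb D τ β S α m :=
  Finset.prod_nonneg (fun _ _ => Lnb_nonneg hM hτ0 hτ hβ0 hβ _)

theorem sum_Knb_le {τ β : ℝ} (hm : Model D Ω val) (hτ0 : 0 ≤ τ) (hτ : τ ≤ 1) (hβ0 : 0 ≤ β)
    (hβ : β ≤ 1) (S : ℕ → Prop) (α : ℕ → X → ℕ) (m : ℕ) :
    ∑ r : X → Ω, Knb D τ β S (Function.update α m (fun x => val x (r x))) m
      ≤ ∏ x, (D.M * pr D.M (D.hv x)) := by
  classical
  have hM := hm.hM
  have e1 : ∀ a, Seen S (Function.update α m a) m = Seen S α m :=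
    fun a => Seen_congr' (fun i hi => by rw [Function.update_of_ne (by omega)])
  simp only [Knb, e1, Function.update_self]
  have := Finset.prod_univ_sum (fun _ : X => (univ : Finset Ω))
    (fun x ω => Lnb D.M τ β (D.hv x) (Seen S α m 0 x) (Seen S α m 1 x) (val x ω))
  rw [Fintype.piFinset_univ] at this
  rw [← this]
  apply Finset.prod_le_prod
  · intro x _; exact Finset.sum_nonneg (fun ω _ => Lnb_nonneg hM hτ0 hτ hβ0 hβ _)
  · intro x _; exact sum_Lnb_le hM (hm.dist x)

theorem pr_pos {M : ℝ} (hM : 2 < M) (hv : Prop) : 0 < pr M hv := by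
  unfold pr; split_ifs
  · norm_num
  · exact div_pos (by linarith) (by linarith)

theorem sum_Lmix_le {τ β : ℝ} (hm : Model D Ω val) (hτ0 : 0 ≤ τ) (hτ : τ ≤ 1) (hβ0 : 0 ≤ β)
    (hβ : β ≤ 1) (h : ℕ) (ad : ℕ → ℕ → Prop) (α : ℕ → X → ℕ) (m : ℕ) :
    ∑ r : X → Ω, Lmix D τ β h ad (Function.update α m (fun x => val x (r x))) m
      ≤ ∏ x, (D.M * pr D.M (D.hv x)) := by
  classical
  have hM := hm.hM
  set P := ∏ x, (D.M * pr D.M (D.hv x)) with hP
  have hP0 : 0 ≤ P := Finset.prod_nonneg (fun x _ =>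
    mul_nonneg (by linarith) (pr_pos hM _).le)
  unfold Lmix
  rw [← Finset.sum_div, div_le_iff₀ (by positivity), Finset.sum_add_distrib, Finset.sum_comm]
  have h1 := sum_Kown_le hm (Bk ad m) α m
  have h2 : ∑ u ∈ (range h).filter (fun u => m < u ∧ ad m u), ∑ r : X → Ω,
      Knb D τ β (Bk ad u) (Function.update α m (fun x => val x (r x))) m ≤ h * P := by
    calc _ ≤ ∑ u ∈ (range h).filter (fun u => m < u ∧ ad m u), P :=
          Finset.sum_le_sum (fun u _ => sum_Knb_le hm hτ0 hτ hβ0 hβ _ _ _)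
      _ = ((range h).filter (fun u => m < u ∧ ad m u)).card * P := by
          rw [Finset.sum_const, nsmul_eq_mul]
      _ ≤ h * P := by
          apply mul_le_mul_of_nonneg_right _ hP0
          have := Finset.card_filter_le (range h) (fun u => m < u ∧ ad m u)
          rw [card_range] at this
          exact_mod_cast this
  linarith

theorem Lmix_nonneg {τ β : ℝ} (hM : 2 < D.M) (hτ0 : 0 ≤ τ) (hτ : τ ≤ 1) (hβ0 : 0 ≤ β)
    (hβ : β ≤ 1) (h : ℕ) (ad : ℕ → ℕ → Prop) (α : ℕ → X → ℕ) (m : ℕ) :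
    0 ≤ Lmix D τ β h ad α m :=
  div_nonneg (add_nonneg (Kown_nonneg hM _ _ _)
    (Finset.sum_nonneg (fun _ _ => Knb_nonneg hM hτ0 hτ hβ0 hβ _ _ _))) (by positivity)

/-- Values of a raw tuple. -/
def vals (val : X → Ω → ℕ) {t : ℕ} (r : Fin t → X → Ω) : ℕ → X → ℕ :=
  fun i x => if h : i < t then val x (r ⟨i, h⟩ x) else 0

/-- Chain rule: the expected product of the mixture codes. -/
theorem sum_chain_le {τ β : ℝ} (hm : Model D Ω val) (hτ0 : 0 ≤ τ) (hτ : τ ≤ 1) (hβ0 : 0 ≤ β)
    (hβ : β ≤ 1) (h : ℕ) (ad : ℕ → ℕ → Prop) (t : ℕ) :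
    ∑ r : Fin t → X → Ω, ∏ i ∈ range t, Lmix D τ β h ad (vals val r) i
      ≤ (∏ x, (D.M * pr D.M (D.hv x))) ^ t := by
  classical
  set P := ∏ x, (D.M * pr D.M (D.hv x)) with hP
  have hM := hm.hM
  have hP0 : 0 ≤ P := Finset.prod_nonneg (fun x _ =>
    mul_nonneg (by linarith) (pr_pos hM _).le)
  induction t with
  | zero => simp
  | succ t ih =>
    have e := (Fin.snocEquiv (fun _ : Fin (t + 1) => X → Ω)).sum_comp
      (fun r => ∏ i ∈ range (t + 1), Lmix D τ β h ad (vals val r) i)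
    rw [← e, Fintype.sum_prod_type, Finset.sum_comm]
    have key : ∀ (r : Fin t → X → Ω) (a : X → Ω), ∀ i < t,
        vals val (Fin.snoc (α := fun _ : Fin (t + 1) => X → Ω) r a) i = vals val r i := by
      intro r a i hi
      funext x
      simp only [vals, hi, Nat.lt_succ_of_lt hi, dif_pos]
      simp [Fin.snoc, hi]
    have key2 : ∀ (r : Fin t → X → Ω) (a : X → Ω),
        vals val (Fin.snoc (α := fun _ : Fin (t + 1) => X → Ω) r a) t
          = fun x => val x (a x) := by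
      intro r a
      funext x
      simp only [vals, Nat.lt_succ_self, dif_pos]
      simp [Fin.snoc]
    have step : ∀ (r : Fin t → X → Ω), ∑ a : X → Ω,
        ∏ i ∈ range (t + 1), Lmix D τ β h ad
          (vals val (Fin.snoc (α := fun _ : Fin (t + 1) => X → Ω) r a)) i
        ≤ (∏ i ∈ range t, Lmix D τ β h ad (vals val r) i) * P := by
      intro r
      have : ∀ a : X → Ω, ∏ i ∈ range (t + 1), Lmix D τ β h ad
          (vals val (Fin.snoc (α := fun _ : Fin (t + 1) => X → Ω) r a)) i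
          = (∏ i ∈ range t, Lmix D τ β h ad (vals val r) i) *
            Lmix D τ β h ad (Function.update (vals val r) t (fun x => val x (a x))) t := by
        intro a
        rw [Finset.prod_range_succ]
        congr 1
        · apply Finset.prod_congr rfl
          intro i hi
          rw [mem_range] at hi
          exact Lmix_congr (fun j hj => key r a j (by omega))
        · apply Lmix_congr
          intro j hj
          rcases Nat.lt_or_eq_of_le hj with hj | hj
          · rw [key r a j hj, Function.update_of_ne (by omega)]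
          · subst hj; rw [key2 r a, Function.update_self]
      rw [Finset.sum_congr rfl (fun a _ => this a), ← Finset.mul_sum]
      apply mul_le_mul_of_nonneg_left (sum_Lmix_le hm hτ0 hτ hβ0 hβ h ad _ t)
      exact Finset.prod_nonneg (fun i _ => Lmix_nonneg hM hτ0 hτ hβ0 hβ _ _ _ _)
    calc _ = ∑ r : Fin t → X → Ω, ∑ a : X → Ω,
        ∏ i ∈ range (t + 1), Lmix D τ β h ad
          (vals val (Fin.snoc (α := fun _ : Fin (t + 1) => X → Ω) r a)) i := by
          rfl
      _ ≤ ∑ r : Fin t → X → Ω, (∏ i ∈ range t, Lmix D τ β h ad (vals val r) i) * P :=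
          Finset.sum_le_sum (fun r _ => step r)
      _ = (∑ r : Fin t → X → Ω, ∏ i ∈ range t, Lmix D τ β h ad (vals val r) i) * P := by
          rw [Finset.sum_mul]
      _ ≤ P ^ t * P := mul_le_mul_of_nonneg_right ih hP0
      _ = P ^ (t + 1) := (pow_succ _ _).symm

end

end Pool.Agent.H588R2.Dks
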