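import Pool.Agent.H588R2.DksDet

/-!
Density bound for consistent tuples whose code products are small.
-/

set_option linter.unusedSectionVars false

namespace Pool.Agent.H588R2.Dks

open Finset

noncomputable section

variable {X : Type} [Fintype X] [DecidableEq X]

/-- The family of sets certifies invalidity, and is large for every assignment compatible with
a valid string on the heavy coordinates. -/
structure Gap (D : Data X) (Valid : (X → ℕ) → Prop) (E : ℝ) : Prop where
  disj : ∀ A, ((D.Fam A : Set (Finset X))).PairwiseDisjoint id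
  light : ∀ A, ∀ T ∈ D.Fam A, ∀ x ∈ T, ¬ D.hv x
  bad : ∀ A T a, T ∈ D.Fam A → (∀ x ∈ T, a x = A x) → (∀ x, D.hv x → a x = A x) → ¬ Valid a
  big : ∀ A a, (∀ x, A x ≤ 1) → Valid a → (∀ x, D.hv x → a x = A x) →
    E ≤ ((D.Fam A).card : ℝ)

variable {D : Data X} {Valid : (X → ℕ) → Prop} {S : ℕ → Prop} {α : ℕ → X → ℕ} {u : ℕ}

theorem fam_card_ge {E : ℝ} (hG : Gap D Valid E) (h : Cons D Valid S α u) :
    E - ∑ x, Dks.bad D S α u x ≤ ((fam D S α u).card : ℝ) := by
  classical
  set A := asg S α u with hA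
  have h1 : E ≤ ((D.Fam A).card : ℝ) := by
    apply hG.big A (α u) _ h.val
    · intro x hx; exact (h.asg_eq hx).symm
    · intro x; rw [hA]; unfold asg; split_ifs <;> omega
  have hbad : ∑ x, Dks.bad D S α u x
      = ((univ.filter (fun x => ¬ D.hv x ∧ ¬ Agr S α u x)).card : ℝ) := by
    unfold Dks.bad
    rw [Finset.sum_boole]
  have h2 : (D.Fam A).card = (fam D S α u).card +
      ((D.Fam A).filter (fun T => ¬ ∀ x ∈ T, Agr S α u x)).card := by
    unfold fam
    rw [← hA]
    exact (Finset.card_filter_add_card_filter_not _).symm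
  have h3 : ((D.Fam A).filter (fun T => ¬ ∀ x ∈ T, Agr S α u x)).card
      ≤ (univ.filter (fun x => ¬ D.hv x ∧ ¬ Agr S α u x)).card := by
    have hex : ∀ T ∈ (D.Fam A).filter (fun T => ¬ ∀ x ∈ T, Agr S α u x),
        ∃ x, x ∈ T ∧ ¬ Agr S α u x := by
      intro T hT
      rw [mem_filter] at hT
      by_contra hcon
      push Not at hcon
      exact hT.2 hcon
    rcases isEmpty_or_nonempty X with hX | hX
    · have : (D.Fam A).filter (fun T => ¬ ∀ x ∈ T, Agr S α u x) = ∅ := by
        apply Finset.eq_empty_of_forall_notMem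
        intro T hT
        obtain ⟨x, _⟩ := hex T hT
        exact hX.elim x
      rw [this]; simp
    choose! g hg using hex
    apply Finset.card_le_card_of_injOn g
    · intro T hT
      have hT' := hT
      rw [Finset.mem_coe, mem_filter] at hT'
      rw [Finset.mem_coe, mem_filter]
      exact ⟨mem_univ _, hG.light A T hT'.1 _ (hg T hT).1, (hg T hT).2⟩
    · intro T hT T' hT' heq
      by_contra hne
      have hT1 := hT; have hT1' := hT'
      rw [Finset.mem_coe, mem_filter] at hT1 hT1'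
      have hd : Disjoint T T' := hG.disj A hT1.1 hT1'.1 hne
      have m1 := (hg T hT).1
      have m2 := (hg T' hT').1
      rw [← heq] at m2
      exact Finset.disjoint_left.1 hd m1 m2
  rw [hbad]
  have h2' : ((D.Fam A).card : ℝ) = (fam D S α u).card +
      ((D.Fam A).filter (fun T => ¬ ∀ x ∈ T, Agr S α u x)).card := by exact_mod_cast h2
  have h3' : (((D.Fam A).filter (fun T => ¬ ∀ x ∈ T, Agr S α u x)).card : ℝ)
      ≤ (univ.filter (fun x => ¬ D.hv x ∧ ¬ Agr S α u x)).card := by exact_mod_cast h3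
  linarith

theorem fam_factor_one {E : ℝ} (hG : Gap D Valid E) (h : Cons D Valid S α u) :
    ∏ T ∈ fam D S α u, (1 - ∏ x ∈ T, if α u x = asg S α u x then (1 : ℝ) else 0) = 1 := by
  classical
  apply Finset.prod_eq_one
  intro T hT
  rw [fam, mem_filter] at hT
  have : ∏ x ∈ T, (if α u x = asg S α u x then (1 : ℝ) else 0) = 0 := by
    by_contra hne
    rw [← ne_eq, Finset.prod_ne_zero_iff] at hne
    apply hG.bad (asg S α u) T (α u) hT.1 _ (fun x hx => (h.asg_eq hx).symm) h.val
    intro x hx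
    by_contra hc
    exact hne x hx (by simp [hc])
  rw [this, sub_zero]

theorem Kown_pos_of {E : ℝ} (hM : 2 < D.M) (hG : Gap D Valid E) (h : Cons D Valid S α u) :
    0 < Kown D S α u := by
  have hp0 : 0 < 1 / (D.M - 1) := by apply div_pos one_pos; linarith
  have hp1 : 1 / (D.M - 1) < 1 := by rw [div_lt_one] <;> linarith
  have hq0 : 0 < 1 - (1 / (D.M - 1)) ^ 3 := by
    have : (1 / (D.M - 1)) ^ 3 < 1 := pow_lt_one₀ hp0.le hp1 (by norm_num)
    linarith
  unfold Kown
  rw [fam_factor_one hG h, mul_one]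
  exact mul_pos (Finset.prod_pos (fun x _ => Lown_pos_of hM h x)) (pow_pos (inv_pos.2 hq0) _)

theorem Knb_pos_of {τ β : ℝ} (hM : 2 < D.M) (hτ0 : 0 < τ) (hτ1 : τ ≤ 1) (hβ0 : 0 < β)
    (hβ : β ≤ 1 / 2) (h : Cons D Valid S α u) {i : ℕ} (hi : S i) :
    0 < Knb D τ β S α i :=
  Finset.prod_pos (fun x _ => Lnb_pos_of hM hτ0 hτ1 hβ0 hβ h hi x)

open Classical in
theorem vertex_bound {E β : ℝ} (hM : 3 ≤ D.M) (hβ0 : 0 < β) (hβ : β ≤ 1 / 2)
    (hG : Gap D Valid E) (h : Cons D Valid S α u) :
    (cnt S u : ℝ) * ((1 / (D.M - 1)) ^ 3 * E - 2 * β * Fintype.card X)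
        + Fintype.card X * (Real.log ((1 / (4 * (D.M - 1))) / 2) + Real.log β)
      ≤ cnt S u * Real.log (Kown D S α u)
        + ∑ i ∈ (range u).filter S, Real.log (Knb D (1 / (4 * (D.M - 1))) β S α i) := by
  set p := 1 / (D.M - 1) with hp
  set τ := 1 / (4 * (D.M - 1)) with hτ
  have hM1 : 0 < D.M - 1 := by linarith
  have hp0 : 0 < p := by rw [hp]; positivity
  have hτ0 : 0 < τ := by rw [hτ]; positivity
  have hτp : τ = p / 4 := by rw [hτ, hp]; field_simp
  have hp1 : p ≤ 1 / 2 := by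
    rw [hp]; apply one_div_le_one_div_of_le <;> linarith
  have hτ1 : τ ≤ 1 := by rw [hτp]; linarith
  have hM2 : 2 < D.M := by linarith
  have hb0 : (0 : ℝ) ≤ cnt S u := Nat.cast_nonneg _
  have hq0 : 0 < 1 - p ^ 3 := by
    have : p ^ 3 < 1 := pow_lt_one₀ hp0.le (by linarith) (by norm_num)
    linarith
  -- log of Kown
  have hK : Real.log (Kown D S α u) =
      ∑ x, Real.log (Lown D.M (D.hv x) (Seen S α u 0 x) (Seen S α u 1 x) (α u x))
        + (fam D S α u).card * Real.log ((1 - p ^ 3)⁻¹) := by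
    unfold Kown
    rw [fam_factor_one hG h, mul_one, Real.log_mul, Real.log_prod, Real.log_pow]
    · intro x _; exact (Lown_pos_of hM2 h x).ne'
    · exact (Finset.prod_pos (fun x _ => Lown_pos_of hM2 h x)).ne'
    · positivity
  have hN : ∑ i ∈ (range u).filter S, Real.log (Knb D τ β S α i)
      = ∑ x, Tsum D.M τ β (D.hv x) S α u x := by
    unfold Tsum
    rw [Finset.sum_comm]
    apply Finset.sum_congr rfl
    intro i hi
    rw [mem_filter] at hi
    unfold Knb
    rw [Real.log_prod]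
    intro x _; exact (Lnb_pos_of hM2 hτ0 hτ1 hβ0 hβ h hi.2 x).ne'
  have hl : p ^ 3 ≤ Real.log ((1 - p ^ 3)⁻¹) := by
    rw [Real.log_inv]
    have := Real.log_le_sub_one_of_pos hq0
    linarith
  have hsum := Finset.sum_le_sum (fun x (_ : x ∈ univ) => coord_bound (D := D) (Valid := Valid)
    (S := S) (α := α) (u := u) hM hβ0 hβ h x)
  rw [← hp, ← hτ] at hsum
  simp only [Finset.sum_add_distrib, Finset.sum_sub_distrib, ← Finset.mul_sum,
    Finset.sum_const, card_univ, nsmul_eq_mul] at hsum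
  rw [hN, hK]
  have hcard := fam_card_ge hG h
  set B := ∑ x, Dks.bad D S α u x with hB
  have hB0 : 0 ≤ B := Finset.sum_nonneg (fun x _ => by unfold Dks.bad; split_ifs <;> norm_num)
  have hF : p ^ 3 * (E - B) ≤ (fam D S α u).card * Real.log ((1 - p ^ 3)⁻¹) := by
    calc p ^ 3 * (E - B) ≤ p ^ 3 * (fam D S α u).card :=
          mul_le_mul_of_nonneg_left hcard (by positivity)
      _ = (fam D S α u).card * p ^ 3 := mul_comm _ _
      _ ≤ _ := mul_le_mul_of_nonneg_left hl (Nat.cast_nonneg _)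
  have hpp : p ^ 3 * B ≤ p ^ 2 / 2 * B := by
    apply mul_le_mul_of_nonneg_right _ hB0
    nlinarith [pow_pos hp0 2]
  have := mul_le_mul_of_nonneg_left (add_le_add hF hpp) hb0
  nlinarith

/-- Abel summation. -/
theorem abel_bound (d : ℕ → ℕ) (x : ℕ → ℝ) (Δ : ℝ) (h : ℕ)
    (hd : ∀ i j, i ≤ j → j < h → d j ≤ d i)
    (hx : ∀ t ≤ h, ∑ i ∈ range t, x i ≤ Δ) :
    ∑ i ∈ range h, (d i : ℝ) * x i ≤ d 0 * Δ := by
  have hΔ : 0 ≤ Δ := by simpa using hx 0 (Nat.zero_le _)
  -- claim: for all t ≤ h, with t ≥ 1, ∑_{i<t} d_i x_i ≤ (d 0 - d (t-1)) Δ + d (t-1) ∑_{i<t} x_i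
  have key : ∀ t, t + 1 ≤ h → ∑ i ∈ range (t + 1), (d i : ℝ) * x i
      ≤ (d 0 - d t) * Δ + d t * ∑ i ∈ range (t + 1), x i := by
    intro t
    induction t with
    | zero => intro _; simp
    | succ t ih =>
      intro ht
      rw [Finset.sum_range_succ, Finset.sum_range_succ (fun i => x i) (t + 1)]
      have h1 := ih (by omega)
      have h2 := hx (t + 1) (by omega)
      have h3 : (d (t + 1) : ℝ) ≤ d t := by exact_mod_cast hd t (t + 1) (by omega) (by omega)
      nlinarith
  rcases Nat.eq_zero_or_pos h with rfl | hpos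
  · simpa using mul_nonneg (Nat.cast_nonneg _) hΔ
  · obtain ⟨t, rfl⟩ : ∃ t, h = t + 1 := ⟨h - 1, by omega⟩
    have h1 := key t le_rfl
    have h2 := hx (t + 1) le_rfl
    have h3 : (0 : ℝ) ≤ d t := Nat.cast_nonneg _
    nlinarith

open Classical in
/-- Degree in the graph `ad` on `0, …, h - 1`. -/
def dg (h : ℕ) (ad : ℕ → ℕ → Prop) (i : ℕ) : ℕ := ((range h).filter (fun j => ad i j)).card

open Classical in
theorem density_bound {E β δ : ℝ} (hM : 3 ≤ D.M) (hβ0 : 0 < β) (hβ : β ≤ 1 / 2)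
    (hG : Gap D Valid E) (h : ℕ) (ad : ℕ → ℕ → Prop)
    (hsymm : ∀ i j, ad i j → ad j i) (hirr : ∀ i, ¬ ad i i)
    (hanti : ∀ i j, i ≤ j → j < h → dg h ad j ≤ dg h ad i)
    (hpos : ∀ i < h, 0 < dg h ad i)
    (hcons : ∀ u < h, (∃ i, Bk ad u i) → Cons D Valid (Bk ad u) α u)
    (hsmall : ∀ t ≤ h, ∏ i ∈ range t, Lmix D (1 / (4 * (D.M - 1))) β h ad α i ≤ Real.exp δ) :
    (∑ u ∈ range h, (cnt (Bk ad u) u : ℝ)) *
        ((1 / (D.M - 1)) ^ 3 * E - 2 * β * Fintype.card X - 2 * Real.log (h + 1))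
      ≤ h * (δ - Fintype.card X * (Real.log ((1 / (4 * (D.M - 1))) / 2) + Real.log β)) := by
  set p := 1 / (D.M - 1) with hp
  set τ := 1 / (4 * (D.M - 1)) with hτ
  have hM1 : 0 < D.M - 1 := by linarith
  have hp0 : 0 < p := by rw [hp]; positivity
  have hτ0 : 0 < τ := by rw [hτ]; positivity
  have hτp : τ = p / 4 := by rw [hτ, hp]; field_simp
  have hp1 : p ≤ 1 / 2 := by
    rw [hp]; apply one_div_le_one_div_of_le <;> linarith
  have hτ1 : τ ≤ 1 := by rw [hτp]; linarith
  have hM2 : 2 < D.M := by linarith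
  set n : ℝ := (Fintype.card X : ℝ) with hn
  have hn0 : 0 ≤ n := Nat.cast_nonneg _
  set κ := Real.log (τ / 2) + Real.log β with hκ
  have hκ0 : κ ≤ 0 := by
    have hlb : Real.log β ≤ 0 := Real.log_nonpos hβ0.le (by linarith)
    have hlt : Real.log (τ / 2) ≤ 0 := Real.log_nonpos (by positivity) (by linarith)
    linarith
  set x : ℕ → ℝ := fun i => Real.log (Lmix D τ β h ad α i) with hx
  have hh1 : (0 : ℝ) < h + 1 := by positivity
  have hlogh : 0 ≤ Real.log (h + 1) := Real.log_nonneg (by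
    have : (0 : ℝ) ≤ h := Nat.cast_nonneg _
    linarith)
  have hKn : ∀ u m, 0 ≤ Knb D τ β (Bk ad u) α m :=
    fun u m => Knb_nonneg hM2 hτ0.le hτ1 hβ0.le (by linarith) _ _ _
  -- lower bounds on `x`
  have hx1 : ∀ u < h, (∃ i, Bk ad u i) →
      Real.log (Kown D (Bk ad u) α u) - Real.log (h + 1) ≤ x u := by
    intro u hu hne
    have hK := Kown_pos_of hM2 hG (hcons u hu hne)
    rw [← Real.log_div hK.ne' hh1.ne']
    apply Real.log_le_log (div_pos hK hh1)
    unfold Lmix
    apply div_le_div_of_nonneg_right _ hh1.le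
    have := Finset.sum_nonneg (fun v (_ : v ∈ (range h).filter (fun v => u < v ∧ ad u v)) =>
      hKn v u)
    linarith
  have hx2 : ∀ u < h, ∀ i, Bk ad u i →
      Real.log (Knb D τ β (Bk ad u) α i) - Real.log (h + 1) ≤ x i := by
    intro u hu i hi
    have hK := Knb_pos_of hM2 hτ0 hτ1 hβ0 hβ (hcons u hu ⟨i, hi⟩) hi
    rw [← Real.log_div hK.ne' hh1.ne']
    apply Real.log_le_log (div_pos hK hh1)
    unfold Lmix
    apply div_le_div_of_nonneg_right _ hh1.le
    have h1 := Finset.single_le_sum (fun v _ => hKn v i)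
      (show u ∈ (range h).filter (fun v => i < v ∧ ad i v) by
        rw [mem_filter, mem_range]; exact ⟨hu, hi.1, hi.2⟩)
    have h2 := Kown_nonneg hM2 (Bk ad i) α i
    linarith
  have hLpos : ∀ i < h, 0 < Lmix D τ β h ad α i := by
    intro i hi
    by_cases hb : ∃ j, Bk ad i j
    · have hK := Kown_pos_of hM2 hG (hcons i hi hb)
      unfold Lmix
      apply div_pos _ hh1
      have := Finset.sum_nonneg (fun v (_ : v ∈ (range h).filter (fun v => i < v ∧ ad i v)) =>
        hKn v i)
      linarith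
    · have := hpos i hi
      unfold dg at this
      rw [Finset.card_pos] at this
      obtain ⟨j, hj⟩ := this
      rw [mem_filter, mem_range] at hj
      have hij : i < j := by
        rcases Nat.lt_trichotomy i j with h1 | h1 | h1
        · exact h1
        · subst h1; exact absurd hj.2 (hirr i)
        · exact absurd ⟨j, h1, hsymm _ _ hj.2⟩ hb
      have hK := Knb_pos_of hM2 hτ0 hτ1 hβ0 hβ (hcons j hj.1 ⟨i, hij, hj.2⟩)
        (show Bk ad j i from ⟨hij, hj.2⟩)
      unfold Lmix
      apply div_pos _ hh1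
      have h1 := Finset.single_le_sum (fun v _ => hKn v i)
        (show j ∈ (range h).filter (fun v => i < v ∧ ad i v) by
          rw [mem_filter, mem_range]; exact ⟨hj.1, hij, hj.2⟩)
      have h2 := Kown_nonneg hM2 (Bk ad i) α i
      linarith
  -- upper bound
  have hup : ∑ i ∈ range h, (dg h ad i : ℝ) * x i ≤ dg h ad 0 * δ := by
    apply abel_bound _ _ _ _ hanti
    intro t ht
    rw [hx]
    rw [← Real.log_prod (fun i hi => (hLpos i (lt_of_lt_of_le (mem_range.1 hi) ht)).ne')]
    rw [Real.log_le_iff_le_exp]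
    · exact hsmall t ht
    · exact Finset.prod_pos (fun i hi => hLpos i (lt_of_lt_of_le (mem_range.1 hi) ht))
  have hδ : 0 ≤ δ := by
    have := hsmall 0 (Nat.zero_le _)
    simp only [range_zero, prod_empty] at this
    rwa [Real.one_le_exp_iff] at this
  have hd0 : (dg h ad 0 : ℝ) ≤ h := by
    unfold dg
    have := Finset.card_filter_le (range h) (fun j => ad 0 j)
    rw [card_range] at this
    exact_mod_cast this
  -- decomposition of the weighted sum
  have hdeg : ∀ i, i < h → dg h ad i = cnt (Bk ad i) i +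
      ((range h).filter (fun u => i < u ∧ ad i u)).card := by
    intro i hi
    unfold dg cnt Bk
    rw [← Finset.card_union_of_disjoint]
    · congr 1
      ext j
      simp only [mem_filter, mem_range, mem_union]
      constructor
      · rintro ⟨hj, haj⟩
        rcases Nat.lt_trichotomy i j with h1 | h1 | h1
        · exact Or.inr ⟨hj, h1, haj⟩
        · subst h1; exact absurd haj (hirr i)
        · exact Or.inl ⟨h1, h1, hsymm _ _ haj⟩
      · rintro (⟨h1, _, h2⟩ | ⟨h1, _, h2⟩)
        · exact ⟨by omega, hsymm _ _ h2⟩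
        · exact ⟨h1, h2⟩
    · rw [Finset.disjoint_left]
      intro j hj hj'
      simp only [mem_filter, mem_range] at hj hj'
      omega
  have hsplit : ∑ i ∈ range h, (dg h ad i : ℝ) * x i
      = ∑ u ∈ range h, ((cnt (Bk ad u) u : ℝ) * x u + ∑ i ∈ (range u).filter (Bk ad u), x i) := by
    rw [Finset.sum_add_distrib]
    have h1 : ∑ u ∈ range h, ∑ i ∈ (range u).filter (Bk ad u), x i
        = ∑ i ∈ range h, ∑ u ∈ (range h).filter (fun u => i < u ∧ ad i u), x i := by
      apply Finset.sum_comm'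
      intro u i
      simp only [mem_filter, mem_range, Bk]
      constructor
      · rintro ⟨h1, h2, h3, h4⟩; exact ⟨⟨h1, h3, h4⟩, by omega⟩
      · rintro ⟨⟨h1, h3, h4⟩, h2⟩; exact ⟨h1, h3, h3, h4⟩
    rw [h1, ← Finset.sum_add_distrib]
    apply Finset.sum_congr rfl
    intro i hi
    rw [Finset.sum_const, nsmul_eq_mul, hdeg i (mem_range.1 hi)]
    push_cast; ring
  have hlow : ∀ u ∈ range h,
      (cnt (Bk ad u) u : ℝ) * (p ^ 3 * E - 2 * β * n - 2 * Real.log (h + 1)) + n * κ
        ≤ (cnt (Bk ad u) u : ℝ) * x u + ∑ i ∈ (range u).filter (Bk ad u), x i := by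
    intro u hu
    rw [mem_range] at hu
    by_cases hb : ∃ j, Bk ad u j
    · have hv := vertex_bound hM hβ0 hβ hG (hcons u hu hb)
      rw [← hp, ← hτ, ← hn, ← hκ] at hv
      have h1 := hx1 u hu hb
      have h2 : ∑ i ∈ (range u).filter (Bk ad u), (Real.log (Knb D τ β (Bk ad u) α i)
          - Real.log (h + 1)) ≤ ∑ i ∈ (range u).filter (Bk ad u), x i := by
        apply Finset.sum_le_sum
        intro i hi
        exact hx2 u hu i (mem_filter.1 hi).2
      rw [Finset.sum_sub_distrib, Finset.sum_const, nsmul_eq_mul] at h2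
      have h3 : ((filter (Bk ad u) (range u)).card : ℝ) = cnt (Bk ad u) u := rfl
      rw [h3] at h2
      have h4 : (0 : ℝ) ≤ cnt (Bk ad u) u := Nat.cast_nonneg _
      have h5 := mul_le_mul_of_nonneg_left h1 h4
      nlinarith
    · have h0 : (range u).filter (Bk ad u) = ∅ := by
        apply Finset.filter_eq_empty_iff.2
        intro j _ hj; exact hb ⟨j, hj⟩
      have h1 : cnt (Bk ad u) u = 0 := by unfold cnt; rw [h0]; rfl
      rw [h0, h1]
      simp only [Nat.cast_zero, zero_mul, sum_empty, zero_add, add_zero]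
      exact mul_nonpos_of_nonneg_of_nonpos hn0 hκ0
  have := Finset.sum_le_sum hlow
  rw [← hsplit, Finset.sum_add_distrib, ← Finset.sum_mul, Finset.sum_const, card_range,
    nsmul_eq_mul] at this
  have h6 : (dg h ad 0 : ℝ) * δ ≤ h * δ := mul_le_mul_of_nonneg_right hd0 hδ
  linarith

end

end Pool.Agent.H588R2.Dks
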