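import Pool.Agent.H588R2.DksCode

/-!
Deterministic inequality: on a consistent tuple the codes gain.
-/

set_option linter.unusedSectionVars false
set_option linter.unusedSimpArgs false
set_option linter.unusedVariables false

namespace Pool.Agent.H588R2.Dks

open Finset

noncomputable section

variable {X : Type} [Fintype X] [DecidableEq X]

theorem Seen_succ {S : ℕ → Prop} {α : ℕ → X → ℕ} {m b : ℕ} {x : X} :
    Seen S α (m + 1) b x ↔ Seen S α m b x ∨ (S m ∧ α m x = b) := by
  constructor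
  · rintro ⟨i, hi, hS, hb⟩
    rcases Nat.lt_or_eq_of_le (Nat.lt_succ_iff.1 hi) with h | h
    · exact Or.inl ⟨i, h, hS, hb⟩
    · subst h; exact Or.inr ⟨hS, hb⟩
  · rintro (⟨i, hi, hS, hb⟩ | ⟨hS, hb⟩)
    · exact ⟨i, Nat.lt_succ_of_lt hi, hS, hb⟩
    · exact ⟨m, Nat.lt_succ_self m, hS, hb⟩

open Classical in
/-- Sum of the log-likelihoods of the neighbourhood code at the coordinate `x`. -/
def Tsum (M τ β : ℝ) (hv : Prop) (S : ℕ → Prop) (α : ℕ → X → ℕ) (m : ℕ) (x : X) : ℝ :=
  ∑ i ∈ (range m).filter S, Real.log (Lnb M τ β hv (Seen S α i 0 x) (Seen S α i 1 x) (α i x))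

open Classical in
/-- Number of members of `S` below `m`. -/
def cnt (S : ℕ → Prop) (m : ℕ) : ℕ := ((range m).filter S).card

theorem Tsum_succ_of {M τ β : ℝ} {hv : Prop} {S : ℕ → Prop} {α : ℕ → X → ℕ} {m : ℕ} {x : X}
    (h : S m) : Tsum M τ β hv S α (m + 1) x = Tsum M τ β hv S α m x +
      Real.log (Lnb M τ β hv (Seen S α m 0 x) (Seen S α m 1 x) (α m x)) := by
  classical
  unfold Tsum
  rw [Finset.range_add_one, Finset.filter_insert, if_pos h, Finset.sum_insert (by simp)]
  ring

theorem Tsum_succ_not {M τ β : ℝ} {hv : Prop} {S : ℕ → Prop} {α : ℕ → X → ℕ} {m : ℕ} {x : X}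
    (h : ¬ S m) : Tsum M τ β hv S α (m + 1) x = Tsum M τ β hv S α m x := by
  classical
  unfold Tsum
  rw [Finset.range_add_one, Finset.filter_insert, if_neg h]

theorem cnt_succ_of {S : ℕ → Prop} {m : ℕ} (h : S m) : cnt S (m + 1) = cnt S m + 1 := by
  classical
  unfold cnt
  rw [Finset.range_add_one, Finset.filter_insert, if_pos h, Finset.card_insert_of_notMem (by simp)]

theorem cnt_succ_not {S : ℕ → Prop} {m : ℕ} (h : ¬ S m) : cnt S (m + 1) = cnt S m := by
  classical
  unfold cnt
  rw [Finset.range_add_one, Finset.filter_insert, if_neg h]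

theorem log_one_sub_ge {β : ℝ} (h0 : 0 < β) (h : β ≤ 1 / 2) : -(2 * β) ≤ Real.log (1 - β) := by
  have h1 : 0 < 1 - β := by linarith
  have := Real.one_sub_inv_le_log_of_pos h1
  refine le_trans ?_ this
  have : (1 - β)⁻¹ ≤ 1 + 2 * β := by
    rw [inv_le_iff_one_le_mul₀ h1]
    nlinarith
  linarith

theorem light_inv {M τ β : ℝ} {hv : Prop} (hh : ¬ hv) (hM : 2 < M) (hτ0 : 0 < τ) (hτ1 : τ ≤ 1)
    (hβ0 : 0 < β) (hβ : β ≤ 1 / 2) (S : ℕ → Prop) (α : ℕ → X → ℕ) (x : X)
    (hle : ∀ i, S i → α i x ≤ 2) (m : ℕ) :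
    (¬ Seen S α m 0 x → ¬ Seen S α m 1 x →
      Tsum M τ β hv S α m x = cnt S m * Real.log ((M - 1 - τ) / (M - 2))) ∧
    (¬ (Seen S α m 0 x ↔ Seen S α m 1 x) →
      Real.log (τ / 2) - 2 * β * cnt S m ≤ Tsum M τ β hv S α m x) ∧
    (Seen S α m 0 x → Seen S α m 1 x →
      Real.log (τ / 2) + Real.log β - 2 * β * cnt S m + cnt S m * Real.log ((M - 1) / M)
        ≤ Tsum M τ β hv S α m x) := by
  have hg : 0 ≤ Real.log ((M - 1 - τ) / (M - 2)) := by
    apply Real.log_nonneg
    rw [le_div_iff₀ (by linarith)]; linarith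
  have hc : Real.log ((M - 1) / M) ≤ 0 := by
    apply Real.log_nonpos
    · apply div_nonneg <;> linarith
    · rw [div_le_one (by linarith)]; linarith
  have hb := log_one_sub_ge hβ0 hβ
  have hlb : Real.log β ≤ 0 := Real.log_nonpos hβ0.le (by linarith)
  induction m with
  | zero =>
    have h0 : ∀ b, ¬ Seen S α 0 b x := by
      rintro b ⟨i, hi, _⟩; omega
    simp [h0, Tsum, cnt]
  | succ m ih =>
    obtain ⟨i1, i2, i3⟩ := ih
    have hcn : (0 : ℝ) ≤ cnt S m := Nat.cast_nonneg _
    by_cases hS : S m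
    · rw [Tsum_succ_of hS, cnt_succ_of hS, Seen_succ, Seen_succ]
      push_cast
      have ha := hle m hS
      simp only [hS, true_and]
      have ha' : α m x = 0 ∨ α m x = 1 ∨ α m x = 2 := by omega
      by_cases s0 : Seen S α m 0 x <;> by_cases s1 : Seen S α m 1 x <;>
        rcases ha' with ha | ha | ha <;>
        simp only [s0, s1, ha, Lnb, hh, if_true, if_false, true_or, or_true, false_or, or_false,
          not_true_eq_false, not_false_eq_true, forall_true_left, iff_true, iff_false, false_imp_iff,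
          true_iff, false_iff, Real.log_one,
          and_true, true_and, not_not, reduceCtorEq, OfNat.ofNat_ne_zero, OfNat.ofNat_ne_one,
          OfNat.zero_ne_ofNat, OfNat.one_ne_ofNat, one_ne_zero, zero_ne_one] at i1 i2 i3 ⊢ <;>
        nlinarith
    · rw [Tsum_succ_not hS, cnt_succ_not hS, Seen_succ, Seen_succ]
      simp only [hS, false_and, or_false]
      exact ⟨i1, i2, i3⟩

theorem heavy_inv {M τ β : ℝ} {hv : Prop} (hh : hv) (S : ℕ → Prop) (α : ℕ → X → ℕ) (x : X)
    {v : ℕ} (hv1 : v ≤ 1) (hall : ∀ i, S i → α i x = v) (m : ℕ) :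
    (¬ Seen S α m v x → Tsum M τ β hv S α m x = 0) ∧
    (Seen S α m v x → Tsum M τ β hv S α m x = Real.log (1 / 2)) ∧
    (∀ b, b ≠ v → ¬ Seen S α m b x) := by
  induction m with
  | zero =>
    have h0 : ∀ b, ¬ Seen S α 0 b x := by
      rintro b ⟨i, hi, _⟩; omega
    simp [h0, Tsum]
  | succ m ih =>
    obtain ⟨i1, i2, i3⟩ := ih
    by_cases hS : S m
    · rw [Tsum_succ_of hS, Seen_succ]
      have ha := hall m hS
      refine ⟨fun h => absurd (Or.inr ⟨hS, ha⟩) h, fun _ => ?_, ?_⟩
      · have hv' : v = 0 ∨ v = 1 := by omega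
        rcases hv' with rfl | rfl
        · have h1 := i3 1 (by norm_num)
          by_cases s0 : Seen S α m 0 x
          · rw [i2 s0]; simp [Lnb, hh, h1, s0, ha]
          · rw [i1 s0]; simp [Lnb, hh, h1, s0, ha]
        · have h0 := i3 0 (by norm_num)
          by_cases s1 : Seen S α m 1 x
          · rw [i2 s1]; simp [Lnb, hh, h0, s1, ha]
          · rw [i1 s1]; simp [Lnb, hh, h0, s1, ha]
      · intro b hb
        rw [Seen_succ]
        rintro (h | ⟨_, h⟩)
        · exact i3 b hb h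
        · exact hb (by rw [← h, ha])
    · rw [Tsum_succ_not hS, Seen_succ]
      simp only [hS, false_and, or_false]
      refine ⟨i1, i2, ?_⟩
      intro b hb
      rw [Seen_succ]
      rintro (h | ⟨h, _⟩)
      · exact i3 b hb h
      · exact hS h

/-- Consistency of the vertex `u` with its set `S` of back-neighbours. -/
structure Cons (D : Data X) (Valid : (X → ℕ) → Prop) (S : ℕ → Prop) (α : ℕ → X → ℕ)
    (u : ℕ) : Prop where
  ne : ∃ i, S i
  lt : ∀ i, S i → i < u
  le2 : ∀ i, S i ∨ i = u → ∀ x, α i x ≤ 2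
  hv1 : ∀ i, S i ∨ i = u → ∀ x, D.hv x → α i x ≤ 1
  nc : ∀ i, S i → ∀ x, α i x + α u x ≠ 1
  val : Valid (α u)

variable {D : Data X} {Valid : (X → ℕ) → Prop} {S : ℕ → Prop} {α : ℕ → X → ℕ} {u : ℕ}

theorem Cons.heavy_eq (h : Cons D Valid S α u) {i : ℕ} (hi : S i) {x : X} (hx : D.hv x) :
    α i x = α u x := by
  have h1 := h.hv1 i (Or.inl hi) x hx
  have h2 := h.hv1 u (Or.inr rfl) x hx
  have h3 := h.nc i hi x
  omega

theorem Cons.not_one (h : Cons D Valid S α u) {x : X} (h0 : Seen S α u 0 x) : α u x ≠ 1 := by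
  obtain ⟨i, _, hS, hb⟩ := h0
  have := h.nc i hS x
  omega

theorem Cons.not_zero (h : Cons D Valid S α u) {x : X} (h0 : Seen S α u 1 x) : α u x ≠ 0 := by
  obtain ⟨i, _, hS, hb⟩ := h0
  have := h.nc i hS x
  omega

theorem Cons.asg_eq (h : Cons D Valid S α u) {x : X} (hx : D.hv x) :
    asg S α u x = α u x := by
  obtain ⟨i, hi⟩ := h.ne
  have h1 := h.heavy_eq hi hx
  have h2 := h.hv1 u (Or.inr rfl) x hx
  unfold asg
  by_cases h3 : α u x = 1
  · rw [if_pos ⟨i, h.lt i hi, hi, by rw [h1, h3]⟩, h3]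
  · rw [if_neg]
    · omega
    · rintro ⟨j, _, hj, hb⟩
      exact h3 (by rw [← h.heavy_eq hj hx, hb])

theorem Lown_pos_of (hM : 2 < D.M) (h : Cons D Valid S α u) (x : X) :
    0 < Lown D.M (D.hv x) (Seen S α u 0 x) (Seen S α u 1 x) (α u x) := by
  have h1 : 0 < (D.M - 1) / (D.M - 2) := div_pos (by linarith) (by linarith)
  have h2 : 0 < (D.M - 1) / D.M := div_pos (by linarith) (by linarith)
  have hle := h.le2 u (Or.inr rfl) x
  by_cases hx : D.hv x
  · obtain ⟨i, hi⟩ := h.ne
    have hle1 := h.hv1 u (Or.inr rfl) x hx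
    have hall : ∀ i, S i → α i x = α u x := fun i hi => h.heavy_eq hi hx
    have := heavy_inv (M := D.M) (τ := 1) (β := 1) hx S α x hle1 hall u
    have hs : Seen S α u (α u x) x := ⟨i, h.lt i hi, hi, h.heavy_eq hi hx⟩
    have hv' : α u x = 0 ∨ α u x = 1 := by omega
    rcases hv' with hv' | hv'
    · rw [hv'] at hs
      have hs1 := this.2.2 1 (by omega)
      simp [Lown, hx, hs, hs1, hv']
    · rw [hv'] at hs
      have hs1 := this.2.2 0 (by omega)
      simp [Lown, hx, hs, hs1, hv']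
  · have ha' : α u x = 0 ∨ α u x = 1 ∨ α u x = 2 := by omega
    by_cases s0 : Seen S α u 0 x <;> by_cases s1 : Seen S α u 1 x
    · have n0 := h.not_one s0
      have n1 := h.not_zero s1
      have : α u x = 2 := by omega
      simp only [Lown, hx, s0, s1, this, if_true, if_false]; exact h1
    · have n0 := h.not_one s0
      simp only [Lown, hx, s0, s1, n0, if_true, if_false]; norm_num
    · have n0 := h.not_zero s1
      simp only [Lown, hx, s0, s1, n0, if_true, if_false]; norm_num
    · simp only [Lown, hx, s0, s1, if_true, if_false]; exact h2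

theorem Lnb_pos_of {τ β : ℝ} (hM : 2 < D.M) (hτ0 : 0 < τ) (hτ1 : τ ≤ 1) (hβ0 : 0 < β)
    (hβ : β ≤ 1 / 2) (h : Cons D Valid S α u) {i : ℕ} (hi : S i) (x : X) :
    0 < Lnb D.M τ β (D.hv x) (Seen S α i 0 x) (Seen S α i 1 x) (α i x) := by
  have h1 : 0 < (D.M - 1 - τ) / (D.M - 2) := div_pos (by linarith) (by linarith)
  have h2 : 0 < (D.M - 1) / D.M := div_pos (by linarith) (by linarith)
  have h3 : 0 < 1 - β := by linarith
  by_cases hx : D.hv x
  · have hle1 := h.hv1 i (Or.inl hi) x hx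
    have hall : ∀ j, S j → α j x = α i x := fun j hj => by
      rw [h.heavy_eq hj hx, h.heavy_eq hi hx]
    have := (heavy_inv (M := D.M) (τ := 1) (β := 1) hx S α x hle1 hall i).2.2
    have hv' : α i x = 0 ∨ α i x = 1 := by omega
    rcases hv' with hv' | hv'
    · have hs1 := this 1 (by omega)
      by_cases hs : Seen S α i 0 x <;> simp [Lnb, hx, hs, hs1, hv']
    · have hs1 := this 0 (by omega)
      by_cases hs : Seen S α i 1 x <;> simp [Lnb, hx, hs, hs1, hv']
  · unfold Lnb
    rw [if_neg hx]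
    split_ifs <;> positivity

open Classical in
/-- Indicator of the light coordinates outside the agreement region. -/
def bad (D : Data X) (S : ℕ → Prop) (α : ℕ → X → ℕ) (u : ℕ) (x : X) : ℝ :=
  if ¬ D.hv x ∧ ¬ Agr S α u x then 1 else 0

theorem coord_bound {β : ℝ} (hM : 3 ≤ D.M) (hβ0 : 0 < β)
    (hβ : β ≤ 1 / 2) (h : Cons D Valid S α u) (x : X) :
    (cnt S u : ℝ) * ((1 / (D.M - 1)) ^ 2 / 2) * bad D S α u x - 2 * β * cnt S u
        + Real.log ((1 / (4 * (D.M - 1))) / 2) + Real.log β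
      ≤ cnt S u * Real.log (Lown D.M (D.hv x) (Seen S α u 0 x) (Seen S α u 1 x) (α u x))
        + Tsum D.M (1 / (4 * (D.M - 1))) β (D.hv x) S α u x := by
  set p := 1 / (D.M - 1) with hp
  set τ := 1 / (4 * (D.M - 1)) with hτ
  have hM1 : 0 < D.M - 1 := by linarith
  have hM2 : 0 < D.M - 2 := by linarith
  have hM0 : 0 < D.M := by linarith
  have hp0 : 0 < p := by rw [hp]; positivity
  have hτ0 : 0 < τ := by rw [hτ]; positivity
  have hτp : τ = p / 4 := by rw [hτ, hp]; field_simp
  have hp1 : p ≤ 1 / 2 := by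
    rw [hp]; apply one_div_le_one_div_of_le <;> linarith
  have hτ1 : τ ≤ 1 := by rw [hτp]; linarith
  have hb0 : (0 : ℝ) ≤ cnt S u := Nat.cast_nonneg _
  have hlb : Real.log β ≤ 0 := Real.log_nonpos hβ0.le (by linarith)
  have hlt : Real.log (τ / 2) ≤ 0 := Real.log_nonpos (by positivity) (by linarith)
  by_cases hx : D.hv x
  · -- heavy
    obtain ⟨i, hi⟩ := h.ne
    have hle1 := h.hv1 u (Or.inr rfl) x hx
    have hall : ∀ i, S i → α i x = α u x := fun i hi => h.heavy_eq hi hx
    have key := heavy_inv (M := D.M) (τ := τ) (β := β) hx S α x hle1 hall u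
    have hs : Seen S α u (α u x) x := ⟨i, h.lt i hi, hi, h.heavy_eq hi hx⟩
    rw [key.2.1 hs]
    have hL : Lown D.M (D.hv x) (Seen S α u 0 x) (Seen S α u 1 x) (α u x) = 1 := by
      have hv' : α u x = 0 ∨ α u x = 1 := by omega
      rcases hv' with hv' | hv'
      · rw [hv'] at hs
        have hs1 := key.2.2 1 (by omega)
        simp [Lown, hx, hs, hs1, hv']
      · rw [hv'] at hs
        have hs1 := key.2.2 0 (by omega)
        simp [Lown, hx, hs, hs1, hv']
    rw [hL, Real.log_one]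
    have hb : bad D S α u x = 0 := by simp [bad, hx]
    rw [hb]
    have h1 : Real.log (τ / 2) ≤ Real.log (1 / 2) :=
      Real.log_le_log (by positivity) (by linarith)
    have : 0 ≤ 2 * β * cnt S u := by positivity
    linarith
  · have key := light_inv (M := D.M) hx (by linarith) hτ0 hτ1 hβ0 hβ S α x
      (fun i hi => h.le2 i (Or.inl hi) x) u
    have hg1 : p ^ 2 / 2 ≤ Real.log ((D.M - 1) / D.M) +
        Real.log ((D.M - 1 - τ) / (D.M - 2)) := by
      have hx1 : 0 < (D.M - 1) / D.M := by positivity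
      have hx2 : 0 < (D.M - 1 - τ) / (D.M - 2) := by
        apply div_pos _ hM2; linarith
      rw [← Real.log_mul hx1.ne' hx2.ne']
      refine le_trans ?_ (Real.one_sub_inv_le_log_of_pos (by positivity))
      have hMp : D.M - 1 = 1 / p := by rw [hp]; field_simp
      have e : (D.M - 1) / D.M * ((D.M - 1 - τ) / (D.M - 2)) = (1 - τ * p) / (1 - p ^ 2) := by
        have e1 : D.M = 1 / p + 1 := by linarith
        have h1 : (1 : ℝ) - p ^ 2 ≠ 0 := by nlinarith
        have h2 : (1 : ℝ) - p ≠ 0 := by linarith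
        have h3 : (1 : ℝ) + p ≠ 0 := by linarith
        rw [e1]
        have e2 : (1 / p + 1 - 1 : ℝ) = 1 / p := by ring
        have e3 : (1 / p + 1 - 2 : ℝ) = (1 - p) / p := by field_simp; ring
        have e4 : (1 / p + 1 : ℝ) = (1 + p) / p := by field_simp
        rw [e2, e3, e4]
        have e5 : (1 : ℝ) - p ^ 2 = (1 - p) * (1 + p) := by ring
        rw [e5]
        field_simp
      rw [e, inv_div]
      have h1 : 0 < 1 - τ * p := by nlinarith
      rw [le_sub_comm, div_le_iff₀ h1, hτp]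
      nlinarith [pow_pos hp0 2, pow_pos hp0 3, pow_pos hp0 4]
    have hg2 : p ^ 2 / 2 ≤ Real.log ((D.M - 1) / (D.M - 2)) + Real.log ((D.M - 1) / D.M) := by
      have hx1 : 0 < (D.M - 1) / D.M := by positivity
      have hx2 : 0 < (D.M - 1) / (D.M - 2) := by positivity
      rw [← Real.log_mul hx2.ne' hx1.ne']
      refine le_trans ?_ (Real.one_sub_inv_le_log_of_pos (by positivity))
      have e : ((D.M - 1) / (D.M - 2) * ((D.M - 1) / D.M))⁻¹ = 1 - p ^ 2 := by
        rw [hp]; field_simp; ring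
      rw [e]; nlinarith [pow_pos hp0 2]
    by_cases s0 : Seen S α u 0 x <;> by_cases s1 : Seen S α u 1 x
    · have n0 := h.not_one s0
      have n1 := h.not_zero s1
      have h2 := h.le2 u (Or.inr rfl) x
      have ha : α u x = 2 := by omega
      have hb : bad D S α u x = 1 := by simp [bad, hx, Agr, s0, s1]
      have hL : Lown D.M (D.hv x) (Seen S α u 0 x) (Seen S α u 1 x) (α u x)
          = (D.M - 1) / (D.M - 2) := by simp [Lown, hx, s0, s1, ha]
      rw [hb, hL]
      have := key.2.2 s0 s1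
      nlinarith
    · have n0 := h.not_one s0
      have hb : bad D S α u x = 0 := by simp [bad, Agr, s0, s1]
      have hL : Lown D.M (D.hv x) (Seen S α u 0 x) (Seen S α u 1 x) (α u x) = 1 := by
        simp [Lown, hx, s0, s1, n0]
      rw [hb, hL, Real.log_one]
      have := key.2.1 (by simp [s0, s1])
      linarith
    · have n0 := h.not_zero s1
      have hb : bad D S α u x = 0 := by simp [bad, Agr, s0, s1]
      have hL : Lown D.M (D.hv x) (Seen S α u 0 x) (Seen S α u 1 x) (α u x) = 1 := by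
        simp [Lown, hx, s0, s1, n0]
      rw [hb, hL, Real.log_one]
      have := key.2.1 (by simp [s0, s1])
      linarith
    · have hb : bad D S α u x = 1 := by simp [bad, hx, Agr, s0, s1]
      have hL : Lown D.M (D.hv x) (Seen S α u 0 x) (Seen S α u 1 x) (α u x)
          = (D.M - 1) / D.M := by simp [Lown, hx, s0, s1]
      rw [hb, hL]
      have := key.1 s0 s1
      rw [this]
      have : 0 ≤ 2 * β * cnt S u := by positivity
      nlinarith

end

end Pool.Agent.H588R2.Dks
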