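import Pool.Agent.H588R2.DksNo

/-!
3-CNF formulas: heavy variables, families of disjoint violated clauses, distribution of values.
-/

set_option linter.unusedSectionVars false

namespace Pool.Agent.H588R2.Dks

open Finset

noncomputable section

/-- The literal `l` is falsified by the partial assignment `a` (`2` = unassigned). -/
def FalL {n : ℕ} (a : Fin n → ℕ) (l : Fin n × Bool) : Prop := a l.1 + l.2.toNat = 1

/-- No clause is falsified by `a`. -/
def ValidF {n m : ℕ} (φ : Fin m → Fin 3 → Fin n × Bool) (a : Fin n → ℕ) : Prop :=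
  ∀ i, ¬ ∀ j, FalL a (φ i j)

/-- Number of occurrences of a variable. -/
def occF {n m : ℕ} (φ : Fin m → Fin 3 → Fin n × Bool) (x : Fin n) : ℕ :=
  ((univ : Finset (Fin m × Fin 3)).filter (fun q => (φ q.1 q.2).1 = x)).card

def HeavyF {n m : ℕ} (φ : Fin m → Fin 3 → Fin n × Bool) (Δ n₀ : ℕ) (x : Fin n) : Prop :=
  Δ * m < occF φ x * n ∨ n < n₀

open Classical in
/-- Light variables of clause `i`. -/
def lv {n m : ℕ} (φ : Fin m → Fin 3 → Fin n × Bool) (Δ n₀ : ℕ) (i : Fin m) : Finset (Fin n) :=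
  (univ.image (fun j => (φ i j).1)).filter (fun x => ¬ HeavyF φ Δ n₀ x)

theorem exists_max_disjoint {ι X : Type} [DecidableEq X] (C : Finset ι) (L : ι → Finset X)
    (hne : ∀ i ∈ C, (L i).Nonempty) :
    ∃ F : Finset (Finset X), F ⊆ C.image L ∧ (F : Set (Finset X)).PairwiseDisjoint id ∧
      ∀ i ∈ C, ∃ T ∈ F, ¬ Disjoint (L i) T := by
  classical
  obtain ⟨F, hF, hmax⟩ := Finset.exists_max_image
    ((C.image L).powerset.filter (fun F : Finset (Finset X) =>
      (F : Set (Finset X)).PairwiseDisjoint id))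
    Finset.card ⟨∅, by simp⟩
  rw [mem_filter, mem_powerset] at hF
  refine ⟨F, hF.1, hF.2, ?_⟩
  intro i hi
  by_contra hcon
  push Not at hcon
  have hnot : L i ∉ F := by
    intro h
    have := hcon _ h
    rw [disjoint_self] at this
    exact (hne i hi).ne_empty this
  have := hmax (insert (L i) F) (by
    rw [mem_filter, mem_powerset]
    refine ⟨?_, ?_⟩
    · intro T hT
      rw [mem_insert] at hT
      rcases hT with rfl | hT
      · exact mem_image_of_mem _ hi
      · exact hF.1 hT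
    · rw [coe_insert]
      apply hF.2.insert
      intro T hT _
      exact hcon T hT)
  rw [card_insert_of_notMem hnot] at this
  omega

/-- Clauses violated by `A` that contain a light variable. -/
def CC {n m : ℕ} (φ : Fin m → Fin 3 → Fin n × Bool) (Δ n₀ : ℕ) (A : Fin n → ℕ) :
    Finset (Fin m) := by
  classical
  exact univ.filter (fun i => (∀ j, FalL A (φ i j)) ∧ (lv φ Δ n₀ i).Nonempty)

theorem mem_CC {n m : ℕ} {φ : Fin m → Fin 3 → Fin n × Bool} {Δ n₀ : ℕ} {A : Fin n → ℕ}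
    {i : Fin m} : i ∈ CC φ Δ n₀ A ↔ (∀ j, FalL A (φ i j)) ∧ (lv φ Δ n₀ i).Nonempty := by
  classical
  unfold CC
  simp

theorem exists_fam {n m : ℕ} (φ : Fin m → Fin 3 → Fin n × Bool) (Δ n₀ : ℕ) (A : Fin n → ℕ) :
    ∃ F : Finset (Finset (Fin n)), F ⊆ (CC φ Δ n₀ A).image (lv φ Δ n₀) ∧
      (F : Set (Finset (Fin n))).PairwiseDisjoint id ∧
      ∀ i ∈ CC φ Δ n₀ A, ∃ T ∈ F, ¬ Disjoint (lv φ Δ n₀ i) T :=
  exists_max_disjoint _ _ (fun i hi => (mem_CC.1 hi).2)

/-- The chosen maximal family of disjoint violated clauses. -/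
def FamF {n m : ℕ} (φ : Fin m → Fin 3 → Fin n × Bool) (Δ n₀ : ℕ) (A : Fin n → ℕ) :
    Finset (Finset (Fin n)) := (exists_fam φ Δ n₀ A).choose

theorem FamF_spec {n m : ℕ} (φ : Fin m → Fin 3 → Fin n × Bool) (Δ n₀ : ℕ) (A : Fin n → ℕ) :
    FamF φ Δ n₀ A ⊆ (CC φ Δ n₀ A).image (lv φ Δ n₀) ∧
      ((FamF φ Δ n₀ A) : Set (Finset (Fin n))).PairwiseDisjoint id ∧
      ∀ i ∈ CC φ Δ n₀ A, ∃ T ∈ FamF φ Δ n₀ A, ¬ Disjoint (lv φ Δ n₀ i) T :=
  (exists_fam φ Δ n₀ A).choose_spec

theorem lv_card {n m : ℕ} (φ : Fin m → Fin 3 → Fin n × Bool) (Δ n₀ : ℕ) (i : Fin m) :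
    (lv φ Δ n₀ i).card ≤ 3 := by
  classical
  unfold lv
  calc _ ≤ (univ.image (fun j => (φ i j).1)).card := Finset.card_filter_le _ _
    _ ≤ (univ : Finset (Fin 3)).card := Finset.card_image_le
    _ = 3 := by simp

theorem lv_light {n m : ℕ} {φ : Fin m → Fin 3 → Fin n × Bool} {Δ n₀ : ℕ} {i : Fin m}
    {x : Fin n} (hx : x ∈ lv φ Δ n₀ i) : ¬ HeavyF φ Δ n₀ x := by
  classical
  unfold lv at hx
  exact (mem_filter.1 hx).2

theorem lv_var {n m : ℕ} {φ : Fin m → Fin 3 → Fin n × Bool} {Δ n₀ : ℕ} {i : Fin m}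
    {x : Fin n} (hx : x ∈ lv φ Δ n₀ i) : ∃ j, (φ i j).1 = x := by
  classical
  unfold lv at hx
  have := (mem_filter.1 hx).1
  rw [mem_image] at this
  obtain ⟨j, _, hj⟩ := this
  exact ⟨j, hj⟩

theorem mem_lv {n m : ℕ} {φ : Fin m → Fin 3 → Fin n × Bool} {Δ n₀ : ℕ} {i : Fin m} (j : Fin 3)
    (hx : ¬ HeavyF φ Δ n₀ (φ i j).1) : (φ i j).1 ∈ lv φ Δ n₀ i := by
  classical
  unfold lv
  rw [mem_filter]
  exact ⟨mem_image_of_mem _ (mem_univ j), hx⟩

/-- The number of violated clauses is controlled by the size of the family. -/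
theorem card_CC_le {n m : ℕ} (φ : Fin m → Fin 3 → Fin n × Bool) (Δ n₀ : ℕ) (A : Fin n → ℕ) :
    (CC φ Δ n₀ A).card * n ≤ (FamF φ Δ n₀ A).card * (3 * (Δ * m)) := by
  classical
  obtain ⟨h1, h2, h3⟩ := FamF_spec φ Δ n₀ A
  set F := FamF φ Δ n₀ A
  set C := CC φ Δ n₀ A
  have hsub : C ⊆ F.biUnion (fun T => T.biUnion (fun x => C.filter (fun i => x ∈ lv φ Δ n₀ i))) := by
    intro i hi
    obtain ⟨T, hT, hd⟩ := h3 i hi
    rw [Finset.not_disjoint_iff] at hd
    obtain ⟨x, hx1, hx2⟩ := hd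
    rw [mem_biUnion]
    refine ⟨T, hT, ?_⟩
    rw [mem_biUnion]
    exact ⟨x, hx2, mem_filter.2 ⟨hi, hx1⟩⟩
  have hocc : ∀ x, (C.filter (fun i => x ∈ lv φ Δ n₀ i)).card ≤ occF φ x := by
    intro x
    unfold occF
    calc (C.filter (fun i => x ∈ lv φ Δ n₀ i)).card
        ≤ (((univ : Finset (Fin m × Fin 3)).filter (fun q => (φ q.1 q.2).1 = x)).image
            Prod.fst).card := by
          apply Finset.card_le_card
          intro i hi
          obtain ⟨j, hj⟩ := lv_var (mem_filter.1 hi).2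
          rw [mem_image]
          exact ⟨(i, j), by simp [hj], rfl⟩
      _ ≤ _ := Finset.card_image_le
  have hTl : ∀ T ∈ F, T.card ≤ 3 ∧ ∀ x ∈ T, ¬ HeavyF φ Δ n₀ x := by
    intro T hT
    have := h1 hT
    rw [mem_image] at this
    obtain ⟨i, _, rfl⟩ := this
    exact ⟨lv_card _ _ _ _, fun x hx => lv_light hx⟩
  calc C.card * n ≤ (F.biUnion (fun T => T.biUnion
        (fun x => C.filter (fun i => x ∈ lv φ Δ n₀ i)))).card * n :=
        Nat.mul_le_mul_right _ (Finset.card_le_card hsub)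
    _ ≤ (∑ T ∈ F, ∑ x ∈ T, occF φ x) * n := by
        apply Nat.mul_le_mul_right
        refine Finset.card_biUnion_le.trans ?_
        apply Finset.sum_le_sum
        intro T _
        refine Finset.card_biUnion_le.trans ?_
        exact Finset.sum_le_sum (fun x _ => hocc x)
    _ = ∑ T ∈ F, ∑ x ∈ T, occF φ x * n := by
        rw [Finset.sum_mul]
        apply Finset.sum_congr rfl
        intro T _; rw [Finset.sum_mul]
    _ ≤ ∑ T ∈ F, ∑ x ∈ T, Δ * m := by
        apply Finset.sum_le_sum; intro T hT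
        apply Finset.sum_le_sum; intro x hx
        have := (hTl T hT).2 x hx
        unfold HeavyF at this
        push Not at this
        exact this.1
    _ ≤ ∑ T ∈ F, 3 * (Δ * m) := by
        apply Finset.sum_le_sum; intro T hT
        rw [Finset.sum_const, smul_eq_mul]
        exact Nat.mul_le_mul_right _ (hTl T hT).1
    _ = F.card * (3 * (Δ * m)) := by rw [Finset.sum_const, smul_eq_mul]

/-- Data of the reduction for the formula `φ`. -/
def dataF {n m : ℕ} (φ : Fin m → Fin 3 → Fin n × Bool) (Δ n₀ J : ℕ) : Data (Fin n) where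
  M := 2 ^ (J + 1)
  hv := HeavyF φ Δ n₀
  Fam := FamF φ Δ n₀

theorem gapF {n m : ℕ} (φ : Fin m → Fin 3 → Fin n × Bool) (Δ n₀ J : ℕ) (ε : ℝ) (hm : 0 < m)
    (hΔ : 0 < Δ)
    (hfar : ∀ A : Fin n → ℕ, (∀ x, A x ≤ 1) → ∀ C : Finset (Fin m),
      (∀ i, (∀ j, FalL A (φ i j)) → i ∈ C) → ε * m ≤ C.card) :
    Gap (dataF φ Δ n₀ J) (ValidF φ) (ε * n / (3 * Δ)) where
  disj := fun A => (FamF_spec φ Δ n₀ A).2.1
  light := by
    intro A T hT x hx
    have := (FamF_spec φ Δ n₀ A).1 hT
    rw [mem_image] at this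
    obtain ⟨i, _, rfl⟩ := this
    exact lv_light hx
  bad := by
    intro A T a hT hx hh hval
    have := (FamF_spec φ Δ n₀ A).1 hT
    rw [mem_image] at this
    obtain ⟨i, hi, rfl⟩ := this
    rw [mem_CC] at hi
    apply hval i
    intro j
    have h1 := hi.1 j
    unfold FalL at h1 ⊢
    by_cases hv : HeavyF φ Δ n₀ (φ i j).1
    · rw [hh _ hv]; exact h1
    · rw [hx _ (mem_lv j hv)]; exact h1
  big := by
    intro A a hA hval hh
    have h1 := hfar A hA (CC φ Δ n₀ A) (by
      intro i hi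
      rw [mem_CC]
      refine ⟨hi, ?_⟩
      by_contra hne
      rw [Finset.not_nonempty_iff_eq_empty] at hne
      apply hval i
      intro j
      have hv : HeavyF φ Δ n₀ (φ i j).1 := by
        by_contra hv
        have := mem_lv j hv
        rw [hne] at this
        simp at this
      have h2 := hi j
      unfold FalL at h2 ⊢
      rw [hh _ hv]; exact h2)
    have h2 := card_CC_le φ Δ n₀ A
    have h2' : ((CC φ Δ n₀ A).card : ℝ) * n ≤ (FamF φ Δ n₀ A).card * (3 * (Δ * m)) := by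
      exact_mod_cast h2
    have hm' : (0 : ℝ) < m := by exact_mod_cast hm
    have hΔ' : (0 : ℝ) < Δ := by exact_mod_cast hΔ
    have hn' : (0 : ℝ) ≤ n := Nat.cast_nonneg _
    show ε * n / (3 * Δ) ≤ ((FamF φ Δ n₀ A).card : ℝ)
    rw [div_le_iff₀ (by positivity)]
    have h3 : ε * m * n ≤ (CC φ Δ n₀ A).card * n := mul_le_mul_of_nonneg_right h1 hn'
    have h4 : (ε * n) * m ≤ ((FamF φ Δ n₀ A).card * (3 * Δ)) * m := by nlinarith
    exact le_of_mul_le_mul_right h4 hm'

open Classical in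
/-- Value of a coordinate from `J + 1` random bits. -/
def valF {n : ℕ} (hv : Fin n → Prop) (J : ℕ) (x : Fin n) (ω : Fin (J + 1) → Bool) : ℕ :=
  if hv x ∨ (∀ i : Fin J, ω i.succ = false) then (ω 0).toNat else 2

theorem valF_le2 {n : ℕ} (hv : Fin n → Prop) (J : ℕ) (x : Fin n) (ω : Fin (J + 1) → Bool) :
    valF hv J x ω ≤ 2 := by
  unfold valF; split_ifs
  · have := Bool.toNat_le (ω 0); omega
  · exact le_rfl

theorem valF_le1 {n : ℕ} (hv : Fin n → Prop) (J : ℕ) (x : Fin n) (ω : Fin (J + 1) → Bool)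
    (hx : hv x) : valF hv J x ω ≤ 1 := by
  unfold valF; rw [if_pos (Or.inl hx)]; exact Bool.toNat_le (ω 0)

theorem sum_cons (J : ℕ) (f : (Fin (J + 1) → Bool) → ℝ) :
    ∑ ω, f ω = ∑ r : Fin J → Bool, (f (Fin.cons false r) + f (Fin.cons true r)) := by
  rw [← (Fin.consEquiv (fun _ : Fin (J + 1) => Bool)).sum_comp, Fintype.sum_prod_type,
    Finset.sum_comm]
  apply Finset.sum_congr rfl
  intro r _
  rw [Fintype.sum_bool, add_comm]
  rfl

theorem valDistF {n : ℕ} (hv : Fin n → Prop) (J : ℕ) (x : Fin n) :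
    ValDist (Fin (J + 1) → Bool) (2 ^ (J + 1)) (hv x) (valF hv J x) where
  light := by
    classical
    intro hx g
    rw [sum_cons]
    have h1 : ∀ r : Fin J → Bool, ∀ b, g (valF hv J x (Fin.cons b r))
        = if r = (fun _ => false) then g b.toNat else g 2 := by
      intro r b
      unfold valF
      simp only [hx, false_or, Fin.cons_succ, Fin.cons_zero]
      by_cases hr : r = fun _ => false
      · rw [if_pos (fun i => by rw [hr]), if_pos hr]
      · rw [if_neg (fun h => hr (funext h)), if_neg hr]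
    simp only [h1]
    have h2 : ∀ c d : ℝ, ∑ r : Fin J → Bool, (if r = (fun _ => false) then c else d)
        = c + (2 ^ J - 1) * d := by
      intro c d
      have : ∀ r : Fin J → Bool, (if r = (fun _ => false) then c else d)
          = (if r = (fun _ => false) then c - d else 0) + d := by
        intro r; split_ifs <;> ring
      rw [Finset.sum_congr rfl (fun r _ => this r), Finset.sum_add_distrib,
        Finset.sum_ite_eq' univ (fun _ => false) (fun _ => c - d)]
      simp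
      ring
    rw [Finset.sum_add_distrib, h2, h2]
    simp only [Bool.toNat_false, Bool.toNat_true]
    ring
  heavy := by
    classical
    intro hx g
    rw [sum_cons]
    have h1 : ∀ r : Fin J → Bool, ∀ b, g (valF hv J x (Fin.cons b r)) = g b.toNat := by
      intro r b
      unfold valF
      rw [if_pos (Or.inl hx), Fin.cons_zero]
    simp only [h1, Finset.sum_const, nsmul_eq_mul, card_univ, Fintype.card_fun, Fintype.card_fin,
      Fintype.card_bool, Bool.toNat_false, Bool.toNat_true]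
    push_cast
    ring

theorem modelF {n m : ℕ} (φ : Fin m → Fin 3 → Fin n × Bool) (Δ n₀ J : ℕ) (hJ : 1 ≤ J) :
    Model (dataF φ Δ n₀ J) (Fin (J + 1) → Bool) (valF (HeavyF φ Δ n₀) J) where
  hM := by
    show (2 : ℝ) < 2 ^ (J + 1)
    calc (2 : ℝ) < 2 ^ 2 := by norm_num
      _ ≤ 2 ^ (J + 1) := pow_le_pow_right₀ (by norm_num) (by omega)
  dist := fun x => valDistF (HeavyF φ Δ n₀) J x
  disj := fun A => (FamF_spec φ Δ n₀ A).2.1
  light := by
    intro A T hT x hx
    have := (FamF_spec φ Δ n₀ A).1 hT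
    rw [mem_image] at this
    obtain ⟨i, _, rfl⟩ := this
    exact lv_light hx
  card3 := by
    intro A T hT
    have := (FamF_spec φ Δ n₀ A).1 hT
    rw [mem_image] at this
    obtain ⟨i, _, rfl⟩ := this
    exact lv_card _ _ _ _

end

end Pool.Agent.H588R2.Dks
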