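import Pool.Agent.H588R2.DksProgE
import Pool.Agent.H588R2.BankSim

/-!
The complete program of the reduction.
-/


namespace Pool.Agent.H588R2.DksP

open Pool.Agent.H588R2.Bank Finset

def cInit : Cmd := seqs [.op (.const 10 0), .op (.load 1 0 10), .op (.const 10 1),
  .op (.load 2 0 10), .op (.const 10 3), .op (.mul 4 2 10)]

/-- The program before the call of the approximation algorithm. -/
def cMain (k J Δ n₀ : ℕ) : Cmd :=
  seqs [cInit, cHeavy Δ n₀, cNum k (2 ^ (J + 1)), cStr J, cOk, cAdj k]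

/-- All numbers fit in words of `w` bits. -/
structure Fits (w n m N J k Δ n₀ Th : ℕ) : Prop where
  m1 : 6 * m + 10 < 2 ^ w
  mn : 3 * m * n < 2 ^ w
  Dm : Δ * m < 2 ^ w
  D1 : Δ < 2 ^ w
  n0 : n₀ < 2 ^ w
  n1 : n < 2 ^ w
  c1 : 2 ^ (J + 1) < 2 ^ w
  k3 : 3 * k < 2 ^ w
  kc : 3 * k * (2 ^ (J + 1)) ^ n + (2 ^ (J + 1)) ^ n < 2 ^ w
  NJ : N * n * (J + 1) < 2 ^ w
  Nn : N * n + n < 2 ^ w
  NN : N * N + 10 < 2 ^ w
  kk : k * k + 1 < 2 ^ w
  th : Th < 2 ^ w

theorem okN_le (n m : ℕ) (V Sg S : ℕ → ℕ) (v : ℕ) : okN n m V Sg S v ≤ 1 := by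
  unfold okN; split_ifs <;> omega

theorem strN_le {J n : ℕ} {Rb H : ℕ → ℕ} (hRb : ∀ i, Rb i ≤ 1) (idx : ℕ) :
    strN J n Rb H idx ≤ 2 := by
  unfold strN; split_ifs
  · exact le_rfl
  · have := hRb (idx * (J + 1)); omega

theorem hvN_le (Δ n₀ n m : ℕ) (V : ℕ → ℕ) (x : ℕ) : hvN Δ n₀ n m V x ≤ 1 := by
  unfold hvN; split_ifs <;> omega

theorem adN_le (n : ℕ) (Ok S : ℕ → ℕ) (u v : ℕ) : adN n Ok S u v ≤ 1 := by
  unfold adN; split_ifs <;> omega

/-- Time before the call. -/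
def tMain (n m N J k g : ℕ) : ℕ :=
  6 + (n * (3 * m * 9 + 21) + 3) + (n * 15 + g * 4 + 12) +
    (N * (n * (3 * J + 16) + 6) + 5) + (N * (m * 37 + 10) + 6) +
    (N * (N * (n * 11 + 17) + 9) + 11)

theorem tr_cMain {w n m k J Δ n₀ Th : ℕ} {V Sg Rb : ℕ → ℕ}
    (hRb : ∀ i, Rb i ≤ 1) (hV : ∀ t < 3 * m, V t < n) (hSg : ∀ t < 3 * m, Sg t ≤ 1)
    (hfit : Fits w n m (gN k (2 ^ (J + 1)) (hvN Δ n₀ n m V) n * k) J k Δ n₀ Th)
    (s : St) (hr : ∀ r, s.reg r = 0) (hm00 : s.mem 0 0 = n) (hm01 : s.mem 0 1 = m)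
    (hm0 : ∀ t < 3 * m, s.mem 0 (2 + 2 * t) = V t ∧ s.mem 0 (2 + 2 * t + 1) = Sg t)
    (hm1 : s.mem 1 = Rb) (hmz : ∀ b, 2 ≤ b → ∀ i, s.mem b i = 0) :
    let H := hvN Δ n₀ n m V
    let g := gN k (2 ^ (J + 1)) H n
    let N := g * k
    let S := strN J n Rb H
    let Ok := okN n m V Sg S
    Tr w (cMain k J Δ n₀) s (tMain n m N J k g)
      (fun s' => s'.reg 5 = N ∧ (∀ r, 40 ≤ r → s'.reg r = 0) ∧
        (∀ idx < N * N, s'.mem 5 idx = adI n N Ok S idx) ∧
        s'.mem 6 = inpN n N k Ok S ∧ (∀ b, 7 ≤ b → ∀ i, s'.mem b i = 0)) := by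
  intro H g N S Ok
  have hc2 : 2 ≤ 2 ^ (J + 1) := by
    calc 2 = 2 ^ 1 := rfl
      _ ≤ 2 ^ (J + 1) := Nat.pow_le_pow_right (by norm_num) (by omega)
  have hJlt : J < 2 ^ (J + 1) := lt_trans Nat.lt_two_pow_self
    (Nat.pow_lt_pow_right (by norm_num) (by omega))
  have hcn : 1 ≤ (2 ^ (J + 1)) ^ n := Nat.one_le_pow _ _ (by omega)
  obtain ⟨f1, f2, f3, f4, f5, f6, f7, f8, f9, f10, f11, f12, f13, f14⟩ := hfit
  change _ at f10
  have hNlt : N < 2 ^ w := by
    have : N ≤ N * N + 10 := by nlinarith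
    exact lt_of_le_of_lt this f12
  have hS2 : ∀ idx < N * n, S idx ≤ 2 := fun idx _ => strN_le hRb idx
  have hOk1 : ∀ v < N, Ok v ≤ 1 := fun v _ => okN_le _ _ _ _ _ v
  have hH1 : ∀ x, H x ≤ 1 := fun x => hvN_le _ _ _ _ _ x
  have hVw : ∀ t < 3 * m, V t < 2 ^ w := fun t ht => lt_trans (hV t ht) f6
  apply Tr.le
  · apply Tr.seq
    have hinit : Tr w cInit s 6 (fun s' => Fx [1, 2, 4, 10] s s' ∧ Fm [] s s' ∧
        s'.reg 1 = n ∧ s'.reg 2 = m ∧ s'.reg 4 = 3 * m) := by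
      apply Tr.le
      · apply Tr.seq
        apply Tr.const (by omega)
        apply Tr.seq
        apply Tr.load
        · simp [St.setR_reg, St.setR_mem, hm00]; omega
        simp only [St.setR_mem]
        apply Tr.seq
        apply Tr.const (by omega)
        apply Tr.seq
        apply Tr.load
        · simp [St.setR_reg, St.setR_mem, hm01]; omega
        simp only [St.setR_mem]
        apply Tr.seq
        apply Tr.const (by omega)
        apply Tr.seq
        apply Tr.mul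
        · simp [St.setR_reg, hm01]; omega
        apply Tr.skip
        refine ⟨?_, Fm.refl _ _, ?_, ?_, ?_⟩
        · repeat' (first | exact Fx.refl _ _ | refine Fx.setR ?_ (by simp) _)
        · simp [St.setR_reg, hm00]
        · simp [St.setR_reg, hm01]
        · simp [St.setR_reg, hm01]; ring
      · omega
    refine hinit.mono ?_
    rintro s1 ⟨a1, a2, a3, a4, a5⟩
    apply Tr.seq
    refine (tr_cHeavy (Δ := Δ) (n₀ := n₀) f1 f2 f3 f4 f5 f6 hVw s1 a3 a4 a5 (by
      intro t ht; rw [a2 0 (by simp)]; exact (hm0 t ht).1)).mono ?_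
    rintro s2 ⟨b1, b2, b3⟩
    apply Tr.seq
    refine (tr_cNum (H := H) hc2 f7 f8 f6 (fun x _ => by have := hH1 x; omega) f9 hNlt s2
      (by rw [b1 1 (by simp), a3]) b3).mono ?_
    rintro s3 ⟨c1, c2, c3⟩
    have q1 : s3.reg 1 = n := by rw [c1 1 (by simp), b1 1 (by simp), a3]
    have q2 : s3.reg 2 = m := by rw [c1 2 (by simp), b1 2 (by simp), a4]
    have q0 : s3.mem 0 = s.mem 0 := by rw [c2 0 (by simp), b2 0 (by simp), a2 0 (by simp)]
    have q1' : s3.mem 1 = Rb := by rw [c2 1 (by simp), b2 1 (by simp), a2 1 (by simp), hm1]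
    apply Tr.seq
    refine (tr_cStr (J := J) (N := N) (H := H) hRb (by omega) f6 hNlt (by omega) f10
      (fun x _ => hH1 x) s3 q1 c3 q1' (by
        intro x hx; rw [c2 2 (by simp)]; exact b3 x hx)).mono ?_
    rintro s4 ⟨d1, d2, d3⟩
    apply Tr.seq
    refine (tr_cOk (S := S) f1 f11 hNlt (by omega) hV hSg hS2 s4
      (by rw [d1 1 (by simp), q1]) (by rw [d1 2 (by simp), q2]) (by rw [d1 5 (by simp), c3])
      (by intro t ht; rw [d2 0 (by simp), q0]; exact hm0 t ht) d3).mono ?_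
    rintro s5 ⟨e1, e2, e3⟩
    have hz : ∀ b, 5 ≤ b → ∀ i, s5.mem b i = 0 := by
      intro b hb i
      rw [e2 b (by simp; omega), d2 b (by simp; omega), c2 b (by simp), b2 b (by simp; omega),
        a2 b (by simp)]
      exact hmz b (by omega) i
    apply Tr.seq
    refine (tr_cAdj (k := k) (Ok := Ok) (S := S) f12 f11 hNlt f6 (by omega) hOk1 hS2 s5
      (by rw [e1 1 (by simp), d1 1 (by simp), q1])
      (by rw [e1 5 (by simp), d1 5 (by simp), c3])
      (by intro idx hi; rw [e2 3 (by simp)]; exact d3 idx hi) e3 (hz 6 (by omega))).mono ?_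
    rintro s6 ⟨g1, g2, g3, g4⟩
    apply Tr.skip
    refine ⟨?_, ?_, g3, g4, ?_⟩
    · rw [g1 5 (by simp), e1 5 (by simp), d1 5 (by simp), c3]
    · intro r hr40
      rw [g1 r (by simp; omega), e1 r (by simp; omega), d1 r (by simp; omega),
        c1 r (by simp; omega), b1 r (by simp; omega), a1 r (by simp; omega)]
      exact hr r
    · intro b hb i
      rw [g2 b (by simp; omega)]
      exact hz b (by omega) i
  · simp only [tMain, N, g, H]
    omega

/-- The complete program. -/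
def prog (P : List Instr) (k J Δ n₀ Th : ℕ) : List Instr :=
  (cMain k J Δ n₀).compile 0 ++
    (reloc 40 6 (cMain k J Δ n₀).size P ++
      (cCnt k Th).compile ((cMain k J Δ n₀).size + P.length))

/-- The start state of the approximation algorithm. -/
noncomputable def inpSt (n N k : ℕ) (Ok S : ℕ → ℕ) : St :=
  ⟨fun _ => 0, fun b => if b = 0 then inpN n N k Ok S else fun _ => 0⟩

theorem full_run {w n m k J Δ n₀ Th tP : ℕ} {V Sg Rb su : ℕ → ℕ} {P : List Instr}
    (hRb : ∀ i, Rb i ≤ 1) (hV : ∀ t < 3 * m, V t < n) (hSg : ∀ t < 3 * m, Sg t ≤ 1)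
    (hfit : Fits w n m (gN k (2 ^ (J + 1)) (hvN Δ n₀ n m V) n * k) J k Δ n₀ Th)
    (s : St) (hr : ∀ r, s.reg r = 0) (hm00 : s.mem 0 0 = n) (hm01 : s.mem 0 1 = m)
    (hm0 : ∀ t < 3 * m, s.mem 0 (2 + 2 * t) = V t ∧ s.mem 0 (2 + 2 * t + 1) = Sg t)
    (hm1 : s.mem 1 = Rb) (hmz : ∀ b, 2 ≤ b → ∀ i, s.mem b i = 0) :
    let H := hvN Δ n₀ n m V
    let g := gN k (2 ^ (J + 1)) H n
    let N := g * k
    let S := strN J n Rb H
    let Ok := okN n m V Sg S
    Halted P (run w P (inpSt n N k Ok S) tP) →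
    (∀ i < k, (run w P (inpSt n N k Ok S) tP).st.mem 0 i = su i) →
    (∀ i < k, su i < N) →
    ∃ t ≤ tMain n m N J k g + (tP + 1) + (k * (k * 7 + 8) + 10),
      Halted (prog P k J Δ n₀ Th) (run w (prog P k J Δ n₀ Th) s t) ∧
      (run w (prog P k J Δ n₀ Th) s t).st.reg 0
        = if Th < cntN k (adN n Ok S) su then 1 else 0 := by
  intro H g N S Ok hhalt hsu hsuN
  obtain ⟨s1, t1, hex1, ht1, h5, hr40, hm5, hm6, hm7⟩ :=
    tr_cMain (Th := Th) hRb hV hSg hfit s hr hm00 hm01 hm0 hm1 hmz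
  set Q := prog P k J Δ n₀ Th with hQdef
  set o := (cMain k J Δ n₀).size with ho
  have hQ0 : At Q 0 Q := At.self Q
  have hA1 : At Q 0 ((cMain k J Δ n₀).compile 0) := by
    have := hQ0; rw [hQdef] at this ⊢; exact this.left
  have hA2 : At Q o (reloc 40 6 o P ++ (cCnt k Th).compile (o + P.length)) := by
    have := hQ0
    rw [hQdef] at this ⊢
    have := this.right
    rw [Cmd.length_compile, Nat.zero_add] at this
    exact this
  have hA3 : At Q o (reloc 40 6 o P) := hA2.left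
  have hA4 : At Q (o + P.length) ((cCnt k Th).compile (o + P.length)) := by
    have := hA2.right
    simpa [reloc] using this
  -- part 1
  have e1 := compile_correct w Q hex1 0 hA1
  rw [Nat.zero_add, ← ho] at e1
  -- part 2
  have hcomb : s1 = comb 40 6 s1 (inpSt n N k Ok S) := by
    cases hs1 : s1 with
    | mk r mm =>
      rw [hs1] at hr40 hm6 hm7
      unfold comb inpSt
      congr 1
      · funext x
        by_cases hx : x < 40
        · simp [hx]
        · simp only [hx, if_false]; exact hr40 x (by omega)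
      · funext b
        by_cases hb : b < 6
        · simp [hb]
        · simp only [hb, if_false]
          by_cases hb6 : b = 6
          · subst hb6; simpa using hm6
          · rw [if_neg (by omega)]
            funext i; exact hm7 b (by omega) i
  obtain ⟨t2, ht2, e2⟩ := sim_run hA3 s1 tP ⟨0, inpSt n N k Ok S⟩ hhalt
  have hemb : embC 40 6 o P.length s1 ⟨0, inpSt n N k Ok S⟩ = ⟨o, s1⟩ := by
    unfold embC
    simp only [Nat.zero_min, Nat.add_zero]
    rw [← hcomb]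
  rw [hemb] at e2
  set p2 := ((step w P)^[tP] ⟨0, inpSt n N k Ok S⟩).st with hp2
  set s2 := comb 40 6 s1 p2 with hs2
  -- part 3
  obtain ⟨f1, f2, f3, f4, f5, f6, f7, f8, f9, f10, f11, f12, f13, f14⟩ := hfit
  have h5' : s2.reg 5 = N := by
    have : s2.reg 5 = s1.reg 5 := by simp [hs2, comb]
    rw [this]; exact h5
  have hm6' : ∀ i < k, s2.mem 6 i = su i := by
    intro i hi
    have : s2.mem 6 = p2.mem 0 := by simp [hs2, comb]
    rw [this]; exact hsu i hi
  have hm5' : ∀ u < N, ∀ v < N, s2.mem 5 (u * N + v) = adN n Ok S u v := by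
    intro u hu v hv
    have h1 : s2.mem 5 = s1.mem 5 := by simp [hs2, comb]
    have h2 : u * N + v < N * N := by
      calc u * N + v < u * N + N := by omega
        _ = (u + 1) * N := by ring
        _ ≤ N * N := Nat.mul_le_mul_right _ hu
    rw [h1, hm5 _ h2]
    unfold adI
    rw [Nat.mul_add_mod_self_right, Nat.mod_eq_of_lt hv, mul_comm u N,
      Nat.mul_add_div (by omega), Nat.div_eq_of_lt hv, add_zero]
  obtain ⟨s3, t3, hex3, ht3, h0⟩ := tr_cCnt (Th := Th) f12 (by omega) f13 f14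
    (fun u _ v _ => adN_le n Ok S u v) hsuN s2 h5' hm5' hm6'
  have e3 := compile_correct w Q hex3 (o + P.length) hA4
  have e12 := step_iter_add w Q _ _ _ _ _ e1 e2
  have e123 := step_iter_add w Q _ _ _ _ _ e12 e3
  refine ⟨t1 + t2 + t3, ?_, ?_, ?_⟩
  · change t1 ≤ tMain n m N J k g at ht1
    omega
  · show Halted Q ((step w Q)^[t1 + t2 + t3] ⟨0, s⟩)
    rw [e123]
    right
    apply List.getElem?_eq_none
    rw [hQdef]
    simp [prog, Cmd.length_compile, reloc, ← ho]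
    omega
  · show ((step w Q)^[t1 + t2 + t3] ⟨0, s⟩).st.reg 0 = _
    rw [e123]
    exact h0

end Pool.Agent.H588R2.DksP
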