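import Pool.Agent.H588R2.DksYes
import Pool.Agent.H588R2.DksMain

/-!
Links between the program and the random families.
-/

set_option linter.unusedSectionVars false

namespace Pool.Agent.H588R2.Dks

open Finset Pool.Agent.H588R2.DksP

noncomputable section

/-- Bit `i` of the random tape (`false` outside). -/
def rbF {R : ℕ} (ρ : Fin R → Bool) (i : ℕ) : Bool := if h : i < R then ρ ⟨i, h⟩ else false

/-- The family of raw strings read from the random tape. -/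
def famOf {R : ℕ} (N n J : ℕ) (ρ : Fin R → Bool) : Fin N → Fin n → Fin (J + 1) → Bool :=
  fun v x i => rbF ρ ((v.1 * n + x.1) * (J + 1) + i.1)

/-- Index of a bit. -/
def ix (N n J : ℕ) : Fin N × Fin n × Fin (J + 1) ≃ Fin (N * n * (J + 1)) :=
  (Equiv.prodAssoc _ _ _).symm.trans
    ((Equiv.prodCongr finProdFinEquiv (Equiv.refl _)).trans finProdFinEquiv)

theorem ix_val (N n J : ℕ) (v : Fin N) (x : Fin n) (i : Fin (J + 1)) :
    (ix N n J (v, x, i)).1 = (v.1 * n + x.1) * (J + 1) + i.1 := by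
  simp [ix, finProdFinEquiv]
  ring

def famQ (N n J : ℕ) :
    (Fin (N * n * (J + 1)) → Bool) ≃ (Fin N → Fin n → Fin (J + 1) → Bool) :=
  (Equiv.arrowCongr (ix N n J).symm (Equiv.refl Bool)).trans
    ((Equiv.curry _ _ _).trans (Equiv.piCongrRight (fun _ => Equiv.curry _ _ _)))

theorem famQ_apply (N n J : ℕ) (q : Fin (N * n * (J + 1)) → Bool) (v : Fin N) (x : Fin n)
    (i : Fin (J + 1)) : famQ N n J q v x i = q (ix N n J (v, x, i)) := rfl

open Classical in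
theorem transfer {R : ℕ} (N n J : ℕ) (h : N * n * (J + 1) ≤ R)
    (A : (Fin N → Fin n → Fin (J + 1) → Bool) → Prop) :
    ((univ.filter (fun ρ : Fin R → Bool => A (famOf N n J ρ))).card : ℝ) / 2 ^ R
      = ((univ.filter (fun F : Fin N → Fin n → Fin (J + 1) → Bool => A F)).card : ℝ) /
        Fintype.card (Fin N → Fin n → Fin (J + 1) → Bool) := by
  set t := N * n * (J + 1) with ht
  have h1 : ((univ.filter (fun ρ : Fin R → Bool => A (famOf N n J ρ))).card : ℝ)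
      = ∑ ρ : Fin R → Bool, (if A (famQ N n J (ρ ∘ Fin.castLE h)) then (1 : ℝ) else 0) := by
    rw [Finset.card_filter]
    push_cast
    apply Finset.sum_congr rfl
    intro ρ _
    have : famOf N n J ρ = famQ N n J (ρ ∘ Fin.castLE h) := by
      funext v x i
      rw [famQ_apply]
      unfold famOf rbF
      have hlt : (v.1 * n + x.1) * (J + 1) + i.1 < R := by
        rw [← ix_val]
        exact lt_of_lt_of_le (ix N n J (v, x, i)).2 h
      rw [dif_pos hlt]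
      simp only [Function.comp]
      congr 1
      ext
      simp [ix_val]
    rw [this]
  rw [h1, sum_comp_inj (Fin.castLE h) (Fin.castLE_injective h)
    (fun q => if A (famQ N n J q) then (1 : ℝ) else 0)]
  have h2 : ∑ q : Fin t → Bool, (if A (famQ N n J q) then (1 : ℝ) else 0)
      = ((univ.filter (fun F : Fin N → Fin n → Fin (J + 1) → Bool => A F)).card : ℝ) := by
    rw [(famQ N n J).sum_comp (fun F => if A F then (1 : ℝ) else 0), Finset.card_filter]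
    push_cast
    rfl
  rw [h2]
  have h3 : (Fintype.card (Fin N → Fin n → Fin (J + 1) → Bool) : ℝ) = 2 ^ t := by
    rw [← Fintype.card_congr (famQ N n J), Fintype.card_fun, Fintype.card_bool,
      Fintype.card_fin]
    push_cast
    rfl
  rw [h3, Fintype.card_bool]
  have h4 : (2 : ℝ) ^ R = 2 ^ (R - t) * 2 ^ t := by
    rw [← pow_add, Nat.sub_add_cancel h]
  rw [h4]
  push_cast
  field_simp

variable {n m : ℕ}

/-- Variable of the literal number `t`. -/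
def Vf (φ : Fin m → Fin 3 → Fin n × Bool) (t : ℕ) : ℕ :=
  if h : t / 3 < m then (φ ⟨t / 3, h⟩ ⟨t % 3, Nat.mod_lt _ (by norm_num)⟩).1.1 else 0

/-- Sign of the literal number `t`. -/
def Sf (φ : Fin m → Fin 3 → Fin n × Bool) (t : ℕ) : ℕ :=
  if h : t / 3 < m then (φ ⟨t / 3, h⟩ ⟨t % 3, Nat.mod_lt _ (by norm_num)⟩).2.toNat else 0

theorem Vf_eq (φ : Fin m → Fin 3 → Fin n × Bool) (i : Fin m) (j : Fin 3) :
    Vf φ (3 * i.1 + j.1) = (φ i j).1.1 := by
  have h1 : (3 * i.1 + j.1) / 3 = i.1 := by omega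
  have h2 : (3 * i.1 + j.1) % 3 = j.1 := by omega
  unfold Vf
  rw [dif_pos (by rw [h1]; exact i.2)]
  simp only [h1, h2]

theorem Sf_eq (φ : Fin m → Fin 3 → Fin n × Bool) (i : Fin m) (j : Fin 3) :
    Sf φ (3 * i.1 + j.1) = (φ i j).2.toNat := by
  have h1 : (3 * i.1 + j.1) / 3 = i.1 := by omega
  have h2 : (3 * i.1 + j.1) % 3 = j.1 := by omega
  unfold Sf
  rw [dif_pos (by rw [h1]; exact i.2)]
  simp only [h1, h2]

theorem Vf_lt (φ : Fin m → Fin 3 → Fin n × Bool) {t : ℕ} (ht : t < 3 * m) : Vf φ t < n := by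
  unfold Vf
  rw [dif_pos (by omega)]
  exact Fin.is_lt _

theorem Sf_le (φ : Fin m → Fin 3 → Fin n × Bool) (t : ℕ) : Sf φ t ≤ 1 := by
  unfold Sf
  split_ifs
  · exact Bool.toNat_le _
  · omega

theorem occN_eq (φ : Fin m → Fin 3 → Fin n × Bool) (x : Fin n) :
    occN m (Vf φ) x.1 = occF φ x := by
  unfold occN occF
  symm
  apply Finset.card_bij (fun q _ => 3 * q.1.1 + q.2.1)
  · rintro ⟨i, j⟩ hq
    rw [mem_filter] at hq
    rw [mem_filter, mem_range]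
    have h1 := i.2; have h2 := j.2
    refine ⟨?_, ?_⟩
    · simp only; omega
    · simp only
      rw [Vf_eq, hq.2]
  · rintro ⟨i, j⟩ _ ⟨i', j'⟩ _ h
    simp only at h
    have h2 := j.2; have h2' := j'.2
    have e1 : i.1 = i'.1 := by omega
    have e2 : j.1 = j'.1 := by omega
    exact Prod.ext (Fin.ext e1) (Fin.ext e2)
  · intro t ht
    rw [mem_filter, mem_range] at ht
    obtain ⟨ht1, ht2⟩ := ht
    refine ⟨(⟨t / 3, by omega⟩, ⟨t % 3, Nat.mod_lt _ (by norm_num)⟩), ?_, ?_⟩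
    · rw [mem_filter]
      refine ⟨mem_univ _, ?_⟩
      apply Fin.ext
      rw [← ht2]
      unfold Vf
      rw [dif_pos (by omega)]
    · simp only; omega

theorem hvN_eq (φ : Fin m → Fin 3 → Fin n × Bool) (Δ n₀ : ℕ) (x : Fin n) :
    hvN Δ n₀ n m (Vf φ) x.1 = 1 ↔ HeavyF φ Δ n₀ x := by
  unfold hvN HeavyF
  rw [occN_eq]
  by_cases h : Δ * m < occF φ x * n ∨ n < n₀
  · simp [h]
  · simp [h]

theorem acc_eq_zero {R : ℕ} (ρ : Fin R → Bool) (J p : ℕ) :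
    accN (fun i => (rbF ρ i).toNat) J (p + 1) = 0 ↔
      ∀ i : Fin J, rbF ρ (p + i.succ.1) = false := by
  unfold accN
  rw [Finset.sum_eq_zero_iff]
  constructor
  · intro h i
    have := h i.1 (mem_range.2 i.2)
    simp only [Bool.toNat_eq_zero] at this
    rw [Fin.val_succ, ← this]
    congr 1; ring
  · intro h i hi
    rw [mem_range] at hi
    have := h ⟨i, hi⟩
    simp only [Fin.val_succ] at this
    simp only [Bool.toNat_eq_zero]
    rw [← this]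
    congr 1; ring

theorem strN_eq {R : ℕ} (φ : Fin m → Fin 3 → Fin n × Bool) (Δ n₀ J N : ℕ) (ρ : Fin R → Bool)
    (v : Fin N) (x : Fin n) :
    strN J n (fun i => (rbF ρ i).toNat) (hvN Δ n₀ n m (Vf φ)) (v.1 * n + x.1)
      = valF (HeavyF φ Δ n₀) J x (famOf N n J ρ v x) := by
  have hmod : (v.1 * n + x.1) % n = x.1 := by
    rw [Nat.mul_add_mod_self_right]; exact Nat.mod_eq_of_lt x.2
  unfold strN valF
  rw [hmod]
  have hh := hvN_eq φ Δ n₀ x
  have hle := hvN_le Δ n₀ n m (Vf φ) x.1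
  set H := hvN Δ n₀ n m (Vf φ) x.1
  set p := (v.1 * n + x.1) * (J + 1) with hp
  have hz := acc_eq_zero ρ J p
  have hfam : ∀ i : Fin (J + 1), famOf N n J ρ v x i = rbF ρ (p + i.1) := fun i => rfl
  by_cases hx : HeavyF φ Δ n₀ x
  · have : H = 1 := hh.2 hx
    rw [this, if_pos (Or.inl hx)]
    simp [hfam]
  · have : H = 0 := by
      have : H ≠ 1 := fun h => hx (hh.1 h)
      omega
    rw [this]
    by_cases hz2 : ∀ i : Fin J, rbF ρ (p + i.succ.1) = false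
    · rw [hz.2 hz2, if_pos (Or.inr (fun i => by rw [hfam]; exact hz2 i))]
      simp [hfam]
    · have h0 : accN (fun i => (rbF ρ i).toNat) J (p + 1) ≠ 0 := fun h => hz2 (hz.1 h)
      rw [if_pos (by omega), if_neg]
      rintro (h | h)
      · exact hx h
      · exact hz2 (fun i => by rw [← hfam]; exact h i)

theorem okN_eq {R : ℕ} (φ : Fin m → Fin 3 → Fin n × Bool) (Δ n₀ J N : ℕ) (ρ : Fin R → Bool)
    (v : Fin N) :
    okN n m (Vf φ) (Sf φ) (strN J n (fun i => (rbF ρ i).toNat) (hvN Δ n₀ n m (Vf φ))) v.1 = 1 ↔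
      ValidF φ (fun x => valF (HeavyF φ Δ n₀) J x (famOf N n J ρ v x)) := by
  have hF : ∀ (i : Fin m) (j : Fin 3), Fal n (Vf φ) (Sf φ)
      (strN J n (fun i => (rbF ρ i).toNat) (hvN Δ n₀ n m (Vf φ))) v.1 (3 * i.1 + j.1) ↔
      FalL (fun x => valF (HeavyF φ Δ n₀) J x (famOf N n J ρ v x)) (φ i j) := by
    intro i j
    unfold Fal FalL
    rw [Vf_eq, Sf_eq, strN_eq]
  unfold okN ValidF
  by_cases h : ∃ i < m, Fal n (Vf φ) (Sf φ)
      (strN J n (fun i => (rbF ρ i).toNat) (hvN Δ n₀ n m (Vf φ))) v.1 (3 * i) ∧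
      Fal n (Vf φ) (Sf φ)
      (strN J n (fun i => (rbF ρ i).toNat) (hvN Δ n₀ n m (Vf φ))) v.1 (3 * i + 1) ∧
      Fal n (Vf φ) (Sf φ)
      (strN J n (fun i => (rbF ρ i).toNat) (hvN Δ n₀ n m (Vf φ))) v.1 (3 * i + 2)
  · rw [if_pos h]
    simp only [zero_ne_one, false_iff]
    intro hval
    obtain ⟨i, hi, h0, h1, h2⟩ := h
    apply hval ⟨i, hi⟩
    intro j
    fin_cases j
    · exact (hF ⟨i, hi⟩ 0).1 (by simpa using h0)
    · exact (hF ⟨i, hi⟩ 1).1 (by simpa using h1)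
    · exact (hF ⟨i, hi⟩ 2).1 (by simpa using h2)
  · rw [if_neg h]
    simp only [true_iff]
    intro i hi
    apply h
    refine ⟨i.1, i.2, ?_, ?_, ?_⟩
    · simpa using (hF i 0).2 (hi 0)
    · simpa using (hF i 1).2 (hi 1)
    · simpa using (hF i 2).2 (hi 2)

theorem adN_eq {R : ℕ} (φ : Fin m → Fin 3 → Fin n × Bool) (Δ n₀ J N : ℕ) (ρ : Fin R → Bool)
    (u v : Fin N) :
    adN n (okN n m (Vf φ) (Sf φ) (strN J n (fun i => (rbF ρ i).toNat) (hvN Δ n₀ n m (Vf φ))))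
      (strN J n (fun i => (rbF ρ i).toNat) (hvN Δ n₀ n m (Vf φ))) u.1 v.1 = 1 ↔
      adjF (valF (HeavyF φ Δ n₀) J) (ValidF φ) (famOf N n J ρ) u v := by
  unfold adN adjF
  have h0 : ∀ (c : Prop) [Decidable c], (if c then 1 else 0) = 1 ↔ c := by
    intro c _; split_ifs with h <;> simp [h]
  refine (h0 _).trans ?_
  rw [okN_eq, okN_eq]
  have h1 : (∀ x < n, strN J n (fun i => (rbF ρ i).toNat) (hvN Δ n₀ n m (Vf φ)) (u.1 * n + x)
      + strN J n (fun i => (rbF ρ i).toNat) (hvN Δ n₀ n m (Vf φ)) (v.1 * n + x) ≠ 1) ↔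
      ∀ x, valF (HeavyF φ Δ n₀) J x (famOf N n J ρ u x)
        + valF (HeavyF φ Δ n₀) J x (famOf N n J ρ v x) ≠ 1 := by
    constructor
    · intro h x
      rw [← strN_eq, ← strN_eq]
      exact h x.1 x.2
    · intro h x hx
      have := h ⟨x, hx⟩
      rw [← strN_eq, ← strN_eq] at this
      exact this
  rw [h1]
  have h2 : u.1 ≠ v.1 ↔ u ≠ v := by
    rw [ne_eq, ne_eq, Fin.ext_iff]
  rw [h2]

theorem pr_relation (φ : Fin m → Fin 3 → Fin n × Bool) (Δ n₀ J k : ℕ) :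
    (∏ x, pr (2 ^ (J + 1)) (HeavyF φ Δ n₀ x)) * aN k (2 ^ (J + 1)) (hvN Δ n₀ n m (Vf φ)) n
      = 3 * k * bN (2 ^ (J + 1)) (hvN Δ n₀ n m (Vf φ)) n := by
  unfold aN bN
  rw [← Fin.prod_univ_eq_prod_range (fun x => if hvN Δ n₀ n m (Vf φ) x = 1 then 2
      else 2 ^ (J + 1)) n,
    ← Fin.prod_univ_eq_prod_range (fun x => if hvN Δ n₀ n m (Vf φ) x = 1 then 1
      else 2 ^ (J + 1) - 1) n]
  push_cast
  have h1 : ∀ x : Fin n, pr (2 ^ (J + 1)) (HeavyF φ Δ n₀ x) *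
      (if hvN Δ n₀ n m (Vf φ) x.1 = 1 then (2 : ℝ) else 2 ^ (J + 1))
      = (if hvN Δ n₀ n m (Vf φ) x.1 = 1 then (1 : ℝ) else ((2 ^ (J + 1) - 1 : ℕ) : ℝ)) := by
    intro x
    have h := hvN_eq φ Δ n₀ x
    by_cases hx : HeavyF φ Δ n₀ x
    · have h2 := h.2 hx
      simp [pr, hx, h2]
    · have h2 : ¬ hvN Δ n₀ n m (Vf φ) x.1 = 1 := fun h' => hx (h.1 h')
      have h3 : 1 ≤ 2 ^ (J + 1) := Nat.one_le_two_pow
      simp [pr, hx, h2, Nat.cast_sub h3]
  calc (∏ x, pr (2 ^ (J + 1)) (HeavyF φ Δ n₀ x)) *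
        (3 * k * ∏ x : Fin n, (if hvN Δ n₀ n m (Vf φ) x.1 = 1 then (2 : ℝ) else 2 ^ (J + 1)))
      = 3 * k * ∏ x : Fin n, (pr (2 ^ (J + 1)) (HeavyF φ Δ n₀ x) *
        (if hvN Δ n₀ n m (Vf φ) x.1 = 1 then (2 : ℝ) else 2 ^ (J + 1))) := by
        rw [Finset.prod_mul_distrib]; ring
    _ = _ := by
        rw [Finset.prod_congr rfl (fun x _ => h1 x)]

theorem gN_bounds (φ : Fin m → Fin 3 → Fin n × Bool) (Δ n₀ J k : ℕ) (hJ : 1 ≤ J) (hk : 0 < k) :
    3 * (k : ℝ) ≤ gN k (2 ^ (J + 1)) (hvN Δ n₀ n m (Vf φ)) n *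
        ∏ x, pr (2 ^ (J + 1)) (HeavyF φ Δ n₀ x) ∧
    gN k (2 ^ (J + 1)) (hvN Δ n₀ n m (Vf φ)) n *
        ∏ x, pr (2 ^ (J + 1)) (HeavyF φ Δ n₀ x) ≤ 3 * k + 1 := by
  have hc2 : 2 ≤ 2 ^ (J + 1) := by
    calc 2 = 2 ^ 1 := rfl
      _ ≤ 2 ^ (J + 1) := Nat.pow_le_pow_right (by norm_num) (by omega)
  have hM : (2 : ℝ) < 2 ^ (J + 1) := by
    calc (2 : ℝ) < 2 ^ 2 := by norm_num
      _ ≤ 2 ^ (J + 1) := pow_le_pow_right₀ (by norm_num) (by omega)
  set H := hvN Δ n₀ n m (Vf φ) with hH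
  set P := ∏ x, pr (2 ^ (J + 1)) (HeavyF φ Δ n₀ x) with hP
  have hrel := pr_relation φ Δ n₀ J k
  rw [← hP, ← hH] at hrel
  have hP0 : 0 < P := Finset.prod_pos (fun x _ => pr_pos hM _)
  have hP1 : P ≤ 1 := Finset.prod_le_one (fun x _ => (pr_pos hM _).le)
    (fun x _ => pr_le_one hM _)
  have hb : (0 : ℝ) < bN (2 ^ (J + 1)) H n := by exact_mod_cast bN_pos hc2 H n
  have ha : (0 : ℝ) < aN k (2 ^ (J + 1)) H n := by
    have h1 : 0 < 3 * (k : ℝ) * bN (2 ^ (J + 1)) H n := by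
      have : (0 : ℝ) < k := by exact_mod_cast hk
      positivity
    rw [← hrel] at h1
    exact (pos_iff_pos_of_mul_pos h1).1 hP0
  have h1 : (aN k (2 ^ (J + 1)) H n : ℝ) ≤ gN k (2 ^ (J + 1)) H n * bN (2 ^ (J + 1)) H n := by
    exact_mod_cast gN_ge hc2 H n
  have h2 : (gN k (2 ^ (J + 1)) H n : ℝ) * bN (2 ^ (J + 1)) H n
      < aN k (2 ^ (J + 1)) H n + bN (2 ^ (J + 1)) H n := by
    exact_mod_cast gN_mul_lt hc2 H n
  set a : ℝ := (aN k (2 ^ (J + 1)) H n : ℝ)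
  set b : ℝ := (bN (2 ^ (J + 1)) H n : ℝ)
  set g : ℝ := (gN k (2 ^ (J + 1)) H n : ℝ)
  have hg0 : 0 ≤ g := Nat.cast_nonneg _
  constructor
  · -- 3 k * b = P a ≤ P g b
    have h3 : 3 * (k : ℝ) * b ≤ (g * P) * b := by
      rw [← hrel]; nlinarith
    exact le_of_mul_le_mul_right h3 hb
  · have h3 : (g * P) * b ≤ (3 * k + 1) * b := by
      have : P * (g * b) ≤ P * (a + b) := mul_le_mul_of_nonneg_left h2.le hP0.le
      nlinarith
    exact le_of_mul_le_mul_right h3 hb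

end

end Pool.Agent.H588R2.Dks
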