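import Pool.Agent.H588R2.DksProb

/-!
A family outside the bad event has no dense small subgraph.
-/

set_option linter.unusedSectionVars false

namespace Pool.Agent.H588R2.Dks

open Finset

noncomputable section

open Classical in
theorem handshake (h : ℕ) (ad : ℕ → ℕ → Prop)
    (hsymm : ∀ i j, ad i j → ad j i) (hirr : ∀ i, ¬ ad i i) :
    ∑ i ∈ range h, dg h ad i = 2 * ∑ u ∈ range h, cnt (Bk ad u) u := by
  have hdeg : ∀ i, i < h → dg h ad i = cnt (Bk ad i) i +
      ((range h).filter (fun u => i < u ∧ ad i u)).card := by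
    intro i hi
    unfold dg cnt Bk
    rw [← Finset.card_union_of_disjoint]
    · congr 1
      ext j
      simp only [mem_filter, mem_range, mem_union]
      constructor
      · rintro ⟨hj, haj⟩
        rcases Nat.lt_trichotomy i j with h1 | h1 | h1
        · exact Or.inr ⟨hj, h1, haj⟩
        · subst h1; exact absurd haj (hirr i)
        · exact Or.inl ⟨h1, h1, hsymm _ _ haj⟩
      · rintro (⟨h1, _, h2⟩ | ⟨h1, _, h2⟩)
        · exact ⟨by omega, hsymm _ _ h2⟩
        · exact ⟨h1, h2⟩
    · rw [Finset.disjoint_left]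
      intro j hj hj'
      simp only [mem_filter, mem_range] at hj hj'
      omega
  have h1 : ∑ u ∈ range h, ∑ i ∈ (range u).filter (Bk ad u), 1
      = ∑ i ∈ range h, ∑ u ∈ (range h).filter (fun u => i < u ∧ ad i u), 1 := by
    apply Finset.sum_comm'
    intro u i
    simp only [mem_filter, mem_range, Bk]
    constructor
    · rintro ⟨h1, h2, h3, h4⟩; exact ⟨⟨h1, h3, h4⟩, by omega⟩
    · rintro ⟨⟨h1, h3, h4⟩, h2⟩; exact ⟨h1, h3, h3, h4⟩
  simp only [Finset.sum_const, smul_eq_mul, mul_one] at h1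
  rw [Finset.sum_congr rfl (fun i hi => hdeg i (mem_range.1 hi)), Finset.sum_add_distrib,
    ← h1, two_mul]
  rfl

variable {X : Type} [Fintype X] [DecidableEq X] {Ω : Type} [Fintype Ω] {val : X → Ω → ℕ}
  {D : Data X} {Valid : (X → ℕ) → Prop}

/-- Adjacency of the vertices `u` and `v` of the family `F`. -/
def adjF (val : X → Ω → ℕ) (Valid : (X → ℕ) → Prop) {N : ℕ} (F : Fin N → X → Ω)
    (u v : Fin N) : Prop :=
  u ≠ v ∧ Valid (fun x => val x (F u x)) ∧ Valid (fun x => val x (F v x)) ∧
    ∀ x, val x (F u x) + val x (F v x) ≠ 1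

theorem adjF.symm {N : ℕ} {F : Fin N → X → Ω} {u v : Fin N} (h : adjF val Valid F u v) :
    adjF val Valid F v u :=
  ⟨h.1.symm, h.2.2.1, h.2.1, fun x => by rw [add_comm]; exact h.2.2.2 x⟩

open Classical in
/-- Number of ordered pairs of adjacent vertices in `S`. -/
def e2 (val : X → Ω → ℕ) (Valid : (X → ℕ) → Prop) {N : ℕ} (F : Fin N → X → Ω)
    (S : Finset (Fin N)) : ℕ :=
  ((S ×ˢ S).filter (fun q => adjF val Valid F q.1 q.2)).card

open Classical in
theorem no_dense {E β δ : ℝ} (hm : Model D Ω val) (hM : 3 ≤ D.M) (hβ0 : 0 < β)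
    (hβ : β ≤ 1 / 2) (hδ : 0 ≤ δ)
    (hval2 : ∀ x ω, val x ω ≤ 2) (hval1 : ∀ x ω, D.hv x → val x ω ≤ 1)
    (hG : Gap D Valid E) (k N : ℕ) (F : Fin N → X → Ω)
    (hF : F ∉ badF D val (1 / (4 * (D.M - 1))) β δ k N)
    (S : Finset (Fin N)) (hS : S.card ≤ k) :
    (e2 val Valid F S : ℝ) *
        ((1 / (D.M - 1)) ^ 3 * E - 2 * β * Fintype.card X - 2 * Real.log (k + 1))
      ≤ 2 * k * (δ - Fintype.card X *
          (Real.log ((1 / (4 * (D.M - 1))) / 2) + Real.log β)) := by
  set A := adjF val Valid F with hA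
  set S' := S.filter (fun u => ∃ v ∈ S, A u v) with hS'
  have hS'S : S' ⊆ S := Finset.filter_subset _ _
  set h := S'.card with hh
  have hhk : h ≤ k := (Finset.card_le_card hS'S).trans hS
  -- sorted enumeration
  let dS : Fin N → ℕ := fun u => (S'.filter (fun v => A u v)).card
  let e0 : Fin h ≃ {x // x ∈ S'} := S'.equivFin.symm
  let f : Fin h → ℕᵒᵈ := fun i => OrderDual.toDual (dS (e0 i).1)
  let σ : Fin h → Fin N := fun i => (e0 (Tuple.sort f i)).1
  have hσinj : Function.Injective σ := by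
    intro i j hij
    have := e0.injective (Subtype.ext hij)
    exact (Tuple.sort f).injective this
  have hσmem : ∀ i, σ i ∈ S' := fun i => (e0 (Tuple.sort f i)).2
  have hσsurj : ∀ v ∈ S', ∃ i, σ i = v := by
    intro v hv
    refine ⟨(Tuple.sort f).symm (e0.symm ⟨v, hv⟩), ?_⟩
    simp [σ]
  have hσanti : ∀ i j : Fin h, i ≤ j → dS (σ j) ≤ dS (σ i) := by
    intro i j hij
    exact Tuple.monotone_sort f hij
  let ad : Fin k → Fin k → Bool := fun i j =>
    decide (∃ (hi : i.1 < h) (hj : j.1 < h), A (σ ⟨i.1, hi⟩) (σ ⟨j.1, hj⟩))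
  have hext : ∀ i j, ext k ad i j ↔ ∃ (hi : i < h) (hj : j < h), A (σ ⟨i, hi⟩) (σ ⟨j, hj⟩) := by
    intro i j
    constructor
    · rintro ⟨hi, hj, hd⟩
      exact of_decide_eq_true hd
    · rintro ⟨hi, hj, hd⟩
      exact ⟨by omega, by omega, decide_eq_true ⟨hi, hj, hd⟩⟩
  have hsymm : ∀ i j, ext k ad i j → ext k ad j i := by
    intro i j hij
    rw [hext] at hij ⊢
    obtain ⟨hi, hj, hd⟩ := hij
    exact ⟨hj, hi, hd.symm⟩
  have hirr : ∀ i, ¬ ext k ad i i := by
    intro i hii
    rw [hext] at hii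
    obtain ⟨hi, hj, hd⟩ := hii
    exact hd.1 rfl
  have hdg : ∀ i (hi : i < h), dg h (ext k ad) i = dS (σ ⟨i, hi⟩) := by
    intro i hi
    unfold dg
    apply Finset.card_bij (fun j hj => σ ⟨j, by
      rw [mem_filter, mem_range] at hj; exact hj.1⟩)
    · intro j hj
      rw [mem_filter, mem_range, hext] at hj
      obtain ⟨_, h2, h3, h4⟩ := hj
      rw [mem_filter]
      exact ⟨hσmem _, h4⟩
    · intro j hj j' hj' heq
      have := hσinj heq
      simpa using this
    · intro v hv
      rw [mem_filter] at hv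
      obtain ⟨⟨j, hj⟩, hjv⟩ := hσsurj v hv.1
      refine ⟨j, ?_, hjv⟩
      rw [mem_filter, mem_range, hext]
      exact ⟨hj, hi, hj, by rw [hjv]; exact hv.2⟩
  have hpos : ∀ i < h, 0 < dg h (ext k ad) i := by
    intro i hi
    rw [hdg i hi]
    have := hσmem ⟨i, hi⟩
    rw [hS', mem_filter] at this
    obtain ⟨hu, v, hv, hAv⟩ := this
    apply Finset.card_pos.2
    refine ⟨v, ?_⟩
    rw [mem_filter, hS', mem_filter]
    exact ⟨⟨hv, _, hu, hAv.symm⟩, hAv⟩
  set α := vals val (F ∘ σ) with hα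
  have hαv : ∀ i (hi : i < h) x, α i x = val x (F (σ ⟨i, hi⟩) x) := by
    intro i hi x
    simp [α, vals, hi]
  have hcons : ∀ u < h, (∃ i, Bk (ext k ad) u i) → Cons D Valid (Bk (ext k ad) u) α u := by
    intro u hu hne
    have hadj : ∀ i, Bk (ext k ad) u i → ∃ hi : i < h, A (σ ⟨i, hi⟩) (σ ⟨u, hu⟩) := by
      rintro i ⟨_, hi⟩
      rw [hext] at hi
      obtain ⟨h1, h2, h3⟩ := hi
      exact ⟨h1, h3⟩
    refine ⟨hne, fun i hi => hi.1, ?_, ?_, ?_, ?_⟩
    · rintro i _ x
      by_cases hi : i < h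
      · rw [hαv i hi]; exact hval2 _ _
      · simp [α, vals, hi]
    · rintro i _ x hx
      by_cases hi : i < h
      · rw [hαv i hi]; exact hval1 _ _ hx
      · simp [α, vals, hi]
    · intro i hi x
      obtain ⟨h1, h2⟩ := hadj i hi
      rw [hαv i h1, hαv u hu]
      exact h2.2.2.2 x
    · obtain ⟨i, hi⟩ := hne
      obtain ⟨h1, h2⟩ := hadj i hi
      have : α u = fun x => val x (F (σ ⟨u, hu⟩) x) := by
        funext x; exact hαv u hu x
      rw [this]; exact h2.2.2.1
  have hsmall : ∀ t ≤ h, ∏ i ∈ range t, Lmix D (1 / (4 * (D.M - 1))) β h (ext k ad) α i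
      ≤ Real.exp δ := by
    intro t ht
    by_contra hcon
    push Not at hcon
    apply hF
    unfold badF
    rw [mem_filter]
    refine ⟨mem_univ _, h, hhk, ad, t, by omega, fun i => σ ⟨i.1, by omega⟩, ?_, ?_⟩
    · intro i j hij
      have := hσinj hij
      ext
      simpa using this
    · refine lt_of_lt_of_eq hcon ?_
      apply Finset.prod_congr rfl
      intro i hi
      rw [mem_range] at hi
      apply Lmix_congr
      intro j hj
      funext x
      have hjt : j < t := by omega
      have hjh : j < h := by omega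
      rw [hαv j hjh]
      simp [vals, hjt]
  have key := density_bound hM hβ0 hβ hG h (ext k ad) hsymm hirr
    (by
      intro i j hij hj
      rw [hdg j hj, hdg i (by omega)]
      exact hσanti _ _ hij) hpos hcons hsmall
  -- number of edges
  have hsum : e2 val Valid F S = ∑ i ∈ range h, dg h (ext k ad) i := by
    have h1 : e2 val Valid F S = ∑ u ∈ S', dS u := by
      unfold e2
      rw [Finset.card_filter, Finset.sum_product]
      have h2 : ∑ u ∈ S, ∑ v ∈ S, (if adjF val Valid F (u, v).1 (u, v).2 then 1 else 0)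
          = ∑ u ∈ S, (S.filter (fun v => A u v)).card := by
        apply Finset.sum_congr rfl
        intro u _
        rw [Finset.card_filter]
      rw [h2]
      have h3 : ∑ u ∈ S', (S.filter (fun v => A u v)).card
          = ∑ u ∈ S, (S.filter (fun v => A u v)).card := by
        apply Finset.sum_subset hS'S
        intro u hu hu'
        rw [Finset.card_eq_zero, Finset.filter_eq_empty_iff]
        intro v hv hAv
        apply hu'
        rw [hS', mem_filter]
        exact ⟨hu, v, hv, hAv⟩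
      rw [← h3]
      apply Finset.sum_congr rfl
      intro u hu
      rw [hS', mem_filter] at hu
      congr 1
      ext v
      simp only [mem_filter, hS']
      constructor
      · rintro ⟨hv, hAv⟩; exact ⟨⟨hv, u, hu.1, hAv.symm⟩, hAv⟩
      · rintro ⟨⟨hv, _⟩, hAv⟩; exact ⟨hv, hAv⟩
    rw [h1, Finset.sum_range]
    symm
    apply Finset.sum_bij (fun (i : Fin h) _ => σ i)
    · intro i _; exact hσmem i
    · intro i _ j _ hij; exact hσinj hij
    · intro v hv
      obtain ⟨i, hi⟩ := hσsurj v hv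
      exact ⟨i, mem_univ _, hi⟩
    · intro i _
      exact hdg i.1 i.2
  have hhs := handshake h (ext k ad) hsymm hirr
  rw [hhs] at hsum
  have hsum' : (e2 val Valid F S : ℝ) = 2 * ∑ u ∈ range h, (cnt (Bk (ext k ad) u) u : ℝ) := by
    rw [hsum]; push_cast; ring
  set cS := ∑ u ∈ range h, (cnt (Bk (ext k ad) u) u : ℝ) with hcS
  have hcS0 : 0 ≤ cS := Finset.sum_nonneg (fun _ _ => Nat.cast_nonneg _)
  have hlog : Real.log (h + 1) ≤ Real.log (k + 1) := by
    apply Real.log_le_log (by positivity)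
    have : (h : ℝ) ≤ k := by exact_mod_cast hhk
    linarith
  have hκ : Real.log ((1 / (4 * (D.M - 1))) / 2) + Real.log β ≤ 0 := by
    have h1 : Real.log β ≤ 0 := Real.log_nonpos hβ0.le (by linarith)
    have h2 : 1 / (4 * (D.M - 1)) ≤ 1 := by
      rw [div_le_one (by linarith)]; linarith
    have h3 : 0 < 1 / (4 * (D.M - 1)) := by
      apply div_pos one_pos; linarith
    have h4 : Real.log ((1 / (4 * (D.M - 1))) / 2) ≤ 0 :=
      Real.log_nonpos (by positivity) (by linarith)
    linarith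
  have hR0 : 0 ≤ δ - Fintype.card X *
      (Real.log ((1 / (4 * (D.M - 1))) / 2) + Real.log β) := by
    have : (0 : ℝ) ≤ Fintype.card X := Nat.cast_nonneg _
    nlinarith
  have hkh : (h : ℝ) ≤ k := by exact_mod_cast hhk
  rw [hsum']
  have h5 := mul_le_mul_of_nonneg_right hkh hR0
  have h6 := mul_le_mul_of_nonneg_left hlog hcS0
  nlinarith

end

end Pool.Agent.H588R2.Dks
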