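import Pool.Agent.H588R2.DksLink

/-!
Numerical bounds: word length and running time.
-/

set_option linter.unusedSectionVars false

namespace Pool.Agent.H588R2.Dks

open Finset Pool.Agent.H588R2.DksP

/-- `x < 2 ^ (a z)`. -/
def Bd (z a x : ℕ) : Prop := x < 2 ^ (a * z)

theorem Bd.const {z : ℕ} (hz : 1 ≤ z) (c : ℕ) : Bd z c c :=
  lt_of_lt_of_le Nat.lt_two_pow_self
    (Nat.pow_le_pow_right (by norm_num) (Nat.le_mul_of_pos_right _ hz))

theorem Bd.mul {z a b x y : ℕ} (hx : Bd z a x) (hy : Bd z b y) : Bd z (a + b) (x * y) := by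
  unfold Bd at *
  rw [add_mul, pow_add]
  exact Nat.mul_lt_mul'' hx hy

theorem Bd.add {z a b x y : ℕ} (hz : 1 ≤ z) (hx : Bd z a x) (hy : Bd z b y) :
    Bd z (a + b + 1) (x + y) := by
  unfold Bd at *
  have h1 : 2 ^ (a * z) ≤ 2 ^ (a * z + b * z) := Nat.pow_le_pow_right (by norm_num) (by omega)
  have h2 : 2 ^ (b * z) ≤ 2 ^ (a * z + b * z) := Nat.pow_le_pow_right (by norm_num) (by omega)
  have h3 : 2 * 2 ^ (a * z + b * z) ≤ 2 ^ ((a + b + 1) * z) := by
    rw [← pow_succ']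
    apply Nat.pow_le_pow_right (by norm_num)
    rw [add_mul, add_mul, one_mul]; omega
  omega

theorem Bd.pow {z a x : ℕ} (hz : 1 ≤ z) (hx : Bd z a x) (c : ℕ) : Bd z (a * c + 1) (x ^ c) := by
  unfold Bd at *
  rcases Nat.eq_zero_or_pos c with rfl | hc
  · simp only [pow_zero, mul_zero, zero_add, one_mul]
    exact Nat.one_lt_two_pow (by omega)
  · calc x ^ c < (2 ^ (a * z)) ^ c := Nat.pow_lt_pow_left hx (by omega)
      _ = 2 ^ (a * z * c) := by rw [← pow_mul]
      _ ≤ 2 ^ ((a * c + 1) * z) := by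
          apply Nat.pow_le_pow_right (by norm_num)
          have : a * z * c = a * c * z := by ring
          rw [this, add_mul]; omega

theorem Bd.le {z a x y : ℕ} (hy : Bd z a y) (h : x ≤ y) : Bd z a x := lt_of_le_of_lt h hy

theorem Bd.fin {z a x A w : ℕ} (hx : Bd z a x) (ha : a ≤ A) (hw : A * z ≤ w) : x < 2 ^ w :=
  lt_of_lt_of_le hx (Nat.pow_le_pow_right (by norm_num) ((Nat.mul_le_mul_right z ha).trans hw))

theorem fits_of {k J Δ n₀ Th fk c : ℕ} : ∃ cw : ℕ, ∀ (n m w : ℕ) (H : ℕ → ℕ), 0 < n → 0 < m →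
    cw * (n + Nat.log 2 m + 1) ≤ w →
    Fits w n m (gN k (2 ^ (J + 1)) H n * k) J k Δ n₀ Th ∧
      fk * (gN k (2 ^ (J + 1)) H n * k + 2) ^ c ≤ 2 ^ w := by
  have hc2 : 2 ≤ 2 ^ (J + 1) := by
    calc 2 = 2 ^ 1 := rfl
      _ ≤ 2 ^ (J + 1) := Nat.pow_le_pow_right (by norm_num) (by omega)
  -- exponents
  let eN := 3 * k + (J + 2) + k
  refine ⟨100 + 10 * (J + 3) + Δ + n₀ + 2 ^ (J + 1) + 10 * k + 3 * eN + Th + fk +
    ((eN + 2 + 1) * c + 1), ?_⟩
  intro n m w H hn hm hw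
  set z := n + Nat.log 2 m + 1 with hz
  set A := 100 + 10 * (J + 3) + Δ + n₀ + 2 ^ (J + 1) + 10 * k + 3 * eN + Th + fk +
    ((eN + 2 + 1) * c + 1) with hA
  have hz1 : 1 ≤ z := by omega
  have bn : Bd z 1 n := by
    unfold Bd
    rw [one_mul]
    exact lt_of_lt_of_le Nat.lt_two_pow_self (Nat.pow_le_pow_right (by norm_num) (by omega))
  have bm : Bd z 1 m := by
    unfold Bd
    rw [one_mul]
    exact lt_of_lt_of_le (Nat.lt_pow_succ_log_self (by norm_num) m)
      (Nat.pow_le_pow_right (by norm_num) (by omega))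
  have bcn : Bd z (J + 2) ((2 ^ (J + 1)) ^ n) := by
    unfold Bd
    rw [← pow_mul]
    apply Nat.pow_lt_pow_right (by norm_num)
    have h1 : (J + 1) * n ≤ (J + 1) * z := Nat.mul_le_mul_left _ (by omega)
    have h2 : (J + 2) * z = (J + 1) * z + z := by ring
    omega
  have bN : Bd z eN (gN k (2 ^ (J + 1)) H n * k) := by
    apply Bd.mul _ (Bd.const hz1 k)
    apply Bd.le (Bd.mul (Bd.const hz1 (3 * k)) bcn)
    exact gN_le hc2 H n
  set N := gN k (2 ^ (J + 1)) H n * k with hN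
  refine ⟨⟨?_, ?_, ?_, ?_, ?_, ?_, ?_, ?_, ?_, ?_, ?_, ?_, ?_, ?_⟩, ?_⟩
  · exact (Bd.add hz1 (Bd.mul (Bd.const hz1 6) bm) (Bd.const hz1 10)).fin (by omega) hw
  · exact (Bd.mul (Bd.mul (Bd.const hz1 3) bm) bn).fin (by omega) hw
  · exact (Bd.mul (Bd.const hz1 Δ) bm).fin (by omega) hw
  · exact (Bd.const hz1 Δ).fin (by omega) hw
  · exact (Bd.const hz1 n₀).fin (by omega) hw
  · exact bn.fin (by omega) hw
  · exact (Bd.const hz1 (2 ^ (J + 1))).fin (by omega) hw
  · exact (Bd.const hz1 (3 * k)).fin (by omega) hw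
  · exact (Bd.add hz1 (Bd.mul (Bd.const hz1 (3 * k)) bcn) bcn).fin (by omega) hw
  · exact (Bd.mul (Bd.mul bN bn) (Bd.const hz1 (J + 1))).fin (by omega) hw
  · exact (Bd.add hz1 (Bd.mul bN bn) bn).fin (by omega) hw
  · exact (Bd.add hz1 (Bd.mul bN bN) (Bd.const hz1 10)).fin (by omega) hw
  · exact (Bd.add hz1 (Bd.mul (Bd.const hz1 k) (Bd.const hz1 k)) (Bd.const hz1 1)).fin
      (by omega) hw
  · exact (Bd.const hz1 Th).fin (by omega) hw
  · exact ((Bd.mul (Bd.const hz1 fk)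
      (Bd.pow hz1 (Bd.add hz1 bN (Bd.const hz1 2)) c)).fin (by omega) hw).le

/-- Bound on the running time in natural numbers. -/
theorem time_nat {n m N J k g fk c : ℕ} (hn : 0 < n) (hm : 0 < m) (hgN : g ≤ N) :
    tMain n m N J k g + (fk * (N + 2) ^ c + 1) + (k * (k * 7 + 8) + 10) + N * n * (J + 1)
      ≤ (400 + 4 * J + fk + 7 * k * k + 8 * k) * ((n + m) ^ 2 * (N + 2) ^ (c + 2)) := by
  set X := (n + m) ^ 2 with hX
  set Y := (N + 2) ^ (c + 2) with hY
  have hY2 : (N + 2) ^ 2 ≤ Y := Nat.pow_le_pow_right (by omega) (by omega)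
  have hYc : (N + 2) ^ c ≤ Y := Nat.pow_le_pow_right (by omega) (by omega)
  have hX1 : 1 ≤ X := Nat.one_le_pow _ _ (by omega)
  have hY1 : 1 ≤ Y := Nat.one_le_pow _ _ (by omega)
  have hnX : n ≤ X := by rw [hX]; nlinarith
  have hmX : m ≤ X := by rw [hX]; nlinarith
  have hnmX : n * m ≤ X := by rw [hX]; nlinarith
  have hNY : N ≤ Y := le_trans (by nlinarith) hY2
  have hNNY : N * N ≤ Y := le_trans (by nlinarith) hY2
  have hXY : 1 ≤ X * Y := Nat.mul_pos hX1 hY1
  have hXle : X ≤ X * Y := Nat.le_mul_of_pos_right _ hY1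
  have hYle : Y ≤ X * Y := Nat.le_mul_of_pos_left _ hX1
  have h1 : n * m ≤ X * Y := hnmX.trans hXle
  have h2 : n ≤ X * Y := hnX.trans hXle
  have h3 : g ≤ X * Y := (hgN.trans hNY).trans hYle
  have h4 : N ≤ X * Y := hNY.trans hYle
  have h5 : N * n ≤ X * Y := by rw [mul_comm X Y]; exact Nat.mul_le_mul hNY hnX
  have h6 : N * m ≤ X * Y := by rw [mul_comm X Y]; exact Nat.mul_le_mul hNY hmX
  have h7 : N * N ≤ X * Y := hNNY.trans hYle
  have h8 : N * N * n ≤ X * Y := by rw [mul_comm X Y]; exact Nat.mul_le_mul hNNY hnX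
  have h9 : (N + 2) ^ c ≤ X * Y := hYc.trans hYle
  set Z := X * Y
  have h9' : fk * (N + 2) ^ c ≤ fk * Z := Nat.mul_le_mul_left _ h9
  have h10 : (3 * J + 16) * (N * n) ≤ (3 * J + 16) * Z := Nat.mul_le_mul_left _ h5
  have h11 : (J + 1) * (N * n) ≤ (J + 1) * Z := Nat.mul_le_mul_left _ h5
  have h12 : k * k ≤ k * k * Z := Nat.le_mul_of_pos_right _ hXY
  have h13 : k ≤ k * Z := Nat.le_mul_of_pos_right _ hXY
  unfold tMain
  nlinarith

/-- Few heavy variables. -/
theorem heavy_card {n m : ℕ} (φ : Fin m → Fin 3 → Fin n × Bool) (Δ n₀ : ℕ) (hm : 0 < m)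
    (hn : n₀ ≤ n) [DecidablePred (HeavyF φ Δ n₀)] :
    (univ.filter (fun x => HeavyF φ Δ n₀ x)).card * Δ ≤ 3 * n := by
  classical
  have h1 : (univ.filter (fun x => HeavyF φ Δ n₀ x)).card * (Δ * m)
      ≤ ∑ x : Fin n, occF φ x * n := by
    rw [← smul_eq_mul, ← Finset.sum_const]
    calc ∑ x ∈ univ.filter (fun x => HeavyF φ Δ n₀ x), Δ * m
        ≤ ∑ x ∈ univ.filter (fun x => HeavyF φ Δ n₀ x), occF φ x * n := by
          apply Finset.sum_le_sum
          intro x hx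
          rw [mem_filter] at hx
          rcases hx.2 with h | h
          · exact h.le
          · omega
      _ ≤ _ := Finset.sum_le_sum_of_subset (Finset.filter_subset _ _)
  have h2 : ∑ x : Fin n, occF φ x = m * 3 := by
    unfold occF
    rw [← Finset.card_eq_sum_card_fiberwise (f := fun q : Fin m × Fin 3 => (φ q.1 q.2).1)
      (s := univ) (t := univ) (by intro x _; simp)]
    rw [card_univ, Fintype.card_prod, Fintype.card_fin, Fintype.card_fin]
  rw [← Finset.sum_mul, h2] at h1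
  have h3 : ((univ.filter (fun x => HeavyF φ Δ n₀ x)).card * Δ) * m ≤ (3 * n) * m := by
    calc _ = (univ.filter (fun x => HeavyF φ Δ n₀ x)).card * (Δ * m) := by ring
      _ ≤ m * 3 * n := h1
      _ = _ := by ring
  exact Nat.le_of_mul_le_mul_right h3 hm

open Classical in
theorem prod_pr_ge {n m : ℕ} (φ : Fin m → Fin 3 → Fin n × Bool) (Δ n₀ J : ℕ) (hm : 0 < m)
    (hΔ : 0 < Δ) (hJ : 1 ≤ J) :
    (1 : ℝ) ≤ (2 ^ n₀ * (2 : ℝ) ^ ((3 / (Δ : ℝ) + 2 / ((2 : ℝ) ^ (J + 1) - 1)) * n)) *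
      ∏ x, pr (2 ^ (J + 1)) (HeavyF φ Δ n₀ x) := by
  set M : ℝ := (2 : ℝ) ^ (J + 1) with hM
  have hM4 : 4 ≤ M := by
    calc (4 : ℝ) = 2 ^ 2 := by norm_num
      _ ≤ 2 ^ (J + 1) := pow_le_pow_right₀ (by norm_num) (by omega)
  have hΔ' : (0 : ℝ) < Δ := by exact_mod_cast hΔ
  set γ : ℝ := 3 / (Δ : ℝ) + 2 / (M - 1) with hγ
  have hγ0 : 0 ≤ γ := by
    have : 0 < M - 1 := by linarith
    positivity
  have hhalf : ∀ x, (1 / 2 : ℝ) ≤ pr M (HeavyF φ Δ n₀ x) := by
    intro x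
    unfold pr
    split_ifs
    · exact le_rfl
    · rw [div_le_div_iff₀ (by norm_num) (by linarith)]; linarith
  rcases Nat.lt_or_ge n n₀ with hn | hn
  · have h1 : ((1 : ℝ) / 2) ^ n ≤ ∏ x, pr M (HeavyF φ Δ n₀ x) := by
      calc ((1 : ℝ) / 2) ^ n = ∏ x : Fin n, (1 / 2 : ℝ) := by simp
        _ ≤ _ := Finset.prod_le_prod (fun _ _ => by norm_num) (fun x _ => hhalf x)
    have h2 : (1 : ℝ) ≤ (2 : ℝ) ^ (γ * n) :=
      Real.one_le_rpow (by norm_num) (by positivity)
    have h3 : (2 : ℝ) ^ n ≤ 2 ^ n₀ := pow_le_pow_right₀ (by norm_num) hn.le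
    have h4 : (0 : ℝ) < (1 / 2) ^ n := by positivity
    calc (1 : ℝ) = (2 ^ n * 1) * (1 / 2) ^ n := by
          rw [mul_one, ← mul_pow]; norm_num
      _ ≤ (2 ^ n₀ * (2 : ℝ) ^ (γ * n)) * ∏ x, pr M (HeavyF φ Δ n₀ x) := by
          apply mul_le_mul _ h1 h4.le (by positivity)
          exact mul_le_mul h3 h2 (by norm_num) (by positivity)
  · have hc := heavy_card φ Δ n₀ hm hn
    set Hc := (univ.filter (fun x => HeavyF φ Δ n₀ x)).card with hHc
    have hsplit : ∏ x, pr M (HeavyF φ Δ n₀ x)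
        = (1 / 2) ^ Hc * ((M - 1) / M) ^ (univ.filter (fun x => ¬ HeavyF φ Δ n₀ x)).card := by
      rw [← Finset.prod_filter_mul_prod_filter_not univ (fun x => HeavyF φ Δ n₀ x)]
      congr 1
      · rw [hHc, ← Finset.prod_const]
        apply Finset.prod_congr rfl
        intro x hx
        rw [mem_filter] at hx
        simp [pr, hx.2]
      · rw [← Finset.prod_const]
        apply Finset.prod_congr rfl
        intro x hx
        rw [mem_filter] at hx
        simp [pr, hx.2]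
    have hq0 : 0 < (M - 1) / M := div_pos (by linarith) (by linarith)
    have hq1 : (M - 1) / M ≤ 1 := by rw [div_le_one (by linarith)]; linarith
    have hlc : (univ.filter (fun x => ¬ HeavyF φ Δ n₀ x)).card ≤ n := by
      have := Finset.card_filter_le (univ : Finset (Fin n)) (fun x => ¬ HeavyF φ Δ n₀ x)
      rwa [card_univ, Fintype.card_fin] at this
    have h1 : ((M - 1) / M) ^ n ≤ ((M - 1) / M) ^
        (univ.filter (fun x => ¬ HeavyF φ Δ n₀ x)).card :=
      pow_le_pow_of_le_one hq0.le hq1 hlc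
    have hHr : (Hc : ℝ) ≤ 3 / Δ * n := by
      have : (Hc : ℝ) * Δ ≤ 3 * n := by exact_mod_cast hc
      rw [div_mul_eq_mul_div, le_div_iff₀ hΔ']; exact this
    have h2 : (2 : ℝ) ^ (Hc : ℝ) ≤ 2 ^ (3 / (Δ : ℝ) * n) :=
      Real.rpow_le_rpow_of_exponent_le (by norm_num) hHr
    have h3 : M / (M - 1) ≤ (2 : ℝ) ^ (2 / (M - 1)) := by
      have hM1 : 0 < M - 1 := by linarith
      have e1 : M / (M - 1) = 1 + 1 / (M - 1) := by field_simp; ring
      rw [e1]
      have e2 : 1 + 1 / (M - 1) ≤ Real.exp (1 / (M - 1)) := by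
        have := Real.add_one_le_exp (1 / (M - 1)); linarith
      refine e2.trans ?_
      have e3 : (2 : ℝ) ^ (2 / (M - 1)) = Real.exp (Real.log 2 * (2 / (M - 1))) := by
        rw [Real.rpow_def_of_pos (by norm_num)]
      rw [e3, Real.exp_le_exp]
      have hl2 : (1 : ℝ) / 2 ≤ Real.log 2 := by
        have := Real.log_two_gt_d9; linarith
      have : Real.log 2 * (2 / (M - 1)) = (2 * Real.log 2) * (1 / (M - 1)) := by ring
      rw [this]
      have h1M : 0 ≤ 1 / (M - 1) := by positivity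
      nlinarith
    have h4 : (M / (M - 1)) ^ n ≤ (2 : ℝ) ^ (2 / (M - 1) * n) := by
      have hM1 : 0 < M - 1 := by linarith
      calc (M / (M - 1)) ^ n ≤ ((2 : ℝ) ^ (2 / (M - 1))) ^ n :=
            pow_le_pow_left₀ (by positivity) h3 n
        _ = _ := by rw [← Real.rpow_natCast, ← Real.rpow_mul (by norm_num)]
    have h5 : (1 : ℝ) ≤ 2 ^ n₀ := one_le_pow₀ (by norm_num)
    have e : (2 : ℝ) ^ (γ * n) = 2 ^ (3 / (Δ : ℝ) * n) * 2 ^ (2 / (M - 1) * n) := by
      rw [← Real.rpow_add (by norm_num), hγ]; congr 1; ring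
    rw [hsplit, e]
    have hM1 : 0 < M - 1 := by linarith
    have hM0 : 0 < M := by linarith
    calc (1 : ℝ) = (1 * ((2 : ℝ) ^ (Hc : ℝ) * (M / (M - 1)) ^ n)) *
          ((1 / 2) ^ Hc * ((M - 1) / M) ^ n) := by
          rw [Real.rpow_natCast]
          have e1 : (2 : ℝ) ^ Hc * (1 / 2) ^ Hc = 1 := by rw [← mul_pow]; norm_num
          have e2 : (M / (M - 1)) ^ n * ((M - 1) / M) ^ n = 1 := by
            rw [← mul_pow, div_mul_div_comm, mul_comm M (M - 1), div_self (by positivity),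
              one_pow]
          calc (1 : ℝ) = ((2 : ℝ) ^ Hc * (1 / 2) ^ Hc) *
                ((M / (M - 1)) ^ n * ((M - 1) / M) ^ n) := by rw [e1, e2]; norm_num
            _ = _ := by ring
      _ ≤ _ := by
          apply mul_le_mul _ _ (by positivity) (by positivity)
          · apply mul_le_mul h5 _ (by positivity) (by positivity)
            exact mul_le_mul h2 h4 (by positivity) (by positivity)
          · exact mul_le_mul_of_nonneg_left h1 (by positivity)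

end Pool.Agent.H588R2.Dks
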