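import Pool.Agent.H588R2.DksDense

/-!
First-moment bound: a random family of strings has no dense small subgraph.
-/

set_option linter.unusedSectionVars false

namespace Pool.Agent.H588R2.Dks

open Finset

noncomputable section

/-- Summing a function of the restriction along an injection. -/
theorem sum_comp_inj {R : Type} [Fintype R] {t N : ℕ} (ι : Fin t → Fin N)
    (hι : Function.Injective ι) (g : (Fin t → R) → ℝ) :
    ∑ F : Fin N → R, g (F ∘ ι) = (Fintype.card R : ℝ) ^ (N - t) * ∑ r, g r := by
  classical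
  let e1 := Equiv.piEquivPiSubtypeProd (fun x : Fin N => x ∈ Set.range ι) (fun _ => R)
  let e2 : Fin t ≃ {x : Fin N // x ∈ Set.range ι} := Equiv.ofInjective ι hι
  have h1 : ∑ F : Fin N → R, g (F ∘ ι)
      = ∑ q : ({x : Fin N // x ∈ Set.range ι} → R) × ({x : Fin N // ¬ x ∈ Set.range ι} → R),
          g (q.1 ∘ e2) := by
    apply Fintype.sum_equiv e1
    intro F
    rfl
  rw [h1, Fintype.sum_prod_type]
  simp only [Finset.sum_const, nsmul_eq_mul]
  rw [← Finset.mul_sum]
  have hc : Fintype.card {x : Fin N // ¬ x ∈ Set.range ι} = N - t := by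
    rw [Fintype.card_subtype_compl, Fintype.card_fin]
    congr 1
    rw [← Fintype.card_congr e2, Fintype.card_fin]
  rw [card_univ, Fintype.card_fun, hc]
  push_cast
  congr 1
  exact Fintype.sum_equiv (Equiv.arrowCongr e2.symm (Equiv.refl R)) _ _ (fun q => by
    congr 1)

variable {X : Type} [Fintype X] [DecidableEq X] {Ω : Type} [Fintype Ω] {val : X → Ω → ℕ}
  {D : Data X}

theorem prod_M_pr (hm : Model D Ω val) :
    ∏ x, (D.M * pr D.M (D.hv x)) = (Fintype.card (X → Ω) : ℝ) * ∏ x, pr D.M (D.hv x) := by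
  classical
  rw [Finset.prod_mul_distrib]
  congr 1
  rw [Finset.prod_const, Fintype.card_fun, card_univ]
  push_cast
  rcases isEmpty_or_nonempty X with hX | ⟨⟨x⟩⟩
  · simp
  · congr 1
    have := hm.dist x
    by_cases hx : D.hv x
    · have := this.heavy hx (fun _ => 1)
      simp at this
      linarith
    · have := this.light hx (fun _ => 1)
      simp at this
      linarith

/-- Extension of a finite adjacency table. -/
def ext (k : ℕ) (ad : Fin k → Fin k → Bool) (i j : ℕ) : Prop :=
  ∃ (hi : i < k) (hj : j < k), ad ⟨i, hi⟩ ⟨j, hj⟩ = true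

open Classical in
/-- The bad families. -/
def badF (D : Data X) (val : X → Ω → ℕ) (τ β δ : ℝ) (k N : ℕ) : Finset (Fin N → X → Ω) :=
  univ.filter (fun F => ∃ h ≤ k, ∃ ad : Fin k → Fin k → Bool, ∃ t ≤ k, ∃ ι : Fin t → Fin N,
    Function.Injective ι ∧
    Real.exp δ < ∏ i ∈ range t, Lmix D τ β h (ext k ad) (vals val (F ∘ ι)) i)

theorem card_badF_le {τ β δ : ℝ} (hm : Model D Ω val) (hτ0 : 0 ≤ τ) (hτ : τ ≤ 1) (hβ0 : 0 ≤ β)
    (hβ : β ≤ 1) (k N : ℕ) (B : ℝ) (hB1 : 1 ≤ B) (hB : N * ∏ x, pr D.M (D.hv x) ≤ B) :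
    ((badF D val τ β δ k N).card : ℝ)
      ≤ ((k + 1) * 2 ^ (k * k) * (k + 1) * B ^ k * Real.exp (-δ))
        * (Fintype.card (Fin N → X → Ω)) := by
  classical
  set R := X → Ω
  set P := ∏ x, pr D.M (D.hv x) with hP
  have hP0 : 0 ≤ P := Finset.prod_nonneg (fun x _ => (pr_pos hm.hM _).le)
  -- single event
  have single : ∀ (h : ℕ) (ad : Fin k → Fin k → Bool) (t : ℕ) (ι : Fin t → Fin N),
      Function.Injective ι →
      ((univ.filter (fun F : Fin N → R => Real.exp δ <
        ∏ i ∈ range t, Lmix D τ β h (ext k ad) (vals val (F ∘ ι)) i)).card : ℝ)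
        ≤ Real.exp (-δ) * (Fintype.card (Fin N → R)) * P ^ t := by
    intro h ad t ι hι
    have ht : t ≤ N := by
      have := Fintype.card_le_of_injective ι hι
      simpa using this
    have hnn : ∀ F : Fin N → R, 0 ≤ ∏ i ∈ range t, Lmix D τ β h (ext k ad) (vals val (F ∘ ι)) i :=
      fun F => Finset.prod_nonneg (fun i _ => Lmix_nonneg hm.hM hτ0 hτ hβ0 hβ _ _ _ _)
    have h1 : ((univ.filter (fun F : Fin N → R => Real.exp δ <
        ∏ i ∈ range t, Lmix D τ β h (ext k ad) (vals val (F ∘ ι)) i)).card : ℝ) * Real.exp δ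
        ≤ ∑ F : Fin N → R, ∏ i ∈ range t, Lmix D τ β h (ext k ad) (vals val (F ∘ ι)) i := by
      rw [← nsmul_eq_mul, ← Finset.sum_const]
      calc _ ≤ ∑ F ∈ univ.filter (fun F : Fin N → R => Real.exp δ <
            ∏ i ∈ range t, Lmix D τ β h (ext k ad) (vals val (F ∘ ι)) i),
            ∏ i ∈ range t, Lmix D τ β h (ext k ad) (vals val (F ∘ ι)) i := by
            apply Finset.sum_le_sum
            intro F hF
            exact (mem_filter.1 hF).2.le
        _ ≤ _ := Finset.sum_le_sum_of_subset_of_nonneg (Finset.filter_subset _ _)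
            (fun F _ _ => hnn F)
    have h2 := sum_comp_inj ι hι
      (fun r : Fin t → R => ∏ i ∈ range t, Lmix D τ β h (ext k ad) (vals val r) i)
    have h3 := sum_chain_le hm hτ0 hτ hβ0 hβ h (ext k ad) t
    rw [prod_M_pr hm, ← hP] at h3
    have h4 : (Fintype.card R : ℝ) ^ (N - t) * ((Fintype.card R : ℝ) * P) ^ t
        = (Fintype.card (Fin N → R)) * P ^ t := by
      have e1 : (Fintype.card (Fin N → R) : ℝ) = (Fintype.card R : ℝ) ^ N := by
        have := Fintype.card_fun (α := Fin N) (β := R)
        rw [Fintype.card_fin] at this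
        exact_mod_cast this
      rw [e1, mul_pow, ← mul_assoc, ← pow_add, Nat.sub_add_cancel ht]
    have h5 : ∑ F : Fin N → R, ∏ i ∈ range t, Lmix D τ β h (ext k ad) (vals val (F ∘ ι)) i
        ≤ (Fintype.card (Fin N → R)) * P ^ t := by
      rw [h2, ← h4]
      exact mul_le_mul_of_nonneg_left h3 (by positivity)
    have h6 := h1.trans h5
    rw [Real.exp_neg]
    rw [← le_div_iff₀ (Real.exp_pos δ)] at h6
    refine h6.trans (le_of_eq ?_)
    field_simp
  -- union bound
  have hsub : badF D val τ β δ k N ⊆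
      (range (k + 1)).biUnion (fun h => (univ : Finset (Fin k → Fin k → Bool)).biUnion (fun ad =>
        (range (k + 1)).biUnion (fun t => (univ.filter (fun ι : Fin t → Fin N =>
          Function.Injective ι)).biUnion (fun ι => univ.filter (fun F : Fin N → R => Real.exp δ <
        ∏ i ∈ range t, Lmix D τ β h (ext k ad) (vals val (F ∘ ι)) i))))) := by
    intro F hF
    unfold badF at hF
    rw [mem_filter] at hF
    obtain ⟨_, h, hh, ad, t, ht, ι, hι, hlt⟩ := hF
    simp only [mem_biUnion, mem_range, mem_univ, true_and, mem_filter]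
    exact ⟨h, by omega, ad, t, by omega, ι, hι, hlt⟩
  have hcard := (Finset.card_le_card hsub).trans Finset.card_biUnion_le
  have hcard' : ((badF D val τ β δ k N).card : ℝ) ≤ ∑ h ∈ range (k + 1),
      ∑ ad : Fin k → Fin k → Bool, ∑ t ∈ range (k + 1),
        ∑ ι ∈ univ.filter (fun ι : Fin t → Fin N => Function.Injective ι),
        ((univ.filter (fun F : Fin N → R => Real.exp δ <
        ∏ i ∈ range t, Lmix D τ β h (ext k ad) (vals val (F ∘ ι)) i)).card : ℝ) := by
    have h1 : ((badF D val τ β δ k N).card : ℝ) ≤ ((∑ h ∈ range (k + 1),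
      ((univ : Finset (Fin k → Fin k → Bool)).biUnion (fun ad =>
        (range (k + 1)).biUnion (fun t => (univ.filter (fun ι : Fin t → Fin N =>
          Function.Injective ι)).biUnion (fun ι => univ.filter (fun F : Fin N → R => Real.exp δ <
        ∏ i ∈ range t, Lmix D τ β h (ext k ad) (vals val (F ∘ ι)) i))))).card : ℕ) : ℝ) := by
      exact_mod_cast hcard
    refine h1.trans ?_
    push_cast
    apply Finset.sum_le_sum
    intro h _
    refine (Nat.cast_le.2 Finset.card_biUnion_le).trans ?_
    push_cast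
    apply Finset.sum_le_sum
    intro ad _
    refine (Nat.cast_le.2 Finset.card_biUnion_le).trans ?_
    push_cast
    apply Finset.sum_le_sum
    intro t _
    refine (Nat.cast_le.2 Finset.card_biUnion_le).trans ?_
    push_cast
    exact le_rfl
  refine hcard'.trans ?_
  set C := (Fintype.card (Fin N → R) : ℝ) with hC
  have hC0 : 0 ≤ C := Nat.cast_nonneg _
  have inner : ∀ (h : ℕ) (ad : Fin k → Fin k → Bool), ∀ t ∈ range (k + 1),
      ∑ ι ∈ univ.filter (fun ι : Fin t → Fin N => Function.Injective ι),
        ((univ.filter (fun F : Fin N → R => Real.exp δ <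
        ∏ i ∈ range t, Lmix D τ β h (ext k ad) (vals val (F ∘ ι)) i)).card : ℝ)
      ≤ B ^ k * Real.exp (-δ) * C := by
    intro h ad t ht
    rw [mem_range] at ht
    calc _ ≤ ∑ ι ∈ univ.filter (fun ι : Fin t → Fin N => Function.Injective ι),
          Real.exp (-δ) * C * P ^ t := by
          apply Finset.sum_le_sum
          intro ι hι
          exact single h ad t ι (mem_filter.1 hι).2
      _ = (univ.filter (fun ι : Fin t → Fin N => Function.Injective ι)).card
            * (Real.exp (-δ) * C * P ^ t) := by rw [Finset.sum_const, nsmul_eq_mul]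
      _ ≤ (N : ℝ) ^ t * (Real.exp (-δ) * C * P ^ t) := by
          apply mul_le_mul_of_nonneg_right _ (by positivity)
          have := Finset.card_filter_le (univ : Finset (Fin t → Fin N))
            (fun ι => Function.Injective ι)
          rw [card_univ, Fintype.card_fun, Fintype.card_fin, Fintype.card_fin] at this
          exact_mod_cast this
      _ = (N * P) ^ t * (Real.exp (-δ) * C) := by rw [mul_pow]; ring
      _ ≤ B ^ k * (Real.exp (-δ) * C) := by
          apply mul_le_mul_of_nonneg_right _ (by positivity)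
          calc (N * P) ^ t ≤ B ^ t := pow_le_pow_left₀ (by positivity) hB t
            _ ≤ B ^ k := pow_le_pow_right₀ hB1 (by omega)
      _ = _ := by ring
  calc _ ≤ ∑ h ∈ range (k + 1), ∑ ad : Fin k → Fin k → Bool, ∑ t ∈ range (k + 1),
        B ^ k * Real.exp (-δ) * C := by
        apply Finset.sum_le_sum; intro h _
        apply Finset.sum_le_sum; intro ad _
        apply Finset.sum_le_sum; intro t ht
        exact inner h ad t ht
    _ = _ := by
        simp only [Finset.sum_const, card_range, card_univ, Fintype.card_fun, Fintype.card_fin,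
          Fintype.card_bool, nsmul_eq_mul]
        push_cast
        rw [← pow_mul]
        ring

end

end Pool.Agent.H588R2.Dks
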