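import Pool.Agent.H588R2.BankLib

/-!
Program of the reduction, first phase: heavy variables.
-/

namespace Pool.Agent.H588R2.DksP

open Pool.Agent.H588R2.Bank Finset

/-- Number of occurrences of the variable `x` among the `3 m` literals. -/
def occN (m : ℕ) (V : ℕ → ℕ) (x : ℕ) : ℕ := ((range (3 * m)).filter (fun t => V t = x)).card

/-- Flag of heavy variables. -/
def hvN (Δ n₀ n m : ℕ) (V : ℕ → ℕ) (x : ℕ) : ℕ :=
  if Δ * m < occN m V x * n ∨ n < n₀ then 1 else 0

/-- Count the occurrences of the variable in register 10. -/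
def cOcc : Cmd := forC 13 4 (seqs [
  .op (.load 14 0 12),
  .ite (.eq 14 10) (.op (.addc 11 11 1)) .skip,
  .op (.addc 12 12 2)])

def cHeavy (Δ n₀ : ℕ) : Cmd :=
  forC 10 1 (seqs [
    .op (.const 11 0),
    .op (.const 12 2),
    cOcc,
    .op (.mul 11 11 1),
    .op (.const 14 Δ),
    .op (.mul 14 14 2),
    .op (.const 15 0),
    .ite (.lt 14 11) (.op (.const 15 1)) .skip,
    .op (.const 14 n₀),
    .ite (.lt 1 14) (.op (.const 15 1)) .skip,
    .op (.store 2 10 15)])

theorem card_filter_range_succ (p : ℕ → Prop) [DecidablePred p] (q : ℕ) :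
    ((range (q + 1)).filter p).card = ((range q).filter p).card + if p q then 1 else 0 := by
  rw [Finset.range_add_one, Finset.filter_insert]
  split_ifs with h
  · rw [Finset.card_insert_of_notMem (by simp)]
  · rfl

theorem tr_cOcc {w m : ℕ} {V : ℕ → ℕ} (hw : 6 * m + 10 < 2 ^ w) (hV : ∀ t < 3 * m, V t < 2 ^ w)
    (s : St) (h4 : s.reg 4 = 3 * m) (h11 : s.reg 11 = 0) (h12 : s.reg 12 = 2)
    (hmem : ∀ t < 3 * m, s.mem 0 (2 + 2 * t) = V t) :
    Tr w cOcc s (3 * m * 9 + 3) (fun s' => Fx [11, 12, 13, 14] s s' ∧ Fm [] s s' ∧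
      s'.reg 11 = occN m V (s.reg 10)) := by
  have := Tr.forC (w := w) (i := 13) (n := 4) (body := seqs [
    .op (.load 14 0 12),
    .ite (.eq 14 10) (.op (.addc 11 11 1)) .skip,
    .op (.addc 12 12 2)]) (3 * m) 6
    (fun q s' => Fx [11, 12, 13, 14] s s' ∧ Fm [] s s' ∧ s'.reg 13 = q ∧ s'.reg 12 = 2 + 2 * q ∧
      s'.reg 11 = ((range q).filter (fun t => V t = s.reg 10)).card)
    (by omega)
    (by
      rintro q s' ⟨h1, h2, h3, h4', h5⟩
      exact ⟨h3, by rw [h1 4 (by decide), h4]⟩)
    (by
      rintro q s' hq ⟨h1, h2, h3, h4', h5⟩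
      have hc : ((range q).filter (fun t => V t = s.reg 10)).card ≤ q := by
        have := card_filter_le (range q) (fun t => V t = s.reg 10)
        rwa [card_range] at this
      have hmq : s'.mem 0 (2 + 2 * q) = V q := by rw [h2 0 (by decide)]; exact hmem q hq
      have h10 : s'.reg 10 = s.reg 10 := h1 10 (by decide)
      apply Tr.le
      · apply Tr.seq
        apply Tr.load
        · rw [h4', hmq]; exact hV q hq
        rw [h4', hmq]
        apply Tr.seq
        apply Tr.condAddc
        · intro _
          simp only [St.setR_reg]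
          simp [h5]; omega
        apply Tr.seq
        apply Tr.addc
        · simp only [St.setR_reg]; simp [h4']; omega
        apply Tr.skip
        refine ⟨by simp [St.setR_reg, h3], ?_, ?_, by simp [St.setR_reg], ?_, ?_⟩
        · exact (((h1.setR (by decide) _).setR (by decide) _).setR (by decide) _).setR
            (by decide) _
        · exact (((h2.setR _ _).setR _ _).setR _ _).setR _ _
        · simp [St.setR_reg, h4']; ring
        · rw [card_filter_range_succ]
          simp [St.setR_reg, Test.Holds, h5, h10]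
          split_ifs <;> rfl
      · omega)
    (s := s) ⟨(Fx.refl _ _).setR (by decide) _, (Fm.refl _ _).setR _ _, by simp [St.setR_reg],
      by simp [St.setR_reg, h12], by simp [St.setR_reg, h11]⟩
  refine (this.le (by omega)).mono ?_
  rintro s' ⟨h1, h2, h3, h4', h5⟩
  exact ⟨h1, h2, h5⟩

theorem tr_cHeavy {w n m Δ n₀ : ℕ} {V : ℕ → ℕ} (hw : 6 * m + 10 < 2 ^ w)
    (hw2 : 3 * m * n < 2 ^ w) (hw3 : Δ * m < 2 ^ w) (hw4 : Δ < 2 ^ w) (hw5 : n₀ < 2 ^ w)
    (hw6 : n < 2 ^ w)
    (hV : ∀ t < 3 * m, V t < 2 ^ w)
    (s : St) (hn : s.reg 1 = n) (hm : s.reg 2 = m) (h4 : s.reg 4 = 3 * m)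
    (hmem : ∀ t < 3 * m, s.mem 0 (2 + 2 * t) = V t) :
    Tr w (cHeavy Δ n₀) s (n * (3 * m * 9 + 21) + 3)
      (fun s' => Fx [10, 11, 12, 13, 14, 15] s s' ∧ Fm [2] s s' ∧
        ∀ x < n, s'.mem 2 x = hvN Δ n₀ n m V x) := by
  have hocc : ∀ x, occN m V x ≤ 3 * m := by
    intro x
    have := card_filter_le (range (3 * m)) (fun t => V t = x)
    rwa [card_range] at this
  have hocc2 : ∀ x, occN m V x * n ≤ 3 * m * n := fun x => Nat.mul_le_mul_right _ (hocc x)
  have := Tr.forC (w := w) (i := 10) (n := 1) (body := seqs [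
    .op (.const 11 0),
    .op (.const 12 2),
    cOcc,
    .op (.mul 11 11 1),
    .op (.const 14 Δ),
    .op (.mul 14 14 2),
    .op (.const 15 0),
    .ite (.lt 14 11) (.op (.const 15 1)) .skip,
    .op (.const 14 n₀),
    .ite (.lt 1 14) (.op (.const 15 1)) .skip,
    .op (.store 2 10 15)]) n (3 * m * 9 + 18)
    (fun q s' => Fx [10, 11, 12, 13, 14, 15] s s' ∧ Fm [2] s s' ∧ s'.reg 10 = q ∧
      ∀ x < q, s'.mem 2 x = hvN Δ n₀ n m V x)
    hw6
    (by
      rintro q s' ⟨h1, h2, h3, h5⟩
      exact ⟨h3, by rw [h1 1 (by decide), hn]⟩)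
    (by
      rintro q s' hq ⟨h1, h2, h3, h5⟩
      have r1 : s'.reg 1 = n := by rw [h1 1 (by decide), hn]
      have r2 : s'.reg 2 = m := by rw [h1 2 (by decide), hm]
      have r4 : s'.reg 4 = 3 * m := by rw [h1 4 (by decide), h4]
      apply Tr.le
      · apply Tr.seq
        apply Tr.const (by omega)
        apply Tr.seq
        apply Tr.const (by omega)
        apply Tr.seq
        refine (tr_cOcc hw hV _ (by simp [St.setR_reg, r4]) (by simp [St.setR_reg])
          (by simp [St.setR_reg]) ?_).mono ?_
        · intro t ht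
          rw [St.setR_mem, St.setR_mem, h2 0 (by decide)]
          exact hmem t ht
        rintro s2 ⟨g1, g2, g3⟩
        have e1 : s2.reg 1 = n := by rw [g1 1 (by decide)]; simp [St.setR_reg, r1]
        have e2 : s2.reg 2 = m := by rw [g1 2 (by decide)]; simp [St.setR_reg, r2]
        have e10 : s2.reg 10 = q := by rw [g1 10 (by decide)]; simp [St.setR_reg, h3]
        have e11 : s2.reg 11 = occN m V q := by rw [g3]; simp [St.setR_reg, h3]
        have g1' : Fx [10, 11, 12, 13, 14, 15] s s2 := by
          intro r hr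
          rw [g1 r (by simp at hr ⊢; omega)]
          simp at hr
          rw [St.setR_reg, if_neg (by omega), St.setR_reg, if_neg (by omega)]
          exact h1 r (by simp; omega)
        have g2' : Fm [2] s s2 := by
          intro b hb
          rw [g2 b (by simp)]
          exact h2 b hb
        have g3' : ∀ x < q, s2.mem 2 x = hvN Δ n₀ n m V x := by
          intro x hx
          rw [g2 2 (by simp)]
          exact h5 x hx
        apply Tr.seq
        apply Tr.mul
        · rw [e11, e1]; exact lt_of_le_of_lt (hocc2 q) hw2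
        apply Tr.seq
        apply Tr.const hw4
        apply Tr.seq
        apply Tr.mul
        · simp [St.setR_reg, e2]; exact hw3
        apply Tr.seq
        apply Tr.const (by omega)
        apply Tr.seq
        apply Tr.condConst (by omega)
        apply Tr.seq
        apply Tr.const hw5
        apply Tr.seq
        apply Tr.condConst (by omega)
        apply Tr.seq
        apply Tr.store
        apply Tr.skip
        refine ⟨by simp [St.setR_reg, St.setM_reg, e10], ?_, ?_, by simp [St.setR_reg], ?_⟩
        · repeat' (first | exact g1' | refine Fx.setR ?_ (by decide) _ | refine Fx.setM ?_ _ _ _)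
        · repeat' (first | exact g2' | refine Fm.setR ?_ _ _ | refine Fm.setM ?_ (by decide) _ _)
        · intro x hx
          simp only [St.setR_mem, St.setM_mem, St.setR_reg, Test.Holds]
          simp [e1, e2, e10, e11]
          by_cases hxq : x = q
          · subst hxq
            simp only [if_true, hvN]
            split_ifs <;> omega
          · simp only [hxq, if_false]
            exact g3' x (by omega)
      · omega)
    (s := s) ⟨(Fx.refl _ _).setR (by decide) _, (Fm.refl _ _).setR _ _, by simp [St.setR_reg],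
      by intro x hx; omega⟩
  refine (this.le (le_of_eq (by ring))).mono ?_
  rintro s' ⟨h1, h2, h3, h5⟩
  exact ⟨h1, h2, h5⟩

end Pool.Agent.H588R2.DksP
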