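import Pool.Agent.H588R2.DksProgA

/-!
Program of the reduction: number of vertices, random strings.
-/

namespace Pool.Agent.H588R2.DksP

open Pool.Agent.H588R2.Bank Finset

/-- `3 k ∏ (M_x)` where `M_x` is `2` for flagged and `c` for other coordinates. -/
def aN (k c : ℕ) (H : ℕ → ℕ) (q : ℕ) : ℕ := 3 * k * ∏ x ∈ range q, (if H x = 1 then 2 else c)

def bN (c : ℕ) (H : ℕ → ℕ) (q : ℕ) : ℕ := ∏ x ∈ range q, (if H x = 1 then 1 else c - 1)

/-- Group size. -/
def gN (k c : ℕ) (H : ℕ → ℕ) (n : ℕ) : ℕ := (aN k c H n + bN c H n - 1) / bN c H n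

theorem bN_pos {c : ℕ} (hc : 2 ≤ c) (H : ℕ → ℕ) (q : ℕ) : 0 < bN c H q :=
  Finset.prod_pos (fun x _ => by split_ifs <;> omega)

theorem gN_lt {k c : ℕ} (hc : 2 ≤ c) (H : ℕ → ℕ) (n : ℕ) {q : ℕ} (hq : q < gN k c H n) :
    q * bN c H n < aN k c H n := by
  have hb := bN_pos hc H n
  unfold gN at hq
  have h1 : q + 1 ≤ (aN k c H n + bN c H n - 1) / bN c H n := hq
  rw [Nat.le_div_iff_mul_le hb] at h1
  have : (q + 1) * bN c H n = q * bN c H n + bN c H n := by ring
  omega

theorem gN_ge {k c : ℕ} (hc : 2 ≤ c) (H : ℕ → ℕ) (n : ℕ) :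
    aN k c H n ≤ gN k c H n * bN c H n := by
  have hb := bN_pos hc H n
  unfold gN
  have := Nat.lt_div_mul_add (a := aN k c H n + bN c H n - 1) hb
  omega

theorem gN_mul_lt {k c : ℕ} (hc : 2 ≤ c) (H : ℕ → ℕ) (n : ℕ) :
    gN k c H n * bN c H n < aN k c H n + bN c H n := by
  have hb := bN_pos hc H n
  unfold gN
  have := Nat.div_mul_le_self (aN k c H n + bN c H n - 1) (bN c H n)
  omega

def cNum (k c : ℕ) : Cmd := seqs [
  .op (.const 20 (3 * k)), .op (.const 21 1), .op (.const 16 1),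
  forC 10 1 (seqs [
    .op (.load 11 2 10),
    .op (.const 12 c), .ite (.eq 11 16) (.op (.const 12 2)) .skip,
    .op (.const 13 (c - 1)), .ite (.eq 11 16) (.op (.const 13 1)) .skip,
    .op (.mul 20 20 12), .op (.mul 21 21 13)]),
  .op (.const 22 0), .op (.const 23 0),
  .loop (.lt 23 20) (seqs [.op (.addc 22 22 1), .op (.add 23 23 21)]),
  .op (.const 12 k), .op (.mul 5 22 12)]

theorem aN_le {k c : ℕ} (hc : 2 ≤ c) (H : ℕ → ℕ) (q n : ℕ) (hqn : q ≤ n) :
    aN k c H q ≤ 3 * k * c ^ n := by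
  unfold aN
  apply Nat.mul_le_mul_left
  calc ∏ x ∈ range q, (if H x = 1 then 2 else c) ≤ ∏ x ∈ range q, c :=
        Finset.prod_le_prod' (fun x _ => by split_ifs <;> omega)
    _ = c ^ q := by rw [prod_const, card_range]
    _ ≤ c ^ n := Nat.pow_le_pow_right (by omega) hqn

theorem bN_le {c : ℕ} (hc : 2 ≤ c) (H : ℕ → ℕ) (q n : ℕ) (hqn : q ≤ n) :
    bN c H q ≤ c ^ n := by
  unfold bN
  calc ∏ x ∈ range q, (if H x = 1 then 1 else c - 1) ≤ ∏ x ∈ range q, c :=
        Finset.prod_le_prod' (fun x _ => by split_ifs <;> omega)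
    _ = c ^ q := by rw [prod_const, card_range]
    _ ≤ c ^ n := Nat.pow_le_pow_right (by omega) hqn

theorem gN_le {k c : ℕ} (hc : 2 ≤ c) (H : ℕ → ℕ) (n : ℕ) :
    gN k c H n ≤ 3 * k * c ^ n := by
  by_contra hcon
  push Not at hcon
  have h1 := gN_lt hc H n hcon
  have h2 := aN_le hc H n n le_rfl (k := k)
  have hb := bN_pos hc H n
  have h3 : 3 * k * c ^ n * 1 ≤ 3 * k * c ^ n * bN c H n := Nat.mul_le_mul_left _ hb
  omega

theorem tr_cNum {w n k c : ℕ} {H : ℕ → ℕ} (hc : 2 ≤ c) (hcw : c < 2 ^ w) (hkw : 3 * k < 2 ^ w)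
    (hn : n < 2 ^ w) (hH : ∀ x < n, H x < 2 ^ w)
    (hw1 : 3 * k * c ^ n + c ^ n < 2 ^ w) (hw2 : gN k c H n * k < 2 ^ w)
    (s : St) (h1 : s.reg 1 = n) (hmem : ∀ x < n, s.mem 2 x = H x) :
    Tr w (cNum k c) s (n * 15 + gN k c H n * 4 + 12)
      (fun s' => Fx [5, 10, 11, 12, 13, 16, 20, 21, 22, 23] s s' ∧ Fm [] s s' ∧
        s'.reg 5 = gN k c H n * k) := by
  have h1w : 1 < 2 ^ w := by omega
  have hcn : 1 ≤ c ^ n := Nat.one_le_pow _ _ (by omega)
  apply Tr.le
  · apply Tr.seq
    apply Tr.const hkw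
    apply Tr.seq
    apply Tr.const h1w
    apply Tr.seq
    apply Tr.const h1w
    apply Tr.seq
    set L := [5, 10, 11, 12, 13, 16, 20, 21, 22, 23] with hL
    refine (Tr.forC n 11
      (fun q s' => Fx L s s' ∧ Fm [] s s' ∧ s'.reg 10 = q ∧ s'.reg 16 = 1 ∧
        s'.reg 20 = aN k c H q ∧ s'.reg 21 = bN c H q) hn ?_ ?_ ?_).mono ?_
    · rintro q s' ⟨f1, f2, f3, f4, f5, f6⟩
      exact ⟨f3, by rw [f1 1 (by simp [hL]), h1]⟩
    · rintro q s' hq ⟨f1, f2, f3, f4, f5, f6⟩
      have hHq : s'.mem 2 q = H q := by rw [f2 2 (by simp)]; exact hmem q hq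
      have ha : aN k c H (q + 1) = aN k c H q * (if H q = 1 then 2 else c) := by
        unfold aN; rw [prod_range_succ]; ring
      have hb : bN c H (q + 1) = bN c H q * (if H q = 1 then 1 else c - 1) := by
        unfold bN; rw [prod_range_succ]
      have ha2 : (if H q = 1 then aN k c H q * 2 else aN k c H q * c) = aN k c H (q + 1) := by
        rw [ha]; split_ifs <;> rfl
      have hb2 : (if H q = 1 then bN c H q else bN c H q * (c - 1)) = bN c H (q + 1) := by
        rw [hb]; split_ifs <;> simp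
      have ha' := aN_le hc H (q + 1) n hq (k := k)
      have hb' := bN_le hc H (q + 1) n hq
      apply Tr.le
      · apply Tr.seq
        apply Tr.load
        · rw [f3, hHq]; exact hH q hq
        rw [f3, hHq]
        apply Tr.seq
        apply Tr.const hcw
        apply Tr.seq
        apply Tr.condConst (by omega)
        apply Tr.seq
        apply Tr.const (by omega)
        apply Tr.seq
        apply Tr.condConst (by omega)
        apply Tr.seq
        apply Tr.mul
        · simp [St.setR_reg, Test.Holds, f4, f5]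
          rw [ha2]; omega
        apply Tr.seq
        apply Tr.mul
        · simp [St.setR_reg, Test.Holds, f4, f6]
          rw [hb2]; omega
        apply Tr.skip
        refine ⟨by simp [St.setR_reg, f3], ?_, ?_, by simp [St.setR_reg], ?_, ?_, ?_⟩
        · repeat' (first | exact f1 | refine Fx.setR ?_ (by simp [hL]) _)
        · repeat' (first | exact f2 | refine Fm.setR ?_ _ _)
        · simp [St.setR_reg, f4]
        · simp [St.setR_reg, Test.Holds, f4, f5, ha]
        · simp [St.setR_reg, Test.Holds, f4, f6, hb]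
      · omega
    · refine ⟨?_, ?_, by simp [St.setR_reg], by simp [St.setR_reg], by simp [St.setR_reg, aN],
        by simp [St.setR_reg, bN]⟩
      · repeat' (first | exact Fx.refl _ _ | refine Fx.setR ?_ (by simp [hL]) _)
      · repeat' (first | exact Fm.refl _ _ | refine Fm.setR ?_ _ _)
    rintro s2 ⟨f1, f2, f3, f4, f5, f6⟩
    apply Tr.seq
    apply Tr.const (by omega)
    apply Tr.seq
    apply Tr.const (by omega)
    apply Tr.seq
    refine (Tr.loop (gN k c H n) 2
      (fun q s' => Fx L s s' ∧ Fm [] s s' ∧ s'.reg 20 = aN k c H n ∧ s'.reg 21 = bN c H n ∧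
        s'.reg 22 = q ∧ s'.reg 23 = q * bN c H n) ?_ ?_ ?_).mono ?_
    · rintro q s' hq ⟨g1, g2, g3, g4, g5, g6⟩
      have hlt := gN_lt hc H n hq
      have ha' := aN_le hc H n n le_rfl (k := k)
      have hb' := bN_le hc H n n le_rfl
      have hg := gN_le hc H n (k := k)
      refine ⟨?_, ?_⟩
      · show s'.reg 23 < s'.reg 20
        rw [g6, g3]; exact hlt
      · apply Tr.le
        · apply Tr.seq
          apply Tr.addc
          · rw [g5]; omega
          apply Tr.seq
          apply Tr.add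
          · simp [St.setR_reg, g6, g4]; omega
          apply Tr.skip
          refine ⟨?_, ?_, by simp [St.setR_reg, g3], by simp [St.setR_reg, g4],
            by simp [St.setR_reg, g5], ?_⟩
          · repeat' (first | exact g1 | refine Fx.setR ?_ (by simp [hL]) _)
          · repeat' (first | exact g2 | refine Fm.setR ?_ _ _)
          · simp [St.setR_reg, g6, g4]; ring
        · omega
    · rintro s' ⟨g1, g2, g3, g4, g5, g6⟩
      show ¬ s'.reg 23 < s'.reg 20
      rw [g6, g3]
      have := gN_ge hc H n (k := k)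
      omega
    · refine ⟨?_, ?_, by simp [St.setR_reg, f5], by simp [St.setR_reg, f6],
        by simp [St.setR_reg], by simp [St.setR_reg]⟩
      · repeat' (first | exact f1 | refine Fx.setR ?_ (by simp [hL]) _)
      · repeat' (first | exact f2 | refine Fm.setR ?_ _ _)
    rintro s3 ⟨g1, g2, g3, g4, g5, g6⟩
    apply Tr.seq
    apply Tr.const (by omega)
    apply Tr.seq
    apply Tr.mul
    · simp [St.setR_reg, g5]; exact hw2
    apply Tr.skip
    refine ⟨?_, ?_, by simp [St.setR_reg, g5]⟩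
    · repeat' (first | exact g1 | refine Fx.setR ?_ (by simp [hL]) _)
    · repeat' (first | exact g2 | refine Fm.setR ?_ _ _)
  · omega

end Pool.Agent.H588R2.DksP
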