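import Pool.Agent.H588R2.DksProgB

/-!
Program of the reduction: the random strings.
-/


namespace Pool.Agent.H588R2.DksP

open Pool.Agent.H588R2.Bank Finset

/-- Sum of `J` random bits from position `p` on. -/
def accN (Rb : ℕ → ℕ) (J p : ℕ) : ℕ := ∑ i ∈ range J, Rb (p + i)

/-- Value of the string cell `idx`. -/
def strN (J n : ℕ) (Rb H : ℕ → ℕ) (idx : ℕ) : ℕ :=
  if 0 < accN Rb J (idx * (J + 1) + 1) * (1 - H (idx % n)) then 2 else Rb (idx * (J + 1))

/-- Add `J` random bits to register 13. -/
def cBits : ℕ → Cmd
  | 0 => .skip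
  | J + 1 => .seq (cBits J) (seqs [.op (.load 14 1 21), .op (.add 13 13 14), .op (.addc 21 21 1)])

def cStr (J : ℕ) : Cmd := seqs [.op (.const 20 0), .op (.const 21 0),
  forC 10 5 (forC 11 1 (seqs [
     .op (.load 12 1 21),
     .op (.addc 21 21 1),
     .op (.const 13 0),
     cBits J,
     .op (.load 14 2 11),
     .op (.const 15 1),
     .op (.sub 15 15 14),
     .op (.mul 13 13 15),
     .op (.const 15 0),
     .ite (.lt 15 13) (.op (.const 12 2)) .skip,
     .op (.store 3 20 12),
     .op (.addc 20 20 1)]))]

theorem accN_le {Rb : ℕ → ℕ} (hRb : ∀ i, Rb i ≤ 1) (J p : ℕ) : accN Rb J p ≤ J := by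
  unfold accN
  calc ∑ i ∈ range J, Rb (p + i) ≤ ∑ i ∈ range J, 1 := Finset.sum_le_sum (fun i _ => hRb _)
    _ = J := by simp

theorem tr_cBits {w : ℕ} {Rb : ℕ → ℕ} (hRb : ∀ i, Rb i ≤ 1) (h1w : 1 < 2 ^ w) :
    ∀ (J p : ℕ) (s : St), s.reg 21 = p → s.reg 13 = 0 → s.mem 1 = Rb → p + J < 2 ^ w →
    Tr w (cBits J) s (3 * J) (fun s' => Fx [13, 14, 21] s s' ∧ Fm [] s s' ∧
      s'.reg 21 = p + J ∧ s'.reg 13 = accN Rb J p) := by
  intro J
  induction J with
  | zero =>
    intro p s h21 h13 _ _
    apply Tr.skip
    exact ⟨Fx.refl _ _, Fm.refl _ _, by simp [h21], by simp [h13, accN]⟩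
  | succ J ih =>
    intro p s h21 h13 hm hlt
    have hacc := accN_le hRb J p
    apply Tr.le
    · apply Tr.seq
      refine (ih p s h21 h13 hm (by omega)).mono ?_
      rintro s' ⟨f1, f2, f3, f4⟩
      have hmem : s'.mem 1 = Rb := by rw [f2 1 (by simp), hm]
      have hb := hRb (p + J)
      apply Tr.seq
      apply Tr.load
      · rw [hmem, f3]; omega
      rw [hmem, f3]
      apply Tr.seq
      apply Tr.add
      · simp [St.setR_reg, f4]; omega
      apply Tr.seq
      apply Tr.addc
      · simp [St.setR_reg, f3]; omega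
      apply Tr.skip
      refine ⟨?_, f2, ?_, ?_⟩
      · repeat' (first | exact f1 | refine Fx.setR ?_ (by simp) _)
      · simp [St.setR_reg, f3]; ring
      · simp [St.setR_reg, f4, accN, Finset.sum_range_succ]
    · omega

theorem tr_cStr {w n N J : ℕ} {Rb H : ℕ → ℕ} (hRb : ∀ i, Rb i ≤ 1) (h2w : 2 < 2 ^ w)
    (hn : n < 2 ^ w) (hN : N < 2 ^ w) (hJ : J < 2 ^ w)
    (hw : N * n * (J + 1) < 2 ^ w) (hH : ∀ x < n, H x ≤ 1)
    (s : St) (h1 : s.reg 1 = n) (h5 : s.reg 5 = N) (hm1 : s.mem 1 = Rb)
    (hm2 : ∀ x < n, s.mem 2 x = H x) :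
    Tr w (cStr J) s (N * (n * (3 * J + 16) + 6) + 5)
      (fun s' => Fx [10, 11, 12, 13, 14, 15, 20, 21] s s' ∧ Fm [3] s s' ∧
        ∀ idx < N * n, s'.mem 3 idx = strN J n Rb H idx) := by
  set L := [10, 11, 12, 13, 14, 15, 20, 21] with hL
  apply Tr.le
  · apply Tr.seq
    apply Tr.const (by omega)
    apply Tr.seq
    apply Tr.const (by omega)
    apply Tr.seq
    refine (Tr.forC N (n * (3 * J + 16) + 3)
      (fun v s' => Fx L s s' ∧ Fm [3] s s' ∧ s'.reg 10 = v ∧ s'.reg 20 = v * n ∧
        s'.reg 21 = v * n * (J + 1) ∧ ∀ idx < v * n, s'.mem 3 idx = strN J n Rb H idx)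
        hN ?_ ?_ ?_).mono ?_
    · rintro q s' ⟨f1, f2, f3, f4, f5, f6⟩
      exact ⟨f3, by rw [f1 5 (by simp [hL]), h5]⟩
    · rintro v s1 hv ⟨f1, f2, f3, f4, f5, f6⟩
      have hvn : v * n + n ≤ N * n := by
        calc v * n + n = (v + 1) * n := by ring
          _ ≤ N * n := Nat.mul_le_mul_right _ hv
      refine ((Tr.forC n (3 * J + 13)
        (fun x s' => Fx L s s' ∧ Fm [3] s s' ∧ s'.reg 10 = v ∧ s'.reg 11 = x ∧
          s'.reg 20 = v * n + x ∧ s'.reg 21 = (v * n + x) * (J + 1) ∧
          ∀ idx < v * n + x, s'.mem 3 idx = strN J n Rb H idx) hn ?_ ?_ ?_).le (by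
            ring_nf; omega)).mono ?_
      · rintro q s' ⟨g1, g2, g3, g4, g5, g6, g7⟩
        exact ⟨g4, by rw [g1 1 (by simp [hL]), h1]⟩
      · rintro x s2 hx ⟨g1, g2, g3, g4, g5, g6, g7⟩
        have hidx : v * n + x < N * n := by omega
        have hNn : N * n ≤ N * n * (J + 1) := Nat.le_mul_of_pos_right _ (by omega)
        have hpos : (v * n + x) * (J + 1) + (J + 1) ≤ N * n * (J + 1) := by
          calc (v * n + x) * (J + 1) + (J + 1) = (v * n + x + 1) * (J + 1) := by ring
            _ ≤ N * n * (J + 1) := Nat.mul_le_mul_right _ hidx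
        have hmod : (v * n + x) % n = x := by
          rw [Nat.mul_add_mod_self_right]; exact Nat.mod_eq_of_lt hx
        have m1 : s2.mem 1 = Rb := by rw [g2 1 (by simp), hm1]
        have m2 : s2.mem 2 x = H x := by rw [g2 2 (by simp)]; exact hm2 x hx
        have hb0 := hRb ((v * n + x) * (J + 1))
        have hHx := hH x hx
        set p := (v * n + x) * (J + 1) with hp
        apply Tr.le
        · apply Tr.seq
          apply Tr.load
          · rw [m1, g6]; omega
          rw [m1, g6]
          apply Tr.seq
          apply Tr.addc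
          · simp [St.setR_reg, g6]; omega
          apply Tr.seq
          apply Tr.const (by omega)
          apply Tr.seq
          refine (tr_cBits hRb (by omega) J (p + 1) _ (by simp [St.setR_reg, g6])
            (by simp [St.setR_reg]) (by simp [St.setR_mem, m1]) (by omega)).mono ?_
          rintro s3 ⟨k1, k2, k3, k4⟩
          have hacc := accN_le hRb J (p + 1)
          have r11 : s3.reg 11 = x := by rw [k1 11 (by simp)]; simp [St.setR_reg, g4]
          have r12 : s3.reg 12 = Rb p := by rw [k1 12 (by simp)]; simp [St.setR_reg]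
          have r20 : s3.reg 20 = v * n + x := by rw [k1 20 (by simp)]; simp [St.setR_reg, g5]
          have r10 : s3.reg 10 = v := by rw [k1 10 (by simp)]; simp [St.setR_reg, g3]
          have k1' : Fx L s s3 := by
            intro r hr
            rw [k1 r (by simp [hL] at hr ⊢; omega)]
            simp only [hL, List.mem_cons, List.not_mem_nil, or_false, not_or] at hr
            rw [St.setR_reg, if_neg (by omega), St.setR_reg, if_neg (by omega),
              St.setR_reg, if_neg (by omega)]
            exact g1 r (by simp [hL]; omega)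
          have k2' : Fm [3] s s3 := by
            intro b hb
            rw [k2 b (by simp)]
            exact g2 b hb
          have k3' : ∀ idx < v * n + x, s3.mem 3 idx = strN J n Rb H idx := by
            intro idx hi
            rw [k2 3 (by simp)]
            exact g7 idx hi
          have m2' : s3.mem 2 x = H x := by
            rw [k2 2 (by simp)]; simp [St.setR_mem, m2]
          apply Tr.seq
          apply Tr.load
          · rw [r11, m2']; omega
          rw [r11, m2']
          apply Tr.seq
          apply Tr.const (by omega)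
          apply Tr.seq
          apply Tr.sub
          · simp [St.setR_reg]; omega
          apply Tr.seq
          apply Tr.mul
          · simp [St.setR_reg, k4]
            calc accN Rb J (p + 1) * (1 - H x) ≤ J * 1 := Nat.mul_le_mul hacc (by omega)
              _ < 2 ^ w := by omega
          apply Tr.seq
          apply Tr.const (by omega)
          apply Tr.seq
          apply Tr.condConst (by omega)
          apply Tr.seq
          apply Tr.store
          apply Tr.seq
          apply Tr.addc
          · simp [St.setR_reg, St.setM_reg, r20]; omega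
          apply Tr.skip
          refine ⟨by simp [St.setR_reg, St.setM_reg, r11], ?_, ?_,
            by simp [St.setR_reg, St.setM_reg, r10], by simp [St.setR_reg], ?_, ?_, ?_⟩
          · repeat' (first | exact k1' | refine Fx.setR ?_ (by simp [hL]) _ |
              refine Fx.setM ?_ _ _ _)
          · repeat' (first | exact k2' | refine Fm.setR ?_ _ _ |
              refine Fm.setM ?_ (by simp) _ _)
          · simp [St.setR_reg, St.setM_reg, r20]; ring
          · simp [St.setR_reg, St.setM_reg, k3, hp]; ring
          · intro idx hi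
            simp only [St.setR_mem, St.setM_mem, St.setR_reg, Test.Holds]
            by_cases hiq : idx = v * n + x
            · subst hiq
              simp [r20, r12, k4, strN, hmod, ← hp]
            · simp [r20, hiq]
              exact k3' idx (by omega)
        · omega
      · refine ⟨?_, ?_, by simp [St.setR_reg, f3], by simp [St.setR_reg],
          by simp [St.setR_reg, f4], by simp [St.setR_reg, f5], ?_⟩
        · repeat' (first | exact f1 | refine Fx.setR ?_ (by simp [hL]) _)
        · exact f2
        · exact f6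
      · rintro s2 ⟨g1, g2, g3, g4, g5, g6, g7⟩
        have e : (v + 1) * n = v * n + n := by ring
        refine ⟨g3, ?_, g2, by simp [St.setR_reg], ?_, ?_, ?_⟩
        · repeat' (first | exact g1 | refine Fx.setR ?_ (by simp [hL]) _)
        · simp [St.setR_reg, g5, e]
        · simp [St.setR_reg, g6, e]
        · rw [e]; exact g7
    · refine ⟨?_, Fm.refl _ _, by simp [St.setR_reg], by simp [St.setR_reg],
        by simp [St.setR_reg], by intro idx h; omega⟩
      repeat' (first | exact Fx.refl _ _ | refine Fx.setR ?_ (by simp [hL]) _)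
    rintro s2 ⟨f1, f2, f3, f4, f5, f6⟩
    apply Tr.skip
    exact ⟨f1, f2, f6⟩
  · ring_nf; omega

end Pool.Agent.H588R2.DksP
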