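import Pool.Agent.H588R2.DksProgC

/-!
Program of the reduction: valid strings.
-/


namespace Pool.Agent.H588R2.DksP

open Pool.Agent.H588R2.Bank Finset

/-- Literal `t` is falsified by the string of the vertex `v`. -/
def Fal (n : ℕ) (V Sg St : ℕ → ℕ) (v t : ℕ) : Prop := St (v * n + V t) + Sg t = 1

open Classical in
/-- Flag of valid strings: no clause with three falsified literals. -/
noncomputable def okN (n m : ℕ) (V Sg St : ℕ → ℕ) (v : ℕ) : ℕ :=
  if ∃ i < m, Fal n V Sg St v (3 * i) ∧ Fal n V Sg St v (3 * i + 1) ∧ Fal n V Sg St v (3 * i + 2)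
  then 0 else 1

/-- Test one literal. -/
def cLit : Cmd := seqs [
  .op (.load 14 0 12), .op (.add 14 14 20), .op (.load 14 3 14), .op (.addc 12 12 1),
  .op (.load 15 0 12), .op (.add 14 14 15), .ite (.eq 14 16) (.op (.addc 13 13 1)) .skip,
  .op (.addc 12 12 1)]

def cOk : Cmd := seqs [.op (.const 16 1), .op (.const 17 3), .op (.const 20 0),
  forC 10 5 (seqs [
    .op (.const 21 1), .op (.const 12 2),
    forC 11 2 (seqs [
      .op (.const 13 0), cLit, cLit, cLit,
      .ite (.eq 13 17) (.op (.const 21 0)) .skip]),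
    .op (.store 4 10 21),
    .op (.add 20 20 1)])]

open Classical in
theorem tr_cLit {w n N m : ℕ} {V Sg S : ℕ → ℕ} (hw : 6 * m + 10 < 2 ^ w)
    (hNn : N * n + n < 2 ^ w) (hV : ∀ t < 3 * m, V t < n) (hSg : ∀ t < 3 * m, Sg t ≤ 1)
    (hS : ∀ idx < N * n, S idx ≤ 2) {v t : ℕ} (hv : v < N) (ht : t < 3 * m)
    (s : St) (h12 : s.reg 12 = 2 + 2 * t) (h20 : s.reg 20 = v * n) (h16 : s.reg 16 = 1)
    (h13 : s.reg 13 ≤ 2)
    (hm0 : ∀ t < 3 * m, s.mem 0 (2 + 2 * t) = V t ∧ s.mem 0 (2 + 2 * t + 1) = Sg t)
    (hm3 : ∀ idx < N * n, s.mem 3 idx = S idx) :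
    Tr w cLit s 10 (fun s' => Fx [12, 13, 14, 15] s s' ∧ Fm [] s s' ∧
      s'.reg 12 = 2 + 2 * (t + 1) ∧
      s'.reg 13 = s.reg 13 + if Fal n V Sg S v t then 1 else 0) := by
  have hvn : v * n + n ≤ N * n := by
    calc v * n + n = (v + 1) * n := by ring
      _ ≤ N * n := Nat.mul_le_mul_right _ hv
  have hVt := hV t ht
  have hSt := hSg t ht
  obtain ⟨e1, e2⟩ := hm0 t ht
  have hidx : V t + v * n < N * n := by omega
  have e3 := hm3 _ hidx
  have hS2 := hS _ hidx
  apply Tr.le
  · apply Tr.seq
    apply Tr.load
    · rw [h12, e1]; omega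
    rw [h12, e1]
    apply Tr.seq
    apply Tr.add
    · simp [St.setR_reg, h20]; omega
    apply Tr.seq
    apply Tr.load
    · simp [St.setR_reg, St.setR_mem, h20, e3]; omega
    simp only [St.setR_mem]
    apply Tr.seq
    apply Tr.addc
    · simp [St.setR_reg, h12]; omega
    apply Tr.seq
    apply Tr.load
    · simp only [St.setR_mem]
      simp [St.setR_reg, h12, e2]; omega
    simp only [St.setR_mem]
    apply Tr.seq
    apply Tr.add
    · simp [St.setR_reg, h12, h20, e2, e3]; omega
    apply Tr.seq
    apply Tr.condAddc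
    · intro _
      simp [St.setR_reg]; omega
    apply Tr.seq
    apply Tr.addc
    · simp [St.setR_reg, h12]; omega
    apply Tr.skip
    refine ⟨?_, ?_, ?_, ?_⟩
    · repeat' (first | exact Fx.refl _ _ | refine Fx.setR ?_ (by simp) _)
    · exact Fm.refl _ _
    · simp [St.setR_reg, h12]; ring
    · simp [St.setR_reg, h12, h20, h16, e2, e3, Test.Holds, Fal]
      rw [add_comm (V t) (v * n)]
      split_ifs <;> rfl
  · omega

theorem tr_cOk {w n N m : ℕ} {V Sg S : ℕ → ℕ} (hw : 6 * m + 10 < 2 ^ w)
    (hNn : N * n + n < 2 ^ w) (hN : N < 2 ^ w) (hmw : m < 2 ^ w)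
    (hV : ∀ t < 3 * m, V t < n) (hSg : ∀ t < 3 * m, Sg t ≤ 1)
    (hS : ∀ idx < N * n, S idx ≤ 2)
    (s : St) (h1 : s.reg 1 = n) (h2 : s.reg 2 = m) (h5 : s.reg 5 = N)
    (hm0 : ∀ t < 3 * m, s.mem 0 (2 + 2 * t) = V t ∧ s.mem 0 (2 + 2 * t + 1) = Sg t)
    (hm3 : ∀ idx < N * n, s.mem 3 idx = S idx) :
    Tr w cOk s (N * (m * 37 + 10) + 6)
      (fun s' => Fx [10, 11, 12, 13, 14, 15, 16, 17, 20, 21] s s' ∧ Fm [4] s s' ∧
        ∀ v < N, s'.mem 4 v = okN n m V Sg S v) := by
  classical
  set L := [10, 11, 12, 13, 14, 15, 16, 17, 20, 21] with hL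
  apply Tr.le
  · apply Tr.seq
    apply Tr.const (by omega)
    apply Tr.seq
    apply Tr.const (by omega)
    apply Tr.seq
    apply Tr.const (by omega)
    apply Tr.seq
    refine (Tr.forC N (m * 37 + 7)
      (fun v s' => Fx L s s' ∧ Fm [4] s s' ∧ s'.reg 10 = v ∧ s'.reg 20 = v * n ∧
        s'.reg 16 = 1 ∧ s'.reg 17 = 3 ∧ ∀ v' < v, s'.mem 4 v' = okN n m V Sg S v')
        hN ?_ ?_ ?_).mono ?_
    · rintro q s' ⟨f1, f2, f3, f4, f5, f6, f7⟩
      exact ⟨f3, by rw [f1 5 (by simp [hL]), h5]⟩
    · rintro v s1 hv ⟨f1, f2, f3, f4, f5, f6, f7⟩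
      have hvn : v * n + n ≤ N * n := by
        calc v * n + n = (v + 1) * n := by ring
          _ ≤ N * n := Nat.mul_le_mul_right _ hv
      apply Tr.le
      · apply Tr.seq
        apply Tr.const (by omega)
        apply Tr.seq
        apply Tr.const (by omega)
        apply Tr.seq
        refine (Tr.forC m 34
          (fun i s' => Fx L s s' ∧ Fm [4] s s' ∧ s'.reg 10 = v ∧ s'.reg 20 = v * n ∧
            s'.reg 16 = 1 ∧ s'.reg 17 = 3 ∧ (∀ v' < v, s'.mem 4 v' = okN n m V Sg S v') ∧
            s'.reg 11 = i ∧ s'.reg 12 = 2 + 6 * i ∧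
            s'.reg 21 = if ∃ i' < i, Fal n V Sg S v (3 * i') ∧ Fal n V Sg S v (3 * i' + 1) ∧
              Fal n V Sg S v (3 * i' + 2) then 0 else 1) hmw ?_ ?_ ?_).mono ?_
        · rintro q s' ⟨g1, g2, g3, g4, g5, g6, g7, g8, g9, g10⟩
          exact ⟨g8, by rw [g1 2 (by simp [hL]), h2]⟩
        · rintro i s2 hi ⟨g1, g2, g3, g4, g5, g6, g7, g8, g9, g10⟩
          have hmem0 : ∀ t < 3 * m, s2.mem 0 (2 + 2 * t) = V t ∧
              s2.mem 0 (2 + 2 * t + 1) = Sg t := by
            intro t ht; rw [g2 0 (by simp)]; exact hm0 t ht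
          have hmem3 : ∀ idx < N * n, s2.mem 3 idx = S idx := by
            intro idx hidx; rw [g2 3 (by simp)]; exact hm3 idx hidx
          apply Tr.le
          · apply Tr.seq
            apply Tr.const (by omega)
            apply Tr.seq
            refine (tr_cLit hw hNn hV hSg hS hv (t := 3 * i) (by omega) _
              (by simp [St.setR_reg, g9]; omega) (by simp [St.setR_reg, g4])
              (by simp [St.setR_reg, g5]) (by simp [St.setR_reg])
              (by simpa [St.setR_mem] using hmem0) (by simpa [St.setR_mem] using hmem3)).mono ?_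
            rintro s3 ⟨a1, a2, a3, a4⟩
            have a4' : s3.reg 13 = if Fal n V Sg S v (3 * i) then 1 else 0 := by
              rw [a4]; simp [St.setR_reg]
            apply Tr.seq
            refine (tr_cLit hw hNn hV hSg hS hv (t := 3 * i + 1) (by omega) s3
              a3 (by rw [a1 20 (by simp)]; simp [St.setR_reg, g4])
              (by rw [a1 16 (by simp)]; simp [St.setR_reg, g5])
              (by rw [a4']; split_ifs <;> omega)
              (by rw [a2 0 (by simp)]; simpa [St.setR_mem] using hmem0)
              (by rw [a2 3 (by simp)]; simpa [St.setR_mem] using hmem3)).mono ?_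
            rintro s4 ⟨b1, b2, b3, b4⟩
            apply Tr.seq
            refine (tr_cLit hw hNn hV hSg hS hv (t := 3 * i + 2) (by omega) s4
              b3 (by rw [b1 20 (by simp), a1 20 (by simp)]; simp [St.setR_reg, g4])
              (by rw [b1 16 (by simp), a1 16 (by simp)]; simp [St.setR_reg, g5])
              (by rw [b4, a4']; split_ifs <;> omega)
              (by rw [b2 0 (by simp), a2 0 (by simp)]; simpa [St.setR_mem] using hmem0)
              (by rw [b2 3 (by simp), a2 3 (by simp)]; simpa [St.setR_mem] using hmem3)).mono ?_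
            rintro s5 ⟨d1, d2, d3, d4⟩
            have hfx : Fx [12, 13, 14, 15] (s2.setR 13 0) s5 := (a1.trans b1).trans d1
            have hfm : ∀ b, s5.mem b = s2.mem b := by
              intro b
              rw [d2 b (by simp), b2 b (by simp), a2 b (by simp)]; rfl
            have hreg : ∀ r, r ∉ [12, 13, 14, 15] → s5.reg r = s2.reg r := by
              intro r hr
              rw [hfx r hr, St.setR_reg, if_neg]
              simp at hr; omega
            have hd13 : s5.reg 13 = (if Fal n V Sg S v (3 * i) then 1 else 0)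
                + (if Fal n V Sg S v (3 * i + 1) then 1 else 0)
                + (if Fal n V Sg S v (3 * i + 2) then 1 else 0) := by
              rw [d4, b4, a4']
            apply Tr.seq
            apply Tr.condConst (by omega)
            apply Tr.skip
            refine ⟨?_, ?_, ?_, ?_, ?_, ?_, ?_, ?_, ?_, ?_, ?_⟩
            · simp [St.setR_reg, hreg 11 (by simp), g8]
            · refine Fx.setR (Fx.setR ?_ (by simp [hL]) _) (by simp [hL]) _
              intro r hr
              rw [hreg r (by simp [hL] at hr ⊢; omega)]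
              exact g1 r hr
            · intro b hb
              simp only [St.setR_mem]
              rw [hfm b]; exact g2 b hb
            · simp [St.setR_reg, hreg 10 (by simp), g3]
            · simp [St.setR_reg, hreg 20 (by simp), g4]
            · simp [St.setR_reg, hreg 16 (by simp), g5]
            · simp [St.setR_reg, hreg 17 (by simp), g6]
            · intro v' hv'
              simp only [St.setR_mem]
              rw [hfm 4]; exact g7 v' hv'
            · simp [St.setR_reg]
            · simp [St.setR_reg, d3]; omega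
            · simp only [St.setR_reg, Test.Holds]
              simp only [hreg 17 (by simp), hreg 21 (by simp), g6, g10, hd13]
              have hex : (∃ i' < i + 1, Fal n V Sg S v (3 * i') ∧ Fal n V Sg S v (3 * i' + 1) ∧
                  Fal n V Sg S v (3 * i' + 2)) ↔ (∃ i' < i, Fal n V Sg S v (3 * i') ∧
                  Fal n V Sg S v (3 * i' + 1) ∧ Fal n V Sg S v (3 * i' + 2)) ∨
                  (Fal n V Sg S v (3 * i) ∧ Fal n V Sg S v (3 * i + 1) ∧
                  Fal n V Sg S v (3 * i + 2)) := by
                constructor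
                · rintro ⟨i', hi', h⟩
                  rcases Nat.lt_or_eq_of_le (Nat.lt_succ_iff.1 hi') with h' | h'
                  · exact Or.inl ⟨i', h', h⟩
                  · subst h'; exact Or.inr h
                · rintro (⟨i', hi', h⟩ | h)
                  · exact ⟨i', by omega, h⟩
                  · exact ⟨i, by omega, h⟩
              rw [show (if ∃ i' < i + 1, Fal n V Sg S v (3 * i') ∧ Fal n V Sg S v (3 * i' + 1) ∧
                  Fal n V Sg S v (3 * i' + 2) then (0 : ℕ) else 1) = _ from
                  if_congr hex rfl rfl]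
              by_cases c0 : Fal n V Sg S v (3 * i) <;>
                by_cases c1 : Fal n V Sg S v (3 * i + 1) <;>
                by_cases c2 : Fal n V Sg S v (3 * i + 2) <;>
                simp [c0, c1, c2]
          · omega
        · refine ⟨?_, f2, ?_, ?_, ?_, ?_, f7, by simp [St.setR_reg], by simp [St.setR_reg],
            by simp [St.setR_reg]⟩
          · repeat' (first | exact f1 | refine Fx.setR ?_ (by simp [hL]) _)
          · simp [St.setR_reg, f3]
          · simp [St.setR_reg, f4]
          · simp [St.setR_reg, f5]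
          · simp [St.setR_reg, f6]
        rintro s2 ⟨g1, g2, g3, g4, g5, g6, g7, g8, g9, g10⟩
        apply Tr.seq
        apply Tr.store
        apply Tr.seq
        have hr1 : s2.reg 1 = n := by rw [g1 1 (by simp [hL]), h1]
        apply Tr.add
        · simp [St.setM_reg, g4, hr1]; omega
        apply Tr.skip
        refine ⟨by simp [St.setR_reg, St.setM_reg, g3], ?_, ?_, by simp [St.setR_reg], ?_, ?_, ?_,
          ?_⟩
        · repeat' (first | exact g1 | refine Fx.setR ?_ (by simp [hL]) _ |
              refine Fx.setM ?_ _ _ _)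
        · repeat' (first | exact g2 | refine Fm.setR ?_ _ _ |
              refine Fm.setM ?_ (by simp) _ _)
        · simp [St.setR_reg, St.setM_reg, g4, hr1]; ring
        · simp [St.setR_reg, St.setM_reg, g5]
        · simp [St.setR_reg, St.setM_reg, g6]
        · intro v' hv'
          simp only [St.setR_mem, St.setM_mem, g3, g10]
          by_cases hvv : v' = v
          · subst hvv; simp [okN]
          · simp [hvv]; exact g7 v' (by omega)
      · omega
    · refine ⟨?_, Fm.refl _ _, by simp [St.setR_reg], by simp [St.setR_reg],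
        by simp [St.setR_reg], by simp [St.setR_reg], by intro v' h; omega⟩
      repeat' (first | exact Fx.refl _ _ | refine Fx.setR ?_ (by simp [hL]) _)
    rintro s2 ⟨f1, f2, f3, f4, f5, f6, f7⟩
    apply Tr.skip
    exact ⟨f1, f2, f7⟩
  · ring_nf; omega

end Pool.Agent.H588R2.DksP
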