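import Pool.Agent.H588R2.DksProgD

/-!
Program of the reduction: the adjacency matrix, and the final count.
-/


namespace Pool.Agent.H588R2.DksP

open Pool.Agent.H588R2.Bank Finset

open Classical in
/-- Adjacency of the vertices `u` and `v`. -/
noncomputable def adN (n : ℕ) (Ok S : ℕ → ℕ) (u v : ℕ) : ℕ :=
  if u ≠ v ∧ Ok u = 1 ∧ Ok v = 1 ∧ ∀ x < n, S (u * n + x) + S (v * n + x) ≠ 1 then 1 else 0

/-- Adjacency as a function of the index in the matrix. -/
noncomputable def adI (n N : ℕ) (Ok S : ℕ → ℕ) (idx : ℕ) : ℕ := adN n Ok S (idx / N) (idx % N)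

/-- The input array for the approximation algorithm. -/
noncomputable def inpN (n N k : ℕ) (Ok S : ℕ → ℕ) (i : ℕ) : ℕ :=
  if i = 0 then N else if i = 1 then k else if i - 2 < N * N then adI n N Ok S (i - 2) else 0

def cAdj (k : ℕ) : Cmd := seqs [.op (.const 16 1), .op (.const 20 0), .op (.const 21 0),
 forC 10 5 (seqs [
   .op (.load 22 4 10),
   .op (.const 23 0),
   forC 11 5 (seqs [
      .op (.load 24 4 11), .op (.mul 24 24 22),
      .ite (.eq 10 11) (.op (.const 24 0)) .skip,
      forC 12 1 (seqs [
         .op (.add 13 20 12), .op (.load 13 3 13),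
         .op (.add 14 23 12), .op (.load 14 3 14),
         .op (.add 13 13 14),
         .ite (.eq 13 16) (.op (.const 24 0)) .skip]),
      .op (.store 5 21 24),
      .op (.addc 13 21 2), .op (.store 6 13 24),
      .op (.addc 21 21 1), .op (.add 23 23 1)]),
   .op (.add 20 20 1)]),
 .op (.const 13 0), .op (.store 6 13 5),
 .op (.const 14 k), .op (.const 13 1), .op (.store 6 13 14)]

open Classical in
theorem tr_cAdj {w n N k : ℕ} {Ok S : ℕ → ℕ} (hw : N * N + 10 < 2 ^ w)
    (hNn : N * n + n < 2 ^ w) (hN : N < 2 ^ w) (hnw : n < 2 ^ w) (hk : k < 2 ^ w)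
    (hOk : ∀ v < N, Ok v ≤ 1) (hS : ∀ idx < N * n, S idx ≤ 2)
    (s : St) (h1 : s.reg 1 = n) (h5 : s.reg 5 = N)
    (hm3 : ∀ idx < N * n, s.mem 3 idx = S idx)
    (hm4 : ∀ v < N, s.mem 4 v = Ok v) (hm6 : ∀ i, s.mem 6 i = 0) :
    Tr w (cAdj k) s (N * (N * (n * 11 + 17) + 9) + 11)
      (fun s' => Fx [10, 11, 12, 13, 14, 16, 20, 21, 22, 23, 24] s s' ∧ Fm [5, 6] s s' ∧
        (∀ idx < N * N, s'.mem 5 idx = adI n N Ok S idx) ∧
        s'.mem 6 = inpN n N k Ok S) := by
  set L := [10, 11, 12, 13, 14, 16, 20, 21, 22, 23, 24] with hL
  -- common part of the invariants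
  let J : ℕ → ℕ → St → Prop := fun u q s' => Fx L s s' ∧ Fm [5, 6] s s' ∧ s'.reg 10 = u ∧
    s'.reg 16 = 1 ∧ s'.reg 20 = u * n ∧ s'.reg 21 = q ∧
    (∀ idx < q, s'.mem 5 idx = adI n N Ok S idx) ∧
    (∀ i, s'.mem 6 i = if 2 ≤ i ∧ i - 2 < q then adI n N Ok S (i - 2) else 0)
  apply Tr.le
  · apply Tr.seq
    apply Tr.const (by omega)
    apply Tr.seq
    apply Tr.const (by omega)
    apply Tr.seq
    apply Tr.const (by omega)
    apply Tr.seq
    refine (Tr.forC N (N * (n * 11 + 17) + 6)
      (fun u s' => J u (u * N) s') hN ?_ ?_ ?_).mono ?_
    · rintro q s' ⟨f1, f2, f3, _⟩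
      exact ⟨f3, by rw [f1 5 (by simp [hL]), h5]⟩
    · rintro u s1 hu ⟨f1, f2, f3, f4, f5, f6, f7, f8⟩
      have hun : u * n + n ≤ N * n := by
        calc u * n + n = (u + 1) * n := by ring
          _ ≤ N * n := Nat.mul_le_mul_right _ hu
      have huN : u * N + N ≤ N * N := by
        calc u * N + N = (u + 1) * N := by ring
          _ ≤ N * N := Nat.mul_le_mul_right _ hu
      have hOku := hOk u hu
      have m4u : s1.mem 4 u = Ok u := by rw [f2 4 (by simp)]; exact hm4 u hu
      apply Tr.le
      · apply Tr.seq
        apply Tr.load
        · rw [f3, m4u]; omega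
        rw [f3, m4u]
        apply Tr.seq
        apply Tr.const (by omega)
        apply Tr.seq
        refine (Tr.forC N (n * 11 + 14)
          (fun v s' => J u (u * N + v) s' ∧ s'.reg 11 = v ∧ s'.reg 22 = Ok u ∧
            s'.reg 23 = v * n) hN ?_ ?_ ?_).mono ?_
        · rintro q s' ⟨⟨g1, _⟩, g2, _⟩
          exact ⟨g2, by rw [g1 5 (by simp [hL]), h5]⟩
        · rintro v s2 hv ⟨⟨g1, g2, g3, g4, g5, g6, g7, g8⟩, g9, g10, g11⟩
          have hvn : v * n + n ≤ N * n := by
            calc v * n + n = (v + 1) * n := by ring
              _ ≤ N * n := Nat.mul_le_mul_right _ hv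
          have hOkv := hOk v hv
          have m4v : s2.mem 4 v = Ok v := by rw [g2 4 (by simp)]; exact hm4 v hv
          have m3 : ∀ idx < N * n, s2.mem 3 idx = S idx := by
            intro idx hi; rw [g2 3 (by simp)]; exact hm3 idx hi
          have hmulOk : Ok v * Ok u ≤ 1 := by
            calc Ok v * Ok u ≤ 1 * 1 := Nat.mul_le_mul hOkv hOku
              _ = 1 := rfl
          apply Tr.le
          · apply Tr.seq
            apply Tr.load
            · rw [g9, m4v]; omega
            rw [g9, m4v]
            apply Tr.seq
            apply Tr.mul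
            · simp [St.setR_reg, g10]; omega
            apply Tr.seq
            apply Tr.condConst (by omega)
            apply Tr.seq
            refine (Tr.forC n 8
              (fun x s' => (∀ r, r ∉ [12, 13, 14, 24] → s'.reg r = s2.reg r) ∧
                s'.mem = s2.mem ∧ s'.reg 12 = x ∧
                s'.reg 24 = if u ≠ v ∧ Ok u = 1 ∧ Ok v = 1 ∧
                  ∀ x' < x, S (u * n + x') + S (v * n + x') ≠ 1 then 1 else 0)
              hnw ?_ ?_ ?_).mono ?_
            · rintro q s' ⟨k1, _, k3, _⟩
              exact ⟨k3, by rw [k1 1 (by simp), g1 1 (by simp [hL]), h1]⟩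
            · rintro x s3 hx ⟨k1, k2, k3, k4⟩
              have i1 : u * n + x < N * n := by omega
              have i2 : v * n + x < N * n := by omega
              have e1 := m3 _ i1
              have e2 := m3 _ i2
              have b1 := hS _ i1
              have b2 := hS _ i2
              have r20 : s3.reg 20 = u * n := by rw [k1 20 (by simp), g5]
              have r23 : s3.reg 23 = v * n := by rw [k1 23 (by simp), g11]
              have r16 : s3.reg 16 = 1 := by rw [k1 16 (by simp), g4]
              apply Tr.le
              · apply Tr.seq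
                apply Tr.add
                · rw [r20, k3]; omega
                apply Tr.seq
                apply Tr.load
                · simp [St.setR_reg, St.setR_mem, r20, k3, k2, e1]; omega
                simp only [St.setR_mem]
                apply Tr.seq
                apply Tr.add
                · simp [St.setR_reg, r23, k3]; omega
                apply Tr.seq
                apply Tr.load
                · simp only [St.setR_mem]
                  simp [St.setR_reg, r23, k3, k2, e2]; omega
                simp only [St.setR_mem]
                apply Tr.seq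
                apply Tr.add
                · simp [St.setR_reg, r20, r23, k3, k2, e1, e2]; omega
                apply Tr.seq
                apply Tr.condConst (by omega)
                apply Tr.skip
                refine ⟨by simp [St.setR_reg, k3], ?_, k2, by simp [St.setR_reg], ?_⟩
                · intro r hr
                  simp at hr
                  simp [St.setR_reg, hr, k1 r (by simp [hr])]
                · simp only [St.setR_reg, Test.Holds]
                  simp [k3, k2, r16, r20, r23, e1, e2, k4]
                  have hall : (∀ x' ≤ x, ¬ S (u * n + x') + S (v * n + x') = 1) ↔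
                      (∀ x' < x, ¬ S (u * n + x') + S (v * n + x') = 1) ∧
                      ¬ S (u * n + x) + S (v * n + x) = 1 := by
                    constructor
                    · intro h
                      exact ⟨fun x' hx' => h x' (by omega), h x (by omega)⟩
                    · rintro ⟨h1, h2⟩ x' hx'
                      rcases Nat.lt_or_eq_of_le hx' with h' | h'
                      · exact h1 x' h'
                      · subst h'; exact h2
                  simp only [hall]
                  by_cases hc : S (u * n + x) + S (v * n + x) = 1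
                  · simp [hc]
                  · simp [hc]
              · omega
            · refine ⟨?_, rfl, by simp [St.setR_reg], ?_⟩
              · intro r hr
                simp at hr
                simp [St.setR_reg, hr]
              · simp only [St.setR_reg, Test.Holds]
                simp [g3, g9, g10]
                have hO1 : Ok u = 0 ∨ Ok u = 1 := by omega
                have hO2 : Ok v = 0 ∨ Ok v = 1 := by omega
                by_cases huv : u = v
                · simp [huv]
                · rcases hO1 with hO1 | hO1 <;> rcases hO2 with hO2 | hO2 <;>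
                    simp [huv, hO1, hO2]
            rintro s4 ⟨k1, k2, k3, k4⟩
            have k4' : s4.reg 24 = adN n Ok S u v := by rw [k4]; rfl
            have r21 : s4.reg 21 = u * N + v := by rw [k1 21 (by simp), g6]
            have r23 : s4.reg 23 = v * n := by rw [k1 23 (by simp), g11]
            have r1 : s4.reg 1 = n := by rw [k1 1 (by simp), g1 1 (by simp [hL]), h1]
            have r20 : s4.reg 20 = u * n := by rw [k1 20 (by simp), g5]
            have r16 : s4.reg 16 = 1 := by rw [k1 16 (by simp), g4]
            have r10 : s4.reg 10 = u := by rw [k1 10 (by simp), g3]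
            have r11 : s4.reg 11 = v := by rw [k1 11 (by simp), g9]
            have r22 : s4.reg 22 = Ok u := by rw [k1 22 (by simp), g10]
            have fx4 : Fx L s s4 := by
              intro r hr
              rw [k1 r (by simp [hL] at hr ⊢; omega)]; exact g1 r hr
            have fm4 : Fm [5, 6] s s4 := by
              intro b hb
              rw [k2]; exact g2 b hb
            have hadI : adI n N Ok S (u * N + v) = adN n Ok S u v := by
              unfold adI
              rw [Nat.mul_add_mod_self_right, Nat.mod_eq_of_lt hv, mul_comm u N,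
                Nat.mul_add_div (by omega), Nat.div_eq_of_lt hv, add_zero]
            apply Tr.seq
            apply Tr.store
            apply Tr.seq
            apply Tr.addc
            · simp [St.setM_reg, r21]; omega
            apply Tr.seq
            apply Tr.store
            apply Tr.seq
            apply Tr.addc
            · simp [St.setM_reg, St.setR_reg, r21]; omega
            apply Tr.seq
            apply Tr.add
            · simp [St.setM_reg, St.setR_reg, r23, r1]; omega
            apply Tr.skip
            refine ⟨?_, ⟨?_, ?_, ?_, ?_, ?_, ?_, ?_, ?_⟩, ?_, ?_, ?_⟩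
            · simp [St.setM_reg, St.setR_reg, r11]
            · repeat' (first | exact fx4 | refine Fx.setR ?_ (by simp [hL]) _ |
                refine Fx.setM ?_ _ _ _)
            · repeat' (first | exact fm4 | refine Fm.setR ?_ _ _ |
                refine Fm.setM ?_ (by simp) _ _)
            · simp [St.setM_reg, St.setR_reg, r10]
            · simp [St.setM_reg, St.setR_reg, r16]
            · simp [St.setM_reg, St.setR_reg, r20]
            · simp [St.setM_reg, St.setR_reg, r21]; ring
            · intro idx hi
              simp only [St.setR_mem, St.setM_mem, St.setR_reg, St.setM_reg]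
              by_cases hiq : idx = u * N + v
              · subst hiq
                simp [r21, k4', hadI]
              · simp [r21, hiq, k2]
                exact g7 idx (by omega)
            · intro i
              simp only [St.setR_mem, St.setM_mem, St.setR_reg, St.setM_reg]
              by_cases hiq : i = u * N + v + 2
              · subst hiq
                simp [r21, k4', hadI]
              · simp [r21, hiq, k2, g8 i]
                by_cases h2i : 2 ≤ i
                · have : (i - 2 < u * N + v) ↔ (i - 2 < u * N + (v + 1)) := by omega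
                  simp [h2i, this]
                · simp [h2i]
            · simp [St.setM_reg, St.setR_reg]
            · simp [St.setM_reg, St.setR_reg, r22]
            · simp [St.setM_reg, St.setR_reg, r23, r1]; ring
          · omega
        · refine ⟨⟨?_, f2, ?_, ?_, ?_, ?_, ?_, ?_⟩, ?_, ?_, ?_⟩
          · repeat' (first | exact f1 | refine Fx.setR ?_ (by simp [hL]) _)
          · simp [St.setR_reg, f3]
          · simp [St.setR_reg, f4]
          · simp [St.setR_reg, f5]
          · simp [St.setR_reg, f6]
          · exact f7
          · exact f8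
          · simp [St.setR_reg]
          · simp [St.setR_reg]
          · simp [St.setR_reg]
        rintro s2 ⟨⟨g1, g2, g3, g4, g5, g6, g7, g8⟩, g9, g10, g11⟩
        have hr1 : s2.reg 1 = n := by rw [g1 1 (by simp [hL]), h1]
        have e : (u + 1) * N = u * N + N := by ring
        apply Tr.seq
        apply Tr.add
        · rw [g5, hr1]; omega
        apply Tr.skip
        refine ⟨by simp [St.setR_reg, g3], ?_, g2, by simp [St.setR_reg], ?_, ?_, ?_, ?_, ?_⟩
        · repeat' (first | exact g1 | refine Fx.setR ?_ (by simp [hL]) _)
        · simp [St.setR_reg, g4]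
        · simp [St.setR_reg, g5, hr1]; ring
        · simp [St.setR_reg, g6, e]
        · rw [e]; exact g7
        · rw [e]; exact g8
      · ring_nf; omega
    · refine ⟨?_, Fm.refl _ _, by simp [St.setR_reg], by simp [St.setR_reg],
        by simp [St.setR_reg], by simp [St.setR_reg], by intro v' h; omega, ?_⟩
      · repeat' (first | exact Fx.refl _ _ | refine Fx.setR ?_ (by simp [hL]) _)
      · intro i
        simp [St.setR_mem, hm6]
    rintro s2 ⟨f1, f2, f3, f4, f5, f6, f7, f8⟩
    have hr5 : s2.reg 5 = N := by rw [f1 5 (by simp [hL]), h5]
    apply Tr.seq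
    apply Tr.const (by omega)
    apply Tr.seq
    apply Tr.store
    apply Tr.seq
    apply Tr.const hk
    apply Tr.seq
    apply Tr.const (by omega)
    apply Tr.seq
    apply Tr.store
    apply Tr.skip
    refine ⟨?_, ?_, ?_, ?_⟩
    · repeat' (first | exact f1 | refine Fx.setR ?_ (by simp [hL]) _ |
        refine Fx.setM ?_ _ _ _)
    · repeat' (first | exact f2 | refine Fm.setR ?_ _ _ |
        refine Fm.setM ?_ (by simp) _ _)
    · intro idx hi
      simp only [St.setR_mem, St.setM_mem, St.setR_reg, St.setM_reg]
      simp
      exact f7 idx hi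
    · funext i
      simp only [St.setR_mem, St.setM_mem, St.setR_reg, St.setM_reg]
      simp [hr5, f8 i]
      unfold inpN
      by_cases hi0 : i = 0
      · simp [hi0]
      · by_cases hi1 : i = 1
        · simp [hi1]
        · have : 2 ≤ i := by omega
          simp [hi0, hi1, this]
  · ring_nf; omega

/-- Count the adjacent pairs in the output and compare with the threshold. -/
def cCnt (k Th : ℕ) : Cmd := seqs [.op (.const 17 k), .op (.const 20 0),
  forC 10 17 (seqs [
    .op (.load 12 6 10), .op (.mul 12 12 5),
    forC 11 17 (seqs [
      .op (.load 13 6 11), .op (.add 13 13 12), .op (.load 13 5 13), .op (.add 20 20 13)])]),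
  .op (.const 13 Th), .op (.const 0 0), .ite (.lt 13 20) (.op (.const 0 1)) .skip]

/-- Number of adjacent ordered pairs among `su 0, …, su (k - 1)`. -/
def cntN (k : ℕ) (ad : ℕ → ℕ → ℕ) (su : ℕ → ℕ) : ℕ :=
  ∑ i ∈ range k, ∑ j ∈ range k, ad (su i) (su j)

theorem tr_cCnt {w N k Th : ℕ} {ad : ℕ → ℕ → ℕ} {su : ℕ → ℕ} (hw : N * N + 10 < 2 ^ w)
    (hk : k < 2 ^ w) (hkk : k * k + 1 < 2 ^ w) (hTh : Th < 2 ^ w)
    (had : ∀ u < N, ∀ v < N, ad u v ≤ 1) (hsu : ∀ i < k, su i < N)
    (s : St) (h5 : s.reg 5 = N)
    (hm5 : ∀ u < N, ∀ v < N, s.mem 5 (u * N + v) = ad u v)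
    (hm6 : ∀ i < k, s.mem 6 i = su i) :
    Tr w (cCnt k Th) s (k * (k * 7 + 8) + 10)
      (fun s' => s'.reg 0 = if Th < cntN k ad su then 1 else 0) := by
  set L := [10, 11, 12, 13, 17, 20] with hL
  apply Tr.le
  · apply Tr.seq
    apply Tr.const hk
    apply Tr.seq
    apply Tr.const (by omega)
    apply Tr.seq
    refine (Tr.forC k (k * 7 + 5)
      (fun i s' => Fx L s s' ∧ Fm [] s s' ∧ s'.reg 10 = i ∧ s'.reg 17 = k ∧
        s'.reg 20 = ∑ i' ∈ range i, ∑ j ∈ range k, ad (su i') (su j)) hk ?_ ?_ ?_).mono ?_
    · rintro q s' ⟨f1, f2, f3, f4, _⟩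
      exact ⟨f3, f4⟩
    · rintro i s1 hi ⟨f1, f2, f3, f4, f5⟩
      have hsi := hsu i hi
      have hb : ∑ i' ∈ range i, ∑ j ∈ range k, ad (su i') (su j) ≤ i * k := by
        calc _ ≤ ∑ i' ∈ range i, ∑ j ∈ range k, 1 := by
              apply Finset.sum_le_sum; intro i' hi'
              apply Finset.sum_le_sum; intro j hj
              rw [mem_range] at hi' hj
              exact had _ (hsu _ (by omega)) _ (hsu _ hj)
          _ = i * k := by simp
      have hik : i * k + k ≤ k * k := by
        calc i * k + k = (i + 1) * k := by ring
          _ ≤ k * k := Nat.mul_le_mul_right _ hi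
      have hsN : su i * N + N ≤ N * N := by
        calc su i * N + N = (su i + 1) * N := by ring
          _ ≤ N * N := Nat.mul_le_mul_right _ hsi
      have r5 : s1.reg 5 = N := by rw [f1 5 (by simp [hL]), h5]
      have m6 : s1.mem 6 i = su i := by rw [f2 6 (by simp)]; exact hm6 i hi
      have hNN : N ≤ N * N := Nat.le_mul_of_pos_left _ (by omega)
      apply Tr.le
      · apply Tr.seq
        apply Tr.load
        · rw [f3, m6]; omega
        rw [f3, m6]
        apply Tr.seq
        apply Tr.mul
        · simp [St.setR_reg, r5]; omega
        refine Tr.le (T := _ + 0) (Tr.seq ((Tr.forC k 4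
          (fun j s' => Fx L s s' ∧ Fm [] s s' ∧ s'.reg 10 = i ∧ s'.reg 17 = k ∧
            s'.reg 11 = j ∧ s'.reg 12 = su i * N ∧
            s'.reg 20 = ∑ i' ∈ range i, ∑ j ∈ range k, ad (su i') (su j)
              + ∑ j' ∈ range j, ad (su i) (su j')) hk ?_ ?_ ?_).mono ?_)) le_rfl
        · rintro q s' ⟨g1, g2, g3, g4, g5, _⟩
          exact ⟨g5, g4⟩
        · rintro j s2 hj ⟨g1, g2, g3, g4, g5, g6, g7⟩
          have hsj := hsu j hj
          have m6' : s2.mem 6 j = su j := by rw [g2 6 (by simp)]; exact hm6 j hj
          have m5' : s2.mem 5 (su j + su i * N) = ad (su i) (su j) := by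
            rw [g2 5 (by simp), add_comm]; exact hm5 _ hsi _ hsj
          have had' := had _ hsi _ hsj
          have hb2 : ∑ j' ∈ range j, ad (su i) (su j') ≤ j := by
            calc _ ≤ ∑ j' ∈ range j, 1 := by
                  apply Finset.sum_le_sum; intro j' hj'
                  rw [mem_range] at hj'
                  exact had _ hsi _ (hsu _ (by omega))
              _ = j := by simp
          apply Tr.le
          · apply Tr.seq
            apply Tr.load
            · rw [g5, m6']; omega
            rw [g5, m6']
            apply Tr.seq
            apply Tr.add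
            · simp [St.setR_reg, g6]; omega
            apply Tr.seq
            apply Tr.load
            · simp [St.setR_reg, St.setR_mem, g6, m5']; omega
            simp only [St.setR_mem]
            apply Tr.seq
            apply Tr.add
            · simp [St.setR_reg, g6, g7, m5']; omega
            apply Tr.skip
            refine ⟨by simp [St.setR_reg, g5], ?_, g2, ?_, ?_, by simp [St.setR_reg], ?_, ?_⟩
            · repeat' (first | exact g1 | refine Fx.setR ?_ (by simp [hL]) _)
            · simp [St.setR_reg, g3]
            · simp [St.setR_reg, g4]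
            · simp [St.setR_reg, g6]
            · simp [St.setR_reg, g6, g7, m5', Finset.sum_range_succ]; ring
          · omega
        · refine ⟨?_, f2, ?_, ?_, by simp [St.setR_reg], by simp [St.setR_reg, r5], ?_⟩
          · repeat' (first | exact f1 | refine Fx.setR ?_ (by simp [hL]) _)
          · simp [St.setR_reg, f3]
          · simp [St.setR_reg, f4]
          · simp [St.setR_reg, f5]
        · rintro s2 ⟨g1, g2, g3, g4, g5, g6, g7⟩
          apply Tr.skip
          refine ⟨g3, ?_, g2, by simp [St.setR_reg], by simp [St.setR_reg, g4], ?_⟩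
          · repeat' (first | exact g1 | refine Fx.setR ?_ (by simp [hL]) _)
          · simp [St.setR_reg, g7, Finset.sum_range_succ]
      · omega
    · refine ⟨?_, Fm.refl _ _, by simp [St.setR_reg], by simp [St.setR_reg],
        by simp [St.setR_reg]⟩
      repeat' (first | exact Fx.refl _ _ | refine Fx.setR ?_ (by simp [hL]) _)
    rintro s2 ⟨f1, f2, f3, f4, f5⟩
    apply Tr.seq
    apply Tr.const hTh
    apply Tr.seq
    apply Tr.const (by omega)
    apply Tr.seq
    apply Tr.condConst (by omega)
    apply Tr.skip
    simp only [St.setR_reg, Test.Holds]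
    simp [f5, cntN]
  · ring_nf; omega

end Pool.Agent.H588R2.DksP
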