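import Mathlib

/-!
Likelihood tables for the Densest-k-Subgraph reduction: one coordinate of a random partial
assignment, predicted from the states of earlier partial assignments.
-/

namespace Pool.Agent.H588R2.Dks

open Finset

noncomputable section

open Classical in
/-- Likelihood ratio of the own code at one coordinate: `s0`, `s1` tell whether some
back-neighbour has value `0`, resp. `1`, at this coordinate; `a` is the new value (`2` = star);
`hv` says that the coordinate is heavy. -/
def Lown (M : ℝ) (hv s0 s1 : Prop) (a : ℕ) : ℝ :=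
  if hv then
    (if s0 then (if s1 then 0 else if a = 0 then 1 else 0)
     else (if s1 then (if a = 1 then 1 else 0) else 1 / 2))
  else
    (if s0 then (if s1 then (if a = 2 then (M - 1) / (M - 2) else 0)
                 else (if a = 1 then 0 else 1))
     else (if s1 then (if a = 0 then 0 else 1) else (M - 1) / M))

open Classical in
/-- Likelihood ratio of the neighbourhood code at one coordinate. -/
def Lnb (M τ β : ℝ) (hv s0 s1 : Prop) (a : ℕ) : ℝ :=
  if hv then
    (if s0 then (if s1 then 0 else if a = 0 then 1 else 0)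
     else (if s1 then (if a = 1 then 1 else 0) else 1 / 2))
  else
    (if s0 then (if s1 then (M - 1) / M
                 else (if a = 0 then 1 - β else if a = 1 then β else 1))
     else (if s1 then (if a = 1 then 1 - β else if a = 0 then β else 1)
           else (if a = 2 then (M - 1 - τ) / (M - 2) else τ / 2)))

open Classical in
/-- Probability that a random coordinate agrees with a fixed bit. -/
def pr (M : ℝ) (hv : Prop) : ℝ := if hv then 1 / 2 else (M - 1) / M

/-- The distribution of the value at one coordinate. -/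
structure ValDist (Ω : Type) [Fintype Ω] (M : ℝ) (hv : Prop) (v : Ω → ℕ) : Prop where
  light : ¬ hv → ∀ g : ℕ → ℝ, ∑ ω, g (v ω) = g 0 + g 1 + (M - 2) * g 2
  heavy : hv → ∀ g : ℕ → ℝ, ∑ ω, g (v ω) = M / 2 * (g 0 + g 1)

variable {Ω : Type} [Fintype Ω] {M τ β : ℝ} {hv s0 s1 : Prop} {v : Ω → ℕ}

theorem sum_Lown_le (hM : 2 < M) (h : ValDist Ω M hv v) :
    ∑ ω, Lown M hv s0 s1 (v ω) ≤ M * pr M hv := by
  have hM2 : M - 2 ≠ 0 := by linarith
  have hM0 : M ≠ 0 := by linarith
  by_cases hh : hv
  · rw [h.heavy hh (fun a => Lown M hv s0 s1 a)]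
    by_cases h0 : s0 <;> by_cases h1 : s1 <;> simp [Lown, pr, hh, h0, h1] <;> linarith
  · rw [h.light hh (fun a => Lown M hv s0 s1 a)]
    by_cases h0 : s0 <;> by_cases h1 : s1 <;> simp [Lown, pr, hh, h0, h1] <;>
      field_simp <;> linarith

theorem sum_Lnb_le (hM : 2 < M) (h : ValDist Ω M hv v) :
    ∑ ω, Lnb M τ β hv s0 s1 (v ω) ≤ M * pr M hv := by
  have hM2 : M - 2 ≠ 0 := by linarith
  have hM0 : M ≠ 0 := by linarith
  by_cases hh : hv
  · rw [h.heavy hh (fun a => Lnb M τ β hv s0 s1 a)]
    by_cases h0 : s0 <;> by_cases h1 : s1 <;> simp [Lnb, pr, hh, h0, h1] <;> linarith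
  · rw [h.light hh (fun a => Lnb M τ β hv s0 s1 a)]
    by_cases h0 : s0 <;> by_cases h1 : s1 <;> simp [Lnb, pr, hh, h0, h1] <;>
      field_simp <;> ring_nf <;> linarith

/-- On a light coordinate with exactly one value seen, the own code gives value `A` the
probability `1 / (M - 1)`. -/
theorem sum_Lown_ind (hM : 2 < M) (h : ValDist Ω M hv v) (hh : ¬ hv) (hs : s0 ↔ ¬ s1)
    (A : ℕ) (hA0 : s0 → A = 0) (hA1 : s1 → A = 1) :
    ∑ ω, Lown M hv s0 s1 (v ω) * (if v ω = A then (1 : ℝ) else 0)
      = 1 / (M - 1) * ∑ ω, Lown M hv s0 s1 (v ω) := by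
  have hM2 : M - 1 ≠ 0 := by linarith
  rw [h.light hh (fun a => Lown M hv s0 s1 a),
    h.light hh (fun a => Lown M hv s0 s1 a * (if a = A then (1 : ℝ) else 0))]
  by_cases h1 : s1
  · have h0 : ¬ s0 := by rw [hs]; exact fun h => h h1
    rw [hA1 h1]
    simp [Lown, hh, h0, h1]; field_simp; ring
  · have h0 : s0 := hs.2 h1
    rw [hA0 h0]
    simp [Lown, hh, h0, h1]; field_simp; ring

theorem Lown_nonneg (hM : 2 < M) (a : ℕ) : 0 ≤ Lown M hv s0 s1 a := by
  have h1 : 0 ≤ (M - 1) / (M - 2) := div_nonneg (by linarith) (by linarith)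
  have h2 : 0 ≤ (M - 1) / M := div_nonneg (by linarith) (by linarith)
  unfold Lown
  split_ifs <;> positivity

theorem Lnb_nonneg (hM : 2 < M) (hτ0 : 0 ≤ τ) (hτ : τ ≤ 1) (hβ0 : 0 ≤ β) (hβ : β ≤ 1)
    (a : ℕ) : 0 ≤ Lnb M τ β hv s0 s1 a := by
  have h1 : 0 ≤ (M - 1 - τ) / (M - 2) := div_nonneg (by linarith) (by linarith)
  have h2 : 0 ≤ (M - 1) / M := div_nonneg (by linarith) (by linarith)
  unfold Lnb
  have h3 : 0 ≤ 1 - β := by linarith
  split_ifs <;> positivity

/-- Independence of disjoint blocks of coordinates. -/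
theorem sum_prod_blocks {X Ω : Type} [Fintype X] [DecidableEq X] [Fintype Ω]
    (e : X → Ω → ℝ) (p : ℝ) (F : Finset (Finset X)) :
    ∀ (f : X → Ω → ℝ), (F : Set (Finset X)).PairwiseDisjoint id →
      (∀ T ∈ F, ∀ x ∈ T, ∑ ω, f x ω * e x ω = p * ∑ ω, f x ω) →
      ∑ a : X → Ω, (∏ x, f x (a x)) * ∏ T ∈ F, (1 - ∏ x ∈ T, e x (a x))
        = (∏ x, ∑ ω, f x ω) * ∏ T ∈ F, (1 - p ^ T.card) := by
  classical
  induction F using Finset.induction_on with
  | empty =>
    intro f _ _
    simp only [Finset.prod_empty, mul_one]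
    rw [Finset.prod_univ_sum]
    simp [Fintype.piFinset_univ]
  | insert T₀ F hT₀ ih =>
    intro f hdis hf
    have hdis' : (F : Set (Finset X)).PairwiseDisjoint id :=
      hdis.subset (by simp)
    set f' : X → Ω → ℝ := fun x ω => if x ∈ T₀ then f x ω * e x ω else f x ω with hf'
    have hprod : ∀ a : X → Ω, ∏ x, f' x (a x) = (∏ x, f x (a x)) * ∏ x ∈ T₀, e x (a x) := by
      intro a
      rw [← Finset.prod_filter_mul_prod_filter_not univ (fun x => x ∈ T₀) (fun x => f x (a x)),
        ← Finset.prod_filter_mul_prod_filter_not univ (fun x => x ∈ T₀) (fun x => f' x (a x))]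
      have e1 : univ.filter (fun x => x ∈ T₀) = T₀ := by ext; simp
      rw [e1]
      have e2 : ∏ x ∈ T₀, f' x (a x) = (∏ x ∈ T₀, f x (a x)) * ∏ x ∈ T₀, e x (a x) := by
        rw [← Finset.prod_mul_distrib]
        apply Finset.prod_congr rfl
        intro x hx; simp [f', hx]
      have e3 : ∏ x ∈ univ.filter (fun x => ¬ x ∈ T₀), f' x (a x)
          = ∏ x ∈ univ.filter (fun x => ¬ x ∈ T₀), f x (a x) := by
        apply Finset.prod_congr rfl
        intro x hx
        simp only [mem_filter, mem_univ, true_and] at hx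
        simp [f', hx]
      rw [e2, e3]; ring
    have hsum : ∏ x, ∑ ω, f' x ω = (∏ x, ∑ ω, f x ω) * p ^ T₀.card := by
      rw [← Finset.prod_filter_mul_prod_filter_not univ (fun x => x ∈ T₀)
          (fun x => ∑ ω, f x ω),
        ← Finset.prod_filter_mul_prod_filter_not univ (fun x => x ∈ T₀)
          (fun x => ∑ ω, f' x ω)]
      have e1 : univ.filter (fun x => x ∈ T₀) = T₀ := by ext; simp
      rw [e1]
      have e2 : ∏ x ∈ T₀, ∑ ω, f' x ω = (∏ x ∈ T₀, ∑ ω, f x ω) * p ^ T₀.card := by
        rw [← Finset.prod_const, ← Finset.prod_mul_distrib]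
        apply Finset.prod_congr rfl
        intro x hx
        have := hf T₀ (Finset.mem_insert_self _ _) x hx
        simp only [f', hx, if_true]
        rw [this]; ring
      have e3 : ∏ x ∈ univ.filter (fun x => ¬ x ∈ T₀), ∑ ω, f' x ω
          = ∏ x ∈ univ.filter (fun x => ¬ x ∈ T₀), ∑ ω, f x ω := by
        apply Finset.prod_congr rfl
        intro x hx
        simp only [mem_filter, mem_univ, true_and] at hx
        simp [f', hx]
      rw [e2, e3]; ring
    have i1 := ih f hdis' (fun T hT => hf T (Finset.mem_insert_of_mem hT))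
    have i2 := ih f' hdis' (by
      intro T hT x hx
      have hne : T ≠ T₀ := fun h => hT₀ (h ▸ hT)
      have hd : Disjoint T T₀ := hdis (by simp [hT]) (by simp) hne
      have hx' : x ∉ T₀ := fun h => Finset.disjoint_left.1 hd hx h
      simp only [f', hx', if_false]
      exact hf T (Finset.mem_insert_of_mem hT) x hx)
    rw [Finset.prod_insert hT₀]
    have : ∀ a : X → Ω, (∏ x, f x (a x)) * ∏ T ∈ insert T₀ F, (1 - ∏ x ∈ T, e x (a x))
        = (∏ x, f x (a x)) * ∏ T ∈ F, (1 - ∏ x ∈ T, e x (a x))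
          - (∏ x, f' x (a x)) * ∏ T ∈ F, (1 - ∏ x ∈ T, e x (a x)) := by
      intro a
      rw [Finset.prod_insert hT₀, hprod]; ring
    rw [Finset.sum_congr rfl (fun a _ => this a), Finset.sum_sub_distrib, i1, i2, hsum]
    ring

end

end Pool.Agent.H588R2.Dks
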