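import Pool.Agent.H588R2.DksForm

/-!
Yes case: a random family contains `k` strings agreeing with a given assignment; No case: the
probability that a random family has a dense small subgraph.
-/

set_option linter.unusedSectionVars false

namespace Pool.Agent.H588R2.Dks

open Finset

noncomputable section

variable {X : Type} [Fintype X] [DecidableEq X] {Ω : Type} [Fintype Ω] {val : X → Ω → ℕ}
  {D : Data X}

/-- The raw string `r` agrees with the assignment `σ`. -/
def Agree (val : X → Ω → ℕ) (σ : X → ℕ) (r : X → Ω) : Prop :=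
  ∀ x, val x (r x) = σ x ∨ val x (r x) = 2

open Classical in
theorem sum_agree (hm : Model D Ω val) (σ : X → ℕ) (hσ : ∀ x, σ x ≤ 1) :
    ∑ r : X → Ω, (if Agree val σ r then (1 : ℝ) else 0)
      = (Fintype.card (X → Ω) : ℝ) * ∏ x, pr D.M (D.hv x) := by
  rw [← prod_M_pr hm]
  have h1 : ∀ r : X → Ω, (if Agree val σ r then (1 : ℝ) else 0)
      = ∏ x, (if val x (r x) = σ x ∨ val x (r x) = 2 then (1 : ℝ) else 0) := by
    intro r
    by_cases h : Agree val σ r
    · rw [if_pos h]
      symm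
      apply Finset.prod_eq_one
      intro x _
      rw [if_pos (h x)]
    · rw [if_neg h]
      unfold Agree at h
      push Not at h
      obtain ⟨x, hx⟩ := h
      symm
      apply Finset.prod_eq_zero (mem_univ x)
      rw [if_neg]
      rintro (h' | h')
      · exact hx.1 h'
      · exact hx.2 h'
  rw [Finset.sum_congr rfl (fun r _ => h1 r)]
  have := Finset.prod_univ_sum (fun _ : X => (univ : Finset Ω))
    (fun x ω => if val x ω = σ x ∨ val x ω = 2 then (1 : ℝ) else 0)
  rw [Fintype.piFinset_univ] at this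
  rw [← this]
  apply Finset.prod_congr rfl
  intro x _
  have hM := hm.hM
  have hs : σ x = 0 ∨ σ x = 1 := by have := hσ x; omega
  by_cases hx : D.hv x
  · rw [(hm.dist x).heavy hx (fun a => if a = σ x ∨ a = 2 then (1 : ℝ) else 0)]
    rcases hs with hs | hs <;> simp [hs, pr, hx] <;> ring
  · rw [(hm.dist x).light hx (fun a => if a = σ x ∨ a = 2 then (1 : ℝ) else 0)]
    have hM0 : D.M ≠ 0 := by linarith
    rcases hs with hs | hs <;> simp [hs, pr, hx] <;> field_simp <;> ring

theorem pr_le_one {M : ℝ} (hM : 2 < M) (hv : Prop) : pr M hv ≤ 1 := by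
  unfold pr; split_ifs
  · norm_num
  · rw [div_le_one (by linarith)]; linarith

open Classical in
/-- Yes case. -/
theorem yes_count (hm : Model D Ω val) (σ : X → ℕ) (hσ : ∀ x, σ x ≤ 1) (k G : ℕ)
    (hG : 3 * (k : ℝ) ≤ G * ∏ x, pr D.M (D.hv x)) :
    ((univ.filter (fun F : Fin (G * k) → X → Ω => ¬ ∃ s : Fin k → Fin (G * k),
      Function.Injective s ∧ ∀ i, Agree val σ (F (s i)))).card : ℝ)
      ≤ 1 / 3 * Fintype.card (Fin (G * k) → X → Ω) := by
  set R := X → Ω
  set P := ∏ x, pr D.M (D.hv x) with hP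
  have hP0 : 0 < P := Finset.prod_pos (fun x _ => pr_pos hm.hM _)
  have hP1 : P ≤ 1 := Finset.prod_le_one (fun x _ => (pr_pos hm.hM _).le)
    (fun x _ => pr_le_one hm.hM _)
  -- groups
  let ι : Fin k → Fin G → Fin (G * k) := fun g y => ⟨g.1 * G + y.1, by
    have h1 := g.2; have h2 := y.2
    calc g.1 * G + y.1 < g.1 * G + G := by omega
      _ = (g.1 + 1) * G := by ring
      _ ≤ k * G := Nat.mul_le_mul_right _ h1
      _ = G * k := mul_comm _ _⟩
  have hι : ∀ g, Function.Injective (ι g) := by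
    intro g y y' h
    have := congrArg Fin.val h
    simp only [ι] at this
    exact Fin.ext (by omega)
  have hι2 : ∀ g g' y y', ι g y = ι g' y' → g = g' := by
    intro g g' y y' h
    have h0 := congrArg Fin.val h
    simp only [ι] at h0
    have h1 := y.2; have h2 := y'.2
    have e1 : (g.1 * G + y.1) / G = g.1 := by
      rw [mul_comm, Nat.mul_add_div (by omega), Nat.div_eq_of_lt h1, add_zero]
    have e2 : (g'.1 * G + y'.1) / G = g'.1 := by
      rw [mul_comm, Nat.mul_add_div (by omega), Nat.div_eq_of_lt h2, add_zero]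
    exact Fin.ext (by rw [← e1, ← e2, h0])
  have hsub : (univ.filter (fun F : Fin (G * k) → X → Ω => ¬ ∃ s : Fin k → Fin (G * k),
      Function.Injective s ∧ ∀ i, Agree val σ (F (s i)))) ⊆
      (univ : Finset (Fin k)).biUnion (fun g => univ.filter (fun F : Fin (G * k) → X → Ω =>
        ∀ y, ¬ Agree val σ (F (ι g y)))) := by
    intro F hF
    rw [mem_filter] at hF
    rw [mem_biUnion]
    by_contra hcon
    push Not at hcon
    have h1 : ∀ g : Fin k, ∃ y, Agree val σ (F (ι g y)) := by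
      intro g
      have := hcon g (mem_univ g)
      rw [mem_filter] at this
      push Not at this
      exact this (mem_univ _)
    choose y hy using h1
    apply hF.2
    refine ⟨fun g => ι g (y g), ?_, hy⟩
    intro g g' h
    exact hι2 _ _ _ _ h
  have hcard := (Finset.card_le_card hsub).trans Finset.card_biUnion_le
  set C := (Fintype.card (Fin (G * k) → R) : ℝ) with hC
  have hCpos : 0 ≤ C := Nat.cast_nonneg _
  have single : ∀ g : Fin k, ((univ.filter (fun F : Fin (G * k) → X → Ω =>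
        ∀ y, ¬ Agree val σ (F (ι g y)))).card : ℝ) ≤ C * (1 / (1 + 3 * k)) := by
    intro g
    have hGk : G ≤ G * k := Nat.le_mul_of_pos_right _ (by have := g.2; omega)
    have h1 : ((univ.filter (fun F : Fin (G * k) → X → Ω =>
        ∀ y, ¬ Agree val σ (F (ι g y)))).card : ℝ)
        = ∑ F : Fin (G * k) → R, ∏ y : Fin G, (1 - if Agree val σ ((F ∘ ι g) y) then (1 : ℝ) else 0) := by
      rw [Finset.card_filter]
      push_cast
      apply Finset.sum_congr rfl
      intro F _
      by_cases h : ∀ y, ¬ Agree val σ (F (ι g y))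
      · rw [if_pos h]
        symm
        apply Finset.prod_eq_one
        intro y _
        simp [h y]
      · rw [if_neg h]
        push Not at h
        obtain ⟨y, hy⟩ := h
        symm
        apply Finset.prod_eq_zero (mem_univ y)
        simp [hy]
    rw [h1, sum_comp_inj (ι g) (hι g)
      (fun r : Fin G → R => ∏ y, (1 - if Agree val σ (r y) then (1 : ℝ) else 0))]
    have h2 : ∑ r : Fin G → R, ∏ y, (1 - if Agree val σ (r y) then (1 : ℝ) else 0)
        = (∑ a : R, (1 - if Agree val σ a then (1 : ℝ) else 0)) ^ G := by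
      have := Finset.prod_univ_sum (fun _ : Fin G => (univ : Finset R))
        (fun _ a => 1 - if Agree val σ a then (1 : ℝ) else 0)
      rw [Fintype.piFinset_univ] at this
      rw [← this, Finset.prod_const, card_univ, Fintype.card_fin]
    rw [h2, Finset.sum_sub_distrib, sum_agree hm σ hσ, ← hP]
    have h3 : (∑ a : R, (1 : ℝ)) - (Fintype.card (X → Ω) : ℝ) * P
        = (Fintype.card R : ℝ) * (1 - P) := by
      rw [Finset.sum_const, card_univ, nsmul_eq_mul]
      ring
    rw [h3, mul_pow, ← mul_assoc, ← pow_add, Nat.sub_add_cancel hGk]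
    have e1 : C = (Fintype.card R : ℝ) ^ (G * k) := by
      have := Fintype.card_fun (α := Fin (G * k)) (β := R)
      rw [Fintype.card_fin] at this
      rw [hC]
      exact_mod_cast this
    rw [← e1]
    apply mul_le_mul_of_nonneg_left _ hCpos
    have hq : (1 - P) ^ G * (1 + P) ^ G ≤ 1 := by
      rw [← mul_pow]
      apply pow_le_one₀ <;> nlinarith
    have hb : 1 + (G : ℝ) * P ≤ (1 + P) ^ G := one_add_mul_le_pow (by linarith) G
    have hpos : (0 : ℝ) < 1 + 3 * k := by positivity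
    rw [le_div_iff₀ hpos]
    calc (1 - P) ^ G * (1 + 3 * k) ≤ (1 - P) ^ G * (1 + P) ^ G := by
          apply mul_le_mul_of_nonneg_left _ (pow_nonneg (by linarith) _)
          linarith
      _ ≤ 1 := hq
  calc ((univ.filter (fun F : Fin (G * k) → X → Ω => ¬ ∃ s : Fin k → Fin (G * k),
      Function.Injective s ∧ ∀ i, Agree val σ (F (s i)))).card : ℝ)
      ≤ ∑ g : Fin k, ((univ.filter (fun F : Fin (G * k) → X → Ω =>
        ∀ y, ¬ Agree val σ (F (ι g y)))).card : ℝ) := by exact_mod_cast hcard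
    _ ≤ ∑ g : Fin k, C * (1 / (1 + 3 * k)) := Finset.sum_le_sum (fun g _ => single g)
    _ = k * (C * (1 / (1 + 3 * k))) := by
        rw [Finset.sum_const, card_univ, Fintype.card_fin, nsmul_eq_mul]
    _ ≤ 1 / 3 * C := by
        have hpos : (0 : ℝ) < 1 + 3 * k := by positivity
        have : (k : ℝ) * (1 / (1 + 3 * k)) ≤ 1 / 3 := by
          rw [mul_one_div, div_le_div_iff₀ hpos (by norm_num)]; linarith
        nlinarith

/-- The constant of the No case. -/
def Kc (M ε₁ : ℝ) : ℝ :=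
  8 * (1 - (Real.log ((1 / (4 * (M - 1))) / 2) + Real.log ((1 / (M - 1)) ^ 3 * ε₁ / 4))) /
    ((1 / (M - 1)) ^ 3 * ε₁)

open Classical in
/-- No case. -/
theorem no_count {Valid : (X → ℕ) → Prop} {ε₁ : ℝ} (hm : Model D Ω val) (hM : 3 ≤ D.M)
    (hε0 : 0 < ε₁) (hε1 : ε₁ ≤ 1)
    (hval2 : ∀ x ω, val x ω ≤ 2) (hval1 : ∀ x ω, D.hv x → val x ω ≤ 1)
    (hG : Gap D Valid (ε₁ * Fintype.card X)) (k N : ℕ) (B : ℝ) (hB1 : 1 ≤ B)
    (hB : N * ∏ x, pr D.M (D.hv x) ≤ B)
    (hn0 : 0 < Fintype.card X)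
    (hn1 : 2 * Real.log (k + 1) ≤ (1 / (D.M - 1)) ^ 3 * ε₁ / 4 * Fintype.card X)
    (hn2 : (k + 1) * 2 ^ (k * k) * (k + 1) * B ^ k * Real.exp (-(Fintype.card X : ℝ)) ≤ 1 / 3) :
    ((univ.filter (fun F : Fin N → X → Ω => ∃ S : Finset (Fin N), S.card ≤ k ∧
      Kc D.M ε₁ * k < e2 val Valid F S)).card : ℝ)
      ≤ 1 / 3 * Fintype.card (Fin N → X → Ω) := by
  set n : ℝ := (Fintype.card X : ℝ) with hn
  have hnpos : 0 < n := by rw [hn]; exact_mod_cast hn0
  have hM1 : 0 < D.M - 1 := by linarith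
  have hp0 : 0 < 1 / (D.M - 1) := by positivity
  have hp1 : 1 / (D.M - 1) ≤ 1 / 2 := by
    apply one_div_le_one_div_of_le <;> linarith
  set p := 1 / (D.M - 1) with hp
  set τ := 1 / (4 * (D.M - 1)) with hτ
  set β := p ^ 3 * ε₁ / 4 with hβ
  have hp3 : p ^ 3 ≤ 1 := pow_le_one₀ hp0.le (by linarith)
  have hβ0 : 0 < β := by rw [hβ]; positivity
  have hβ1 : β ≤ 1 / 2 := by
    rw [hβ]
    have : p ^ 3 * ε₁ ≤ 1 * 1 := mul_le_mul hp3 hε1 hε0.le (by norm_num)
    linarith
  have hτ0 : 0 < τ := by rw [hτ]; positivity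
  have hτ1 : τ ≤ 1 := by
    rw [hτ, div_le_one (by linarith)]; linarith
  set κ := Real.log (τ / 2) + Real.log β with hκ
  have hKc : Kc D.M ε₁ = 8 * (1 - κ) / (p ^ 3 * ε₁) := rfl
  have hsub : (univ.filter (fun F : Fin N → X → Ω => ∃ S : Finset (Fin N), S.card ≤ k ∧
      Kc D.M ε₁ * k < e2 val Valid F S)) ⊆ badF D val τ β n k N := by
    intro F hF
    by_contra hcon
    rw [mem_filter] at hF
    obtain ⟨_, S, hS, hlt⟩ := hF
    have key := no_dense hm hM hβ0 hβ1 hnpos.le hval2 hval1 hG k N F hcon S hS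
    rw [← hp, ← hτ, ← hn, ← hκ] at key
    have h1 : p ^ 3 * ε₁ / 4 * n ≤ p ^ 3 * (ε₁ * n) - 2 * β * n - 2 * Real.log (k + 1) := by
      rw [hβ]; nlinarith
    have he : (0 : ℝ) ≤ e2 val Valid F S := Nat.cast_nonneg _
    have h2 := mul_le_mul_of_nonneg_left h1 he
    have h3 : (e2 val Valid F S : ℝ) * (p ^ 3 * ε₁ / 4 * n) ≤ 2 * k * (n - n * κ) := h2.trans key
    rw [hKc] at hlt
    have hpe : 0 < p ^ 3 * ε₁ := by positivity
    have h4 : 8 * (1 - κ) * k < e2 val Valid F S * (p ^ 3 * ε₁) := by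
      rw [div_mul_eq_mul_div, div_lt_iff₀ hpe] at hlt
      exact hlt
    nlinarith
  calc ((univ.filter (fun F : Fin N → X → Ω => ∃ S : Finset (Fin N), S.card ≤ k ∧
      Kc D.M ε₁ * k < e2 val Valid F S)).card : ℝ)
      ≤ ((badF D val τ β n k N).card : ℝ) := by exact_mod_cast Finset.card_le_card hsub
    _ ≤ ((k + 1) * 2 ^ (k * k) * (k + 1) * B ^ k * Real.exp (-n))
        * (Fintype.card (Fin N → X → Ω)) :=
        card_badF_le hm hτ0.le hτ1 hβ0.le (by linarith) k N B hB1 hB
    _ ≤ 1 / 3 * Fintype.card (Fin N → X → Ω) :=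
        mul_le_mul_of_nonneg_right hn2 (Nat.cast_nonneg _)

end

end Pool.Agent.H588R2.Dks
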