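import Mathlib

/-!
# A word RAM

A deterministic random-access machine with words of `w` bits and unit-cost operations.
-/

namespace Pool.Agent.H588R2

/-- State of a word RAM: registers and memory cells, each holding a word. -/
structure St where
  reg : ℕ → ℕ
  mem : ℕ → ℕ

/-- Elementary operations of the word RAM; the arguments are register numbers
(except the constant `c` in `const`).
`const d c`: `r_d := c`; `add d a b`: `r_d := r_a + r_b`; `sub d a b`: `r_d := r_a - r_b`
(zero if negative); `mul d a b`: `r_d := r_a * r_b`;
`load d a`: `r_d := M[r_a]`; `store a s`: `M[r_a] := r_s`. -/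
inductive Op where
  | const (d c : ℕ)
  | add (d a b : ℕ)
  | sub (d a b : ℕ)
  | mul (d a b : ℕ)
  | load (d a : ℕ)
  | store (a s : ℕ)

/-- Effect of an elementary operation with words of `w` bits (arithmetic modulo `2 ^ w`). -/
def Op.exec (w : ℕ) : Op → St → St
  | .const d c, s => ⟨Function.update s.reg d (c % 2 ^ w), s.mem⟩
  | .add d a b, s => ⟨Function.update s.reg d ((s.reg a + s.reg b) % 2 ^ w), s.mem⟩
  | .sub d a b, s => ⟨Function.update s.reg d ((s.reg a - s.reg b) % 2 ^ w), s.mem⟩
  | .mul d a b, s => ⟨Function.update s.reg d ((s.reg a * s.reg b) % 2 ^ w), s.mem⟩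
  | .load d a, s => ⟨Function.update s.reg d (s.mem (s.reg a) % 2 ^ w), s.mem⟩
  | .store a b, s => ⟨s.reg, Function.update s.mem (s.reg a) (s.reg b)⟩

/-- Instructions: an elementary operation, an unconditional jump, a conditional jump
(`jlt a b l`: if `r_a < r_b` continue at instruction `l`), or halt. -/
inductive Instr where
  | op (o : Op)
  | jmp (l : ℕ)
  | jlt (a b l : ℕ)
  | halt

/-- A configuration: program counter and state. -/
structure Config where
  pc : ℕ
  st : St

/-- One step of the word RAM with word length `w` running the program `P`.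
A halted machine does not move. -/
def step (w : ℕ) (P : List Instr) (c : Config) : Config :=
  match P[c.pc]? with
  | some (.op o) => ⟨c.pc + 1, o.exec w c.st⟩
  | some (.jmp l) => ⟨l, c.st⟩
  | some (.jlt a b l) => if c.st.reg a < c.st.reg b then ⟨l, c.st⟩ else ⟨c.pc + 1, c.st⟩
  | some .halt => c
  | none => c

/-- The machine has halted: it is at a `halt` instruction or outside the program. -/
def Halted (P : List Instr) (c : Config) : Prop :=
  P[c.pc]? = some Instr.halt ∨ P[c.pc]? = none

/-- Started in configuration `c` with word length `w`, the program `P` halts after at most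
`T` steps with output `out` in register `0`. -/
def HaltsWithin (w : ℕ) (P : List Instr) (c : Config) (T : ℝ) (out : ℕ) : Prop :=
  ∃ t : ℕ, (t : ℝ) ≤ T ∧ Halted P ((step w P)^[t] c) ∧ ((step w P)^[t] c).st.reg 0 = out

end Pool.Agent.H588R2
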