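import Pool.Agent.H588R2.Model

/-!
A small structured language compiled to the word RAM, and rules for running time.
-/

namespace Pool.Agent.H588R2

/-- Structured commands. -/
inductive Cmd where
  | skip
  | op (o : Op)
  | seq (c₁ c₂ : Cmd)
  | ite (a b : ℕ) (c₁ c₂ : Cmd)
  | loop (a b : ℕ) (c : Cmd)

/-- Number of instructions of the compiled command. -/
def Cmd.size : Cmd → ℕ
  | .skip => 0
  | .op _ => 1
  | .seq c₁ c₂ => c₁.size + c₂.size
  | .ite _ _ c₁ c₂ => c₁.size + c₂.size + 2
  | .loop _ _ c => c.size + 3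

/-- Compilation of a command placed at address `o`. -/
def Cmd.compile : Cmd → ℕ → List Instr
  | .skip, _ => []
  | .op i, _ => [.op i]
  | .seq c₁ c₂, o => c₁.compile o ++ c₂.compile (o + c₁.size)
  | .ite a b c₁ c₂, o =>
      [.jlt a b (o + 2 + c₂.size)] ++ c₂.compile (o + 1) ++
        [.jmp (o + 2 + c₂.size + c₁.size)] ++ c₁.compile (o + 2 + c₂.size)
  | .loop a b c, o =>
      [.jlt a b (o + 2), .jmp (o + 3 + c.size)] ++ c.compile (o + 2) ++ [.jmp o]

theorem Cmd.length_compile (c : Cmd) : ∀ o, (c.compile o).length = c.size := by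
  induction c with
  | skip => intro o; rfl
  | op i => intro o; rfl
  | seq c₁ c₂ h₁ h₂ => intro o; simp [Cmd.compile, Cmd.size, h₁, h₂]
  | ite a b c₁ c₂ h₁ h₂ => intro o; simp [Cmd.compile, Cmd.size, h₁, h₂]; omega
  | loop a b c h => intro o; simp [Cmd.compile, Cmd.size, h]

/-- Big-step execution with running time. -/
inductive Exec (w : ℕ) : Cmd → St → St → ℕ → Prop
  | skip (s) : Exec w .skip s s 0
  | op (o s) : Exec w (.op o) s (o.exec w s) 1
  | seq {c₁ c₂ s s' s'' t t'} : Exec w c₁ s s' t → Exec w c₂ s' s'' t' →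
      Exec w (.seq c₁ c₂) s s'' (t + t')
  | iteTrue {a b c₁ c₂ s s' t} : s.reg a < s.reg b → Exec w c₁ s s' t →
      Exec w (.ite a b c₁ c₂) s s' (1 + t)
  | iteFalse {a b c₁ c₂ s s' t} : ¬ s.reg a < s.reg b → Exec w c₂ s s' t →
      Exec w (.ite a b c₁ c₂) s s' (1 + (t + 1))
  | loopTrue {a b c s s' s'' t t'} : s.reg a < s.reg b → Exec w c s s' t →
      Exec w (.loop a b c) s' s'' t' → Exec w (.loop a b c) s s'' (1 + (t + (1 + t')))
  | loopFalse {a b c s} : ¬ s.reg a < s.reg b → Exec w (.loop a b c) s s 2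

theorem step_iter_add (w : ℕ) (P : List Instr) (t t' : ℕ) (c c' c'' : Config)
    (h : (step w P)^[t] c = c') (h' : (step w P)^[t'] c' = c'') :
    (step w P)^[t + t'] c = c'' := by
  rw [Nat.add_comm, Function.iterate_add_apply, h, h']

/-- The block `B` sits in the program `P` at address `o`. -/
def At (P : List Instr) (o : ℕ) (B : List Instr) : Prop :=
  ∀ i, i < B.length → P[o + i]? = B[i]?

theorem At.left {P o B C} (h : At P o (B ++ C)) : At P o B := by
  intro i hi
  rw [h i (by simp; omega), List.getElem?_append_left hi]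

theorem At.right {P o B C} (h : At P o (B ++ C)) : At P (o + B.length) C := by
  intro i hi
  have := h (B.length + i) (by simp; omega)
  rw [← Nat.add_assoc] at this
  rw [this, List.getElem?_append_right (by omega)]
  congr 1; omega

theorem At.head {P o I B} (h : At P o (I :: B)) : P[o]? = some I := by
  have := h 0 (by simp)
  simpa using this

theorem compile_correct (w : ℕ) (P : List Instr) {c : Cmd} {s s' : St} {t : ℕ}
    (h : Exec w c s s' t) : ∀ o, At P o (c.compile o) →
      (step w P)^[t] ⟨o, s⟩ = ⟨o + c.size, s'⟩ := by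
  induction h with
  | skip s => intro o _; rfl
  | op i s =>
    intro o h
    have := h.head
    simp [step, this, Cmd.size]
  | @seq c₁ c₂ s s' s'' t t' _ _ ih₁ ih₂ =>
    intro o h
    have h1 := h.left
    have h2 := h.right
    rw [Cmd.length_compile] at h2
    have e1 := ih₁ o h1
    have e2 := ih₂ _ h2
    have := step_iter_add w P _ _ _ _ _ e1 e2
    rw [this]; simp [Cmd.size, Nat.add_assoc]
  | @iteTrue a b c₁ c₂ s s' t hlt _ ih =>
    intro o h
    have h0 : P[o]? = some (.jlt a b (o + 2 + c₂.size)) := by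
      have := h.left.left.left.head
      exact this
    have h2 : At P (o + 2 + c₂.size) (c₁.compile (o + 2 + c₂.size)) := by
      have := h.right
      simp only [List.length_append, Cmd.length_compile, List.length_cons, List.length_nil] at this
      convert this using 1
      omega
    have e1 : (step w P)^[1] ⟨o, s⟩ = ⟨o + 2 + c₂.size, s⟩ := by
      simp [step, h0, hlt]
    have := step_iter_add w P _ _ _ _ _ e1 (ih _ h2)
    rw [this]; simp only [Cmd.size]; congr 1; omega
  | @iteFalse a b c₁ c₂ s s' t hlt _ ih =>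
    intro o h
    have h0 : P[o]? = some (.jlt a b (o + 2 + c₂.size)) := by
      have := h.left.left.left.head
      exact this
    have h1 : At P (o + 1) (c₂.compile (o + 1)) := by
      have := h.left.left.right
      simpa using this
    have h2 : P[o + 1 + c₂.size]? = some (.jmp (o + 2 + c₂.size + c₁.size)) := by
      have := h.left.right
      simp only [List.length_append, Cmd.length_compile, List.length_cons, List.length_nil] at this
      have := this.head
      rw [← this]; congr 1; omega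
    have e1 : (step w P)^[1] ⟨o, s⟩ = ⟨o + 1, s⟩ := by
      simp [step, h0, hlt]
    have e3 : (step w P)^[1] ⟨o + 1 + c₂.size, s'⟩ = ⟨o + 2 + c₂.size + c₁.size, s'⟩ := by
      simp [step, h2]
    have := step_iter_add w P _ _ _ _ _ e1 (step_iter_add w P _ _ _ _ _ (ih _ h1) e3)
    rw [this]; simp only [Cmd.size]; congr 1; omega
  | @loopTrue a b c s s' s'' t t' hlt _ _ ih₁ ih₂ =>
    intro o h
    have h0 : P[o]? = some (.jlt a b (o + 2)) := by
      have := h.left.left.head
      exact this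
    have h1 : At P (o + 2) (c.compile (o + 2)) := by
      have := h.left.right
      simpa using this
    have h2 : P[o + 2 + c.size]? = some (.jmp o) := by
      have := h.right
      simp only [List.length_append, Cmd.length_compile, List.length_cons, List.length_nil] at this
      have := this.head
      rw [← this]; congr 1; omega
    have e1 : (step w P)^[1] ⟨o, s⟩ = ⟨o + 2, s⟩ := by
      simp [step, h0, hlt]
    have e3 : (step w P)^[1] ⟨o + 2 + c.size, s'⟩ = ⟨o, s'⟩ := by
      simp [step, h2]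
    exact step_iter_add w P _ _ _ _ _ e1 (step_iter_add w P _ _ _ _ _ (ih₁ _ h1)
      (step_iter_add w P _ _ _ _ _ e3 (ih₂ _ h)))
  | @loopFalse a b c s hlt =>
    intro o h
    have h0 : P[o]? = some (.jlt a b (o + 2)) := by
      have := h.left.left.head
      exact this
    have h1 : P[o + 1]? = some (.jmp (o + 3 + c.size)) := by
      have h' := h 1 (by simp [Cmd.compile])
      rw [h']; simp [Cmd.compile]
    have e1 : (step w P)^[1] ⟨o, s⟩ = ⟨o + 1, s⟩ := by
      simp [step, h0, hlt]
    have e2 : (step w P)^[1] ⟨o + 1, s⟩ = ⟨o + 3 + c.size, s⟩ := by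
      simp [step, h1]
    have := step_iter_add w P _ _ _ _ _ e1 e2
    rw [this]; simp only [Cmd.size]; congr 1; omega

/-- `Runs w c s Q`: the command terminates from `s` and final state and time satisfy `Q`. -/
def Runs (w : ℕ) (c : Cmd) (s : St) (Q : St → ℕ → Prop) : Prop :=
  ∃ s' t, Exec w c s s' t ∧ Q s' t

theorem Runs.mono {w c s} {Q Q' : St → ℕ → Prop} (h : Runs w c s Q)
    (hQ : ∀ s' t, Q s' t → Q' s' t) : Runs w c s Q' := by
  obtain ⟨s', t, he, hq⟩ := h
  exact ⟨s', t, he, hQ _ _ hq⟩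

theorem Runs.skip {w s} {Q : St → ℕ → Prop} (h : Q s 0) : Runs w .skip s Q :=
  ⟨s, 0, .skip s, h⟩

theorem Runs.op {w o s} {Q : St → ℕ → Prop} (h : Q (o.exec w s) 1) : Runs w (.op o) s Q :=
  ⟨_, 1, .op o s, h⟩

theorem Runs.seq {w c₁ c₂ s} {Q : St → ℕ → Prop}
    (h : Runs w c₁ s (fun s' t => Runs w c₂ s' (fun s'' t' => Q s'' (t + t')))) :
    Runs w (.seq c₁ c₂) s Q := by
  obtain ⟨s', t, he, s'', t', he', hq⟩ := h
  exact ⟨s'', t + t', .seq he he', hq⟩

theorem Runs.ite {w a b c₁ c₂ s} {Q : St → ℕ → Prop}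
    (h1 : s.reg a < s.reg b → Runs w c₁ s (fun s' t => Q s' (1 + t)))
    (h2 : ¬ s.reg a < s.reg b → Runs w c₂ s (fun s' t => Q s' (1 + (t + 1)))) :
    Runs w (.ite a b c₁ c₂) s Q := by
  by_cases hlt : s.reg a < s.reg b
  · obtain ⟨s', t, he, hq⟩ := h1 hlt
    exact ⟨s', _, .iteTrue hlt he, hq⟩
  · obtain ⟨s', t, he, hq⟩ := h2 hlt
    exact ⟨s', _, .iteFalse hlt he, hq⟩

/-- Loop rule: `I q s τ` holds after `q` iterations, at time `τ`. -/
theorem Runs.loop {w a b c} (N : ℕ) (I : ℕ → St → ℕ → Prop)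
    (hstep : ∀ q s τ, q < N → I q s τ → s.reg a < s.reg b ∧
      Runs w c s (fun s' t => I (q + 1) s' (τ + (t + 2))))
    (hend : ∀ s τ, I N s τ → ¬ s.reg a < s.reg b)
    {s : St} (h0 : I 0 s 0) {Q : St → ℕ → Prop} (hQ : ∀ s' τ, I N s' τ → Q s' (τ + 2)) :
    Runs w (.loop a b c) s Q := by
  have key : ∀ m q s τ, q + m = N → I q s τ →
      ∃ s' t, Exec w (.loop a b c) s s' t ∧ ∃ τ', I N s' τ' ∧ τ + t = τ' + 2 := by
    intro m
    induction m with
    | zero =>
      intro q s τ hq hI
      have : q = N := by omega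
      subst this
      exact ⟨s, 2, .loopFalse (hend _ _ hI), τ, hI, rfl⟩
    | succ m ih =>
      intro q s τ hq hI
      obtain ⟨hlt, s', t, he, hI'⟩ := hstep q s τ (by omega) hI
      obtain ⟨s'', t', he', τ', hτ, heq⟩ := ih (q + 1) s' _ (by omega) hI'
      exact ⟨s'', _, .loopTrue hlt he he', τ', hτ, by omega⟩
  obtain ⟨s', t, he, τ', hI, heq⟩ := key N 0 s 0 (by omega) h0
  refine ⟨s', t, he, ?_⟩
  have := hQ s' τ' hI
  have e : t = τ' + 2 := by omega
  rw [e]; exact this

end Pool.Agent.H588R2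

namespace Pool.Agent.H588R2

/-- Set a register. -/
def St.set (s : St) (d v : ℕ) : St := ⟨Function.update s.reg d v, s.mem⟩

@[simp] theorem St.set_mem (s : St) (d v : ℕ) : (s.set d v).mem = s.mem := rfl

@[simp] theorem St.set_reg_self (s : St) (d v : ℕ) : (s.set d v).reg d = v := by
  simp [St.set]

theorem St.set_reg_ne (s : St) {d x : ℕ} (v : ℕ) (h : x ≠ d) : (s.set d v).reg x = s.reg x := by
  simp [St.set, Function.update_of_ne h]

theorem Runs.const {w d c s} {Q : St → ℕ → Prop} (hlt : c < 2 ^ w) (h : Q (s.set d c) 1) :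
    Runs w (.op (.const d c)) s Q := by
  apply Runs.op
  simpa [Op.exec, Nat.mod_eq_of_lt hlt, St.set] using h

theorem Runs.add {w d a b s} {Q : St → ℕ → Prop} (hlt : s.reg a + s.reg b < 2 ^ w)
    (h : Q (s.set d (s.reg a + s.reg b)) 1) : Runs w (.op (.add d a b)) s Q := by
  apply Runs.op
  simpa [Op.exec, Nat.mod_eq_of_lt hlt, St.set] using h

theorem Runs.sub {w d a b s} {Q : St → ℕ → Prop} (hlt : s.reg a - s.reg b < 2 ^ w)
    (h : Q (s.set d (s.reg a - s.reg b)) 1) : Runs w (.op (.sub d a b)) s Q := by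
  apply Runs.op
  simpa [Op.exec, Nat.mod_eq_of_lt hlt, St.set] using h

theorem Runs.mul {w d a b s} {Q : St → ℕ → Prop} (hlt : s.reg a * s.reg b < 2 ^ w)
    (h : Q (s.set d (s.reg a * s.reg b)) 1) : Runs w (.op (.mul d a b)) s Q := by
  apply Runs.op
  simpa [Op.exec, Nat.mod_eq_of_lt hlt, St.set] using h

theorem Runs.load {w d a s} {Q : St → ℕ → Prop} (hlt : s.mem (s.reg a) < 2 ^ w)
    (h : Q (s.set d (s.mem (s.reg a))) 1) : Runs w (.op (.load d a)) s Q := by
  apply Runs.op
  simpa [Op.exec, Nat.mod_eq_of_lt hlt, St.set] using h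

/-- `s'` agrees with `s` on memory and on all registers outside `S`. -/
def Same (S : Set ℕ) (s s' : St) : Prop := s'.mem = s.mem ∧ ∀ x, x ∉ S → s'.reg x = s.reg x

theorem Same.refl (S : Set ℕ) (s : St) : Same S s s := ⟨rfl, fun _ _ => rfl⟩

theorem Same.trans {S : Set ℕ} {s s' s'' : St} (h : Same S s s') (h' : Same S s' s'') :
    Same S s s'' := ⟨h'.1.trans h.1, fun x hx => (h'.2 x hx).trans (h.2 x hx)⟩

theorem Same.mono {S T : Set ℕ} {s s' : St} (h : Same S s s') (hST : S ⊆ T) : Same T s s' :=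
  ⟨h.1, fun x hx => h.2 x (fun hx' => hx (hST hx'))⟩

theorem Same.set {S : Set ℕ} {s s' : St} {d : ℕ} (h : Same S s s') (hd : d ∈ S) (v : ℕ) :
    Same S s (s'.set d v) :=
  ⟨h.1, fun x hx => by
    rw [St.set_reg_ne _ _ (fun e => hx (by rw [e]; exact hd))]; exact h.2 x hx⟩

/-- Repeated multiplication: `r_d := r_d * r_s ^ i`. -/
def mulRep (d s : ℕ) : ℕ → Cmd
  | 0 => .skip
  | i + 1 => .seq (mulRep d s i) (.op (.mul d d s))

theorem runs_mulRep {w d x : ℕ} (hdx : x ≠ d) : ∀ (i : ℕ) (s : St),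
    (∀ j ≤ i, s.reg d * s.reg x ^ j < 2 ^ w) → ∀ {Q : St → ℕ → Prop},
    Q (s.set d (s.reg d * s.reg x ^ i)) i → Runs w (mulRep d x i) s Q := by
  intro i
  induction i with
  | zero =>
    intro s _ Q hQ
    apply Runs.skip
    have : s.set d (s.reg d * s.reg x ^ 0) = s := by
      cases s; simp [St.set]
    rwa [this] at hQ
  | succ i ih =>
    intro s hlt Q hQ
    apply Runs.seq
    apply ih s (fun j hj => hlt j (by omega))
    have e1 : (s.set d (s.reg d * s.reg x ^ i)).reg d = s.reg d * s.reg x ^ i := by simp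
    have e2 : (s.set d (s.reg d * s.reg x ^ i)).reg x = s.reg x := St.set_reg_ne _ _ hdx
    apply Runs.mul
    · rw [e1, e2]
      have := hlt (i + 1) le_rfl
      rwa [pow_succ, ← mul_assoc] at this
    · rw [e1, e2]
      have : (s.set d (s.reg d * s.reg x ^ i)).set d (s.reg d * s.reg x ^ i * s.reg x)
          = s.set d (s.reg d * s.reg x ^ (i + 1)) := by
        simp [St.set, pow_succ, mul_assoc]
      rw [this]
      exact hQ

end Pool.Agent.H588R2
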